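import Mathlib

/-!
# BB, chapter K: definitions (KAM theorem for near identity maps, translated curve form)

`S r` is the strip `|Im z| < r`; `P r f`: `f` is holomorphic on `S r`, 1-periodic there and real on the real line
(Schwarz symmetry); `B r f M`: `‖f‖ ≤ M` on `S r`.  Two-dimensional Fourier series are given by
double sequences `c : ℤ × ℤ → ℂ`, `ev c x y = ∑ c k e(k.1 x + k.2 y)`, `trunc r c` keeps the `k` with `|k| r ≤ 1`.
-/

open Set

namespace BBK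

/-- the strip `|Im z| < r` -/
def S (r : ℝ) : Set ℂ := {z | |z.im| < r}

/-- real, 1-periodic, holomorphic functions on the strip -/
structure P (r : ℝ) (f : ℂ → ℂ) : Prop where
  diff : DifferentiableOn ℂ f (S r)
  per : ∀ z ∈ S r, f (z + 1) = f z
  conj : ∀ z ∈ S r, f ((starRingEnd ℂ) z) = (starRingEnd ℂ) (f z)

/-- sup bound on the strip -/
def B (r : ℝ) (f : ℂ → ℂ) (M : ℝ) : Prop := ∀ z ∈ S r, ‖f z‖ ≤ M

/-- the rotated function -/
def rot (al : ℝ) (f : ℂ → ℂ) : ℂ → ℂ := fun z => f (z + (al : ℂ))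

/-- average over a period (of the real part, on the real line) -/
noncomputable def avg (f : ℂ → ℂ) : ℝ := ∫ x in (0 : ℝ)..1, (f (x : ℂ)).re

/-- Diophantine condition with a small constant -/
def Dio (al mu M : ℝ) : Prop :=
  ∀ k m : ℤ, k ≠ 0 → mu / (M * |(k : ℝ)|) ≤ |(k : ℝ) * al - (m : ℝ)|

/-- Fourier coefficients -/
noncomputable def fc (f : ℂ → ℂ) (k : ℤ) : ℂ :=
  ∫ x in (0 : ℝ)..1, f (x : ℂ) * Complex.exp (-(2 * (Real.pi : ℂ) * Complex.I * (k : ℂ) * (x : ℂ)))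

/-- double sequences -/
abbrev Seq := ℤ × ℤ → ℂ

/-- `|k| = |k.1| + |k.2|` -/
noncomputable def wt (k : ℤ × ℤ) : ℝ := |(k.1 : ℝ)| + |(k.2 : ℝ)|

/-- weighted norm bound -/
def Bd (c : Seq) (m : ℕ) (M : ℝ) : Prop :=
  Summable (fun k => ‖c k‖ * (1 + wt k) ^ m) ∧ ∑' k, ‖c k‖ * (1 + wt k) ^ m ≤ M

/-- `e(k.1 x + k.2 y)` -/
noncomputable def ee (k : ℤ × ℤ) (x y : ℂ) : ℂ :=
  Complex.exp (2 * (Real.pi : ℂ) * Complex.I * ((k.1 : ℂ) * x + (k.2 : ℂ) * y))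

/-- the function given by a double sequence -/
noncomputable def ev (c : Seq) (x y : ℂ) : ℂ := ∑' k, c k * ee k x y

/-- derivative in the first variable -/
noncomputable def D1 (c : Seq) : Seq := fun k => 2 * (Real.pi : ℂ) * Complex.I * (k.1 : ℂ) * c k

/-- derivative in the second variable -/
noncomputable def D2 (c : Seq) : Seq := fun k => 2 * (Real.pi : ℂ) * Complex.I * (k.2 : ℂ) * c k

open Classical in
/-- truncation -/
noncomputable def trunc (r : ℝ) (c : Seq) : Seq := fun k => if wt k * r ≤ 1 then c k else 0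

/-- real sequences -/
def IsReal (c : Seq) : Prop := ∀ k, c (-k) = (starRingEnd ℂ) (c k)

/-- the constant `exp (4 pi)` -/
noncomputable def C0 : ℝ := Real.exp (4 * Real.pi)

/-- the data of the theorem: `A = ev ct + mu ev ca`, `B = mu ev cb`, `T (x, y) = (x + al + mu A, y + mu B)` -/
structure Data (M mu : ℝ) (ct ca cb : Seq) : Prop where
  rt : IsReal ct
  ra : IsReal ca
  rb : IsReal cb
  bt : Bd ct 60 M
  ba : Bd ca 60 M
  bb : Bd cb 60 M
  supp : ∀ k : ℤ × ℤ, k.1 ≠ 0 → ct k = 0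
  zero : ev ct 0 0 = 0
  twist : 1 / M ≤ ‖ev (D2 ct) 0 0‖
  det : ∀ x y : ℝ, |y| ≤ 1 / 16 →
    (1 + (mu : ℂ) * ((mu : ℂ) * ev (D1 ca) x y)) * (1 + (mu : ℂ) * ((mu : ℂ) * ev (D2 cb) x y))
      - (mu : ℂ) * (ev (D2 ct) x y + (mu : ℂ) * ev (D2 ca) x y) * ((mu : ℂ) * ((mu : ℂ) * ev (D1 cb) x y)) = 1

/-- derivatives of `A_r`, `B_r` along the curve `(z + u z, v z)` -/
noncomputable def Axf (mu : ℝ) (ca : Seq) (r : ℝ) (u v : ℂ → ℂ) : ℂ → ℂ :=
  fun z => (mu : ℂ) * ev (trunc r (D1 ca)) (z + u z) (v z)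
noncomputable def Ayf (mu : ℝ) (ct ca : Seq) (r : ℝ) (u v : ℂ → ℂ) : ℂ → ℂ :=
  fun z => ev (trunc r (D2 ct)) (z + u z) (v z) + (mu : ℂ) * ev (trunc r (D2 ca)) (z + u z) (v z)
noncomputable def Bxf (mu : ℝ) (cb : Seq) (r : ℝ) (u v : ℂ → ℂ) : ℂ → ℂ :=
  fun z => (mu : ℂ) * ev (trunc r (D1 cb)) (z + u z) (v z)
noncomputable def Byf (mu : ℝ) (cb : Seq) (r : ℝ) (u v : ℂ → ℂ) : ℂ → ℂ :=
  fun z => (mu : ℂ) * ev (trunc r (D2 cb)) (z + u z) (v z)

/-- the two residuals of `T_r (z + u, v) = (z + al + u (z + al), v (z + al) + lam)` -/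
noncomputable def res1 (mu al : ℝ) (ct ca : Seq) (r : ℝ) (u v : ℂ → ℂ) : ℂ → ℂ :=
  fun z => (mu : ℂ) * (ev (trunc r ct) (z + u z) (v z) + (mu : ℂ) * ev (trunc r ca) (z + u z) (v z))
    - (u (z + (al : ℂ)) - u z)
noncomputable def res2 (mu al : ℝ) (cb : Seq) (r : ℝ) (u v : ℂ → ℂ) (lam : ℝ) : ℂ → ℂ :=
  fun z => (mu : ℂ) * ((mu : ℂ) * ev (trunc r cb) (z + u z) (v z))
    - (v (z + (al : ℂ)) - v z) - (lam : ℂ)

/-- the curve in S_r coordinates with residual at most `mu * kap` -/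
structure State (mu al : ℝ) (ct ca cb : Seq) (r kap nu : ℝ) (u v : ℂ → ℂ) (lam : ℝ) : Prop where
  hu : P r u
  hv : P r v
  bu : B r u nu
  bv : B r v nu
  bu' : B r (deriv u) nu
  bv' : B r (deriv v) nu
  e1 : B r (res1 mu al ct ca r u v) (mu * kap)
  e2 : B r (res2 mu al cb r u v lam) (mu * kap)

end BBK
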