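import Pool.Agent.Lib_helper16.BBK.Defs

open Set

namespace BBK

theorem wt_nonneg (k : ℤ × ℤ) : 0 ≤ wt k := by
  unfold wt
  positivity

theorem E1_one_le (k : ℤ × ℤ) (m : ℕ) : 1 ≤ (1 + wt k) ^ m :=
  one_le_pow₀ (by linarith [wt_nonneg k])

theorem E1_term_nonneg (c : Seq) (m : ℕ) (k : ℤ × ℤ) : 0 ≤ ‖c k‖ * (1 + wt k) ^ m :=
  mul_nonneg (norm_nonneg _) (by linarith [E1_one_le k m])

/-- comparison of two weighted sums -/
theorem E1_comp {c d : Seq} {m n : ℕ} {M K : ℝ} (h : Bd c m M)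
    (hcd : ∀ k, ‖d k‖ * (1 + wt k) ^ n ≤ K * (‖c k‖ * (1 + wt k) ^ m)) (hK : 0 ≤ K) :
    Bd d n (K * M) := by
  have hs : Summable (fun k => ‖d k‖ * (1 + wt k) ^ n) :=
    Summable.of_nonneg_of_le (fun k => E1_term_nonneg d n k) hcd (h.1.mul_left K)
  refine ⟨hs, ?_⟩
  calc ∑' k, ‖d k‖ * (1 + wt k) ^ n ≤ ∑' k, K * (‖c k‖ * (1 + wt k) ^ m) :=
        hs.tsum_le_tsum hcd (h.1.mul_left K)
    _ = K * ∑' k, ‖c k‖ * (1 + wt k) ^ m := tsum_mul_left
    _ ≤ K * M := mul_le_mul_of_nonneg_left h.2 hK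

theorem E1_main {f : ℤ × ℤ → ℂ} {c : Seq} {m : ℕ} {M K : ℝ} (h : Bd c m M) (hK : 0 ≤ K)
    (hf : ∀ k, ‖f k‖ ≤ K * (‖c k‖ * (1 + wt k) ^ m)) :
    Summable f ∧ ‖∑' k, f k‖ ≤ K * M := by
  have hs : Summable f := Summable.of_norm_bounded (h.1.mul_left K) hf
  refine ⟨hs, ?_⟩
  calc ‖∑' k, f k‖ ≤ ∑' k, ‖f k‖ := norm_tsum_le_tsum_norm
        (Summable.of_nonneg_of_le (fun k => norm_nonneg _) hf (h.1.mul_left K))
    _ ≤ ∑' k, K * (‖c k‖ * (1 + wt k) ^ m) :=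
        (Summable.of_nonneg_of_le (fun k => norm_nonneg _) hf (h.1.mul_left K)).tsum_le_tsum hf
          (h.1.mul_left K)
    _ = K * ∑' k, ‖c k‖ * (1 + wt k) ^ m := tsum_mul_left
    _ ≤ K * M := mul_le_mul_of_nonneg_left h.2 hK

theorem Bd.nonneg {c : Seq} {m : ℕ} {M : ℝ} (h : Bd c m M) : 0 ≤ M :=
  (tsum_nonneg (fun k => E1_term_nonneg c m k)).trans h.2

theorem Bd.mono {c : Seq} {m n : ℕ} {M N : ℝ} (h : Bd c m M) (hn : n ≤ m) (hN : M ≤ N) :
    Bd c n N := by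
  have h1 : Bd c n (1 * M) := by
    apply E1_comp h _ zero_le_one
    intro k
    rw [one_mul]
    exact mul_le_mul_of_nonneg_left (pow_le_pow_right₀ (by linarith [wt_nonneg k]) hn)
      (norm_nonneg _)
  rw [one_mul] at h1
  exact ⟨h1.1, h1.2.trans hN⟩

theorem E1_norm_two_pi (a : ℤ) : ‖2 * (Real.pi : ℂ) * Complex.I * (a : ℂ)‖ =
    2 * Real.pi * |(a : ℝ)| := by
  rw [norm_mul, norm_mul, norm_mul, Complex.norm_I, Complex.norm_real, Real.norm_eq_abs,
    abs_of_pos Real.pi_pos, Complex.norm_intCast]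
  simp

theorem Bd.D1 {c : Seq} {m : ℕ} {M : ℝ} (h : Bd c (m + 1) M) :
    Bd (D1 c) m (2 * Real.pi * M) := by
  have hpi := Real.pi_pos
  apply E1_comp h _ (by positivity)
  intro k
  unfold BBK.D1
  rw [norm_mul, E1_norm_two_pi, pow_succ]
  have h1 : |(k.1 : ℝ)| ≤ 1 + wt k := by
    unfold wt
    linarith [abs_nonneg (k.2 : ℝ)]
  calc 2 * Real.pi * |(k.1 : ℝ)| * ‖c k‖ * (1 + wt k) ^ m
      = (2 * Real.pi * (‖c k‖ * (1 + wt k) ^ m)) * |(k.1 : ℝ)| := by ring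
    _ ≤ (2 * Real.pi * (‖c k‖ * (1 + wt k) ^ m)) * (1 + wt k) :=
        mul_le_mul_of_nonneg_left h1 (mul_nonneg (by positivity) (E1_term_nonneg c m k))
    _ = 2 * Real.pi * (‖c k‖ * ((1 + wt k) ^ m * (1 + wt k))) := by ring

theorem Bd.D2 {c : Seq} {m : ℕ} {M : ℝ} (h : Bd c (m + 1) M) :
    Bd (D2 c) m (2 * Real.pi * M) := by
  have hpi := Real.pi_pos
  apply E1_comp h _ (by positivity)
  intro k
  unfold BBK.D2
  rw [norm_mul, E1_norm_two_pi, pow_succ]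
  have h1 : |(k.2 : ℝ)| ≤ 1 + wt k := by
    unfold wt
    linarith [abs_nonneg (k.1 : ℝ)]
  calc 2 * Real.pi * |(k.2 : ℝ)| * ‖c k‖ * (1 + wt k) ^ m
      = (2 * Real.pi * (‖c k‖ * (1 + wt k) ^ m)) * |(k.2 : ℝ)| := by ring
    _ ≤ (2 * Real.pi * (‖c k‖ * (1 + wt k) ^ m)) * (1 + wt k) :=
        mul_le_mul_of_nonneg_left h1 (mul_nonneg (by positivity) (E1_term_nonneg c m k))
    _ = 2 * Real.pi * (‖c k‖ * ((1 + wt k) ^ m * (1 + wt k))) := by ring

theorem Bd.trunc {c : Seq} {m : ℕ} {M : ℝ} (h : Bd c m M) (r : ℝ) : Bd (trunc r c) m M := by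
  have h1 : Bd (BBK.trunc r c) m (1 * M) := by
    apply E1_comp h _ zero_le_one
    intro k
    rw [one_mul]
    unfold BBK.trunc
    split_ifs with hk
    · exact le_refl _
    · rw [norm_zero, zero_mul]
      exact E1_term_nonneg c m k
  rwa [one_mul] at h1

theorem IsReal.D1 {c : Seq} (h : IsReal c) : IsReal (D1 c) := by
  intro k
  unfold BBK.D1
  have h2 : (starRingEnd ℂ) (2 : ℂ) = 2 := map_ofNat _ 2
  rw [h k, map_mul, map_mul, map_mul, map_mul, h2]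
  simp

theorem IsReal.D2 {c : Seq} (h : IsReal c) : IsReal (D2 c) := by
  intro k
  unfold BBK.D2
  have h2 : (starRingEnd ℂ) (2 : ℂ) = 2 := map_ofNat _ 2
  rw [h k, map_mul, map_mul, map_mul, map_mul, h2]
  simp

theorem E1_wt_neg (k : ℤ × ℤ) : wt (-k) = wt k := by
  unfold wt
  simp

theorem IsReal.trunc {c : Seq} (h : IsReal c) (r : ℝ) : IsReal (trunc r c) := by
  intro k
  unfold BBK.trunc
  rw [E1_wt_neg]
  split_ifs with hk
  · exact h k
  · simp

theorem E1_norm_ee (k : ℤ × ℤ) (x y : ℂ) :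
    ‖ee k x y‖ = Real.exp (-(2 * Real.pi * ((k.1 : ℝ) * x.im + (k.2 : ℝ) * y.im))) := by
  unfold ee
  rw [Complex.norm_exp]
  congr 1
  simp

theorem E1_norm_ee_real (k : ℤ × ℤ) (x y : ℝ) : ‖ee k (x : ℂ) (y : ℂ)‖ = 1 := by
  rw [E1_norm_ee]
  simp

theorem E1_norm_ee_le (k : ℤ × ℤ) {r : ℝ} (hk : wt k * r ≤ 1) {x y : ℂ}
    (hx : |x.im| ≤ 2 * r) (hy : |y.im| ≤ 2 * r) : ‖ee k x y‖ ≤ C0 := by
  have hpi := Real.pi_pos
  rw [E1_norm_ee]
  unfold C0
  apply Real.exp_le_exp.mpr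
  have h1 : -((k.1 : ℝ) * x.im) ≤ |(k.1 : ℝ)| * (2 * r) := by
    calc -((k.1 : ℝ) * x.im) ≤ |(k.1 : ℝ) * x.im| := neg_le_abs _
      _ = |(k.1 : ℝ)| * |x.im| := abs_mul _ _
      _ ≤ |(k.1 : ℝ)| * (2 * r) := mul_le_mul_of_nonneg_left hx (abs_nonneg _)
  have h2 : -((k.2 : ℝ) * y.im) ≤ |(k.2 : ℝ)| * (2 * r) := by
    calc -((k.2 : ℝ) * y.im) ≤ |(k.2 : ℝ) * y.im| := neg_le_abs _
      _ = |(k.2 : ℝ)| * |y.im| := abs_mul _ _
      _ ≤ |(k.2 : ℝ)| * (2 * r) := mul_le_mul_of_nonneg_left hy (abs_nonneg _)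
  have h3 : -((k.1 : ℝ) * x.im + (k.2 : ℝ) * y.im) ≤ 2 := by
    unfold wt at hk
    linarith
  calc -(2 * Real.pi * ((k.1 : ℝ) * x.im + (k.2 : ℝ) * y.im))
      = 2 * Real.pi * (-((k.1 : ℝ) * x.im + (k.2 : ℝ) * y.im)) := by ring
    _ ≤ 2 * Real.pi * 2 := mul_le_mul_of_nonneg_left h3 (by positivity)
    _ = 4 * Real.pi := by ring

theorem E1_C0_pos : 0 < C0 := Real.exp_pos _

theorem E1_one_le_C0 : 1 ≤ C0 := by
  unfold C0
  exact Real.one_le_exp (by have := Real.pi_pos; positivity)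

theorem E1_trunc_term {c : Seq} {r : ℝ} {x y : ℂ}
    (hx : |x.im| ≤ 2 * r) (hy : |y.im| ≤ 2 * r) (m : ℕ) (k : ℤ × ℤ) :
    ‖trunc r c k * ee k x y‖ ≤ C0 * (‖c k‖ * (1 + wt k) ^ m) := by
  have hC := E1_C0_pos
  have h0 := E1_term_nonneg c m k
  unfold BBK.trunc
  split_ifs with hk
  · rw [norm_mul, mul_comm]
    refine mul_le_mul (E1_norm_ee_le k hk hx hy) ?_ (norm_nonneg _) hC.le
    exact le_mul_of_one_le_right (norm_nonneg _) (E1_one_le k m)
  · rw [zero_mul, norm_zero]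
    positivity

theorem E1_trunc_summable {c : Seq} {m : ℕ} {M r : ℝ} (h : Bd c m M) {x y : ℂ}
    (hx : |x.im| ≤ 2 * r) (hy : |y.im| ≤ 2 * r) :
    Summable (fun k => trunc r c k * ee k x y) :=
  (E1_main h E1_C0_pos.le (fun k => E1_trunc_term hx hy m k)).1

/-- bound on the doubled strip -/
theorem ev_trunc_le {c : Seq} {M r : ℝ} (h : Bd c 0 M) (hr : 0 < r) {x y : ℂ}
    (hx : |x.im| ≤ 2 * r) (hy : |y.im| ≤ 2 * r) : ‖ev (trunc r c) x y‖ ≤ C0 * M :=
  (E1_main h E1_C0_pos.le (fun k => E1_trunc_term hx hy 0 k)).2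

theorem E1_real_term (c : Seq) (m : ℕ) (x y : ℝ) (k : ℤ × ℤ) :
    ‖c k * ee k (x : ℂ) (y : ℂ)‖ ≤ 1 * (‖c k‖ * (1 + wt k) ^ m) := by
  rw [norm_mul, E1_norm_ee_real, mul_one, one_mul]
  exact le_mul_of_one_le_right (norm_nonneg _) (E1_one_le k m)

theorem E1_real_summable {c : Seq} {m : ℕ} {M : ℝ} (h : Bd c m M) (x y : ℝ) :
    Summable (fun k => c k * ee k (x : ℂ) (y : ℂ)) :=
  (E1_main h zero_le_one (fun k => E1_real_term c m x y k)).1

/-- bound at real points -/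
theorem ev_le_real {c : Seq} {M : ℝ} (h : Bd c 0 M) (x y : ℝ) :
    ‖ev c (x : ℂ) (y : ℂ)‖ ≤ M := by
  have := (E1_main h zero_le_one (fun k => E1_real_term c 0 x y k)).2
  rwa [one_mul] at this

theorem E1_big {r : ℝ} (hr : 0 < r) (k : ℤ × ℤ) (hk : ¬ wt k * r ≤ 1) (m : ℕ) :
    1 ≤ r ^ m * (1 + wt k) ^ m := by
  rw [← mul_pow]
  apply one_le_pow₀
  push Not at hk
  nlinarith [wt_nonneg k]

/-- change of the truncation -/
theorem ev_trunc_trunc {c : Seq} {m : ℕ} {M r : ℝ} (h : Bd c m M) (hr : 0 < r) {x y : ℂ}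
    (hx : |x.im| ≤ 2 * (r / 8)) (hy : |y.im| ≤ 2 * (r / 8)) :
    ‖ev (trunc (r / 8) c) x y - ev (trunc r c) x y‖ ≤ C0 * M * r ^ m := by
  have hC := E1_C0_pos
  have hs1 := E1_trunc_summable h hx hy
  have hs2 := E1_trunc_summable (r := r) h (x := x) (y := y) (by linarith) (by linarith)
  unfold ev
  rw [← hs1.tsum_sub hs2]
  have key : ∀ k, ‖trunc (r / 8) c k * ee k x y - trunc r c k * ee k x y‖ ≤
      C0 * r ^ m * (‖c k‖ * (1 + wt k) ^ m) := by
    intro k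
    have h0 := E1_term_nonneg c m k
    have hw := wt_nonneg k
    by_cases hk : wt k * r ≤ 1
    · have hk8 : wt k * (r / 8) ≤ 1 := by nlinarith
      unfold BBK.trunc
      rw [if_pos hk, if_pos hk8, sub_self, norm_zero]
      positivity
    · by_cases hk8 : wt k * (r / 8) ≤ 1
      · unfold BBK.trunc
        rw [if_neg hk, if_pos hk8, zero_mul, sub_zero, norm_mul]
        calc ‖c k‖ * ‖ee k x y‖ ≤ ‖c k‖ * C0 :=
              mul_le_mul_of_nonneg_left (E1_norm_ee_le k hk8 hx hy) (norm_nonneg _)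
          _ = C0 * ‖c k‖ * 1 := by ring
          _ ≤ C0 * ‖c k‖ * (r ^ m * (1 + wt k) ^ m) :=
              mul_le_mul_of_nonneg_left (E1_big hr k hk m) (by positivity)
          _ = C0 * r ^ m * (‖c k‖ * (1 + wt k) ^ m) := by ring
      · unfold BBK.trunc
        rw [if_neg hk, if_neg hk8, sub_self, norm_zero]
        positivity
  have := (E1_main h (by positivity) key).2
  calc _ ≤ C0 * r ^ m * M := this
    _ = C0 * M * r ^ m := by ring

/-- truncation error at real points -/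
theorem ev_trunc_real {c : Seq} {m : ℕ} {M r : ℝ} (h : Bd c m M) (hr : 0 < r) (x y : ℝ) :
    ‖ev c (x : ℂ) (y : ℂ) - ev (trunc r c) (x : ℂ) (y : ℂ)‖ ≤ M * r ^ m := by
  have hs1 := E1_real_summable h x y
  have hs2 := E1_real_summable (h.trunc r) x y
  unfold ev
  rw [← hs1.tsum_sub hs2]
  have key : ∀ k, ‖c k * ee k (x : ℂ) (y : ℂ) - trunc r c k * ee k (x : ℂ) (y : ℂ)‖ ≤
      r ^ m * (‖c k‖ * (1 + wt k) ^ m) := by
    intro k
    have h0 := E1_term_nonneg c m k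
    by_cases hk : wt k * r ≤ 1
    · unfold BBK.trunc
      rw [if_pos hk, sub_self, norm_zero]
      positivity
    · unfold BBK.trunc
      rw [if_neg hk, zero_mul, sub_zero, norm_mul, E1_norm_ee_real]
      calc ‖c k‖ * 1 ≤ ‖c k‖ * (r ^ m * (1 + wt k) ^ m) :=
            mul_le_mul_of_nonneg_left (E1_big hr k hk m) (norm_nonneg _)
        _ = r ^ m * (‖c k‖ * (1 + wt k) ^ m) := by ring
  have := (E1_main h (by positivity) key).2
  rw [mul_comm M]
  exact this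

/-- Lipschitz bounds at real points -/
theorem ev_lip_real {c : Seq} {M : ℝ} (h : Bd c 1 M) (x y x' y' : ℝ) :
    ‖ev c (x : ℂ) (y : ℂ) - ev c (x' : ℂ) (y' : ℂ)‖ ≤
      2 * Real.pi * M * max |x - x'| |y - y'| := by
  have hpi := Real.pi_pos
  have hs1 := E1_real_summable h x y
  have hs2 := E1_real_summable h x' y'
  set m := max |x - x'| |y - y'| with hm
  have hm0 : 0 ≤ m := (abs_nonneg _).trans (le_max_left _ _)
  unfold ev
  rw [← hs1.tsum_sub hs2]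
  have key : ∀ k, ‖c k * ee k (x : ℂ) (y : ℂ) - c k * ee k (x' : ℂ) (y' : ℂ)‖ ≤
      (2 * Real.pi * m) * (‖c k‖ * (1 + wt k) ^ 1) := by
    intro k
    rw [← mul_sub, norm_mul, pow_one]
    have h1 : ee k (x : ℂ) (y : ℂ) - ee k (x' : ℂ) (y' : ℂ) =
        ee k (x' : ℂ) (y' : ℂ) * (Complex.exp (Complex.I * ((2 * Real.pi *
          ((k.1 : ℝ) * (x - x') + (k.2 : ℝ) * (y - y')) : ℝ) : ℂ)) - 1) := by
      unfold ee
      rw [mul_sub, mul_one, ← Complex.exp_add]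
      congr 2
      push_cast
      ring
    have h2 : ‖Complex.exp (Complex.I * ((2 * Real.pi *
          ((k.1 : ℝ) * (x - x') + (k.2 : ℝ) * (y - y')) : ℝ) : ℂ)) - 1‖ ≤
          2 * Real.pi * ((1 + wt k) * m) := by
      refine (Real.norm_exp_I_mul_ofReal_sub_one_le).trans ?_
      rw [Real.norm_eq_abs, abs_mul, abs_of_pos (by positivity : (0:ℝ) < 2 * Real.pi)]
      apply mul_le_mul_of_nonneg_left _ (by positivity)
      calc |(k.1 : ℝ) * (x - x') + (k.2 : ℝ) * (y - y')|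
          ≤ |(k.1 : ℝ) * (x - x')| + |(k.2 : ℝ) * (y - y')| := abs_add_le _ _
        _ = |(k.1 : ℝ)| * |x - x'| + |(k.2 : ℝ)| * |y - y'| := by rw [abs_mul, abs_mul]
        _ ≤ |(k.1 : ℝ)| * m + |(k.2 : ℝ)| * m :=
            add_le_add (mul_le_mul_of_nonneg_left (le_max_left _ _) (abs_nonneg _))
              (mul_le_mul_of_nonneg_left (le_max_right _ _) (abs_nonneg _))
        _ = wt k * m := by unfold wt; ring
        _ ≤ (1 + wt k) * m := by nlinarith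
    rw [h1, norm_mul, E1_norm_ee_real, one_mul]
    calc ‖c k‖ * _ ≤ ‖c k‖ * (2 * Real.pi * ((1 + wt k) * m)) :=
          mul_le_mul_of_nonneg_left h2 (norm_nonneg _)
      _ = 2 * Real.pi * m * (‖c k‖ * (1 + wt k)) := by ring
  have := (E1_main h (by positivity) key).2
  calc _ ≤ 2 * Real.pi * m * M := this
    _ = 2 * Real.pi * M * m := by ring

/-- Taylor expansion of order two -/
theorem ev_trunc_taylor {c : Seq} {M r D : ℝ} (h : Bd c 2 M) (hr : 0 < r) {x y d1 d2 : ℂ}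
    (hx : |x.im| ≤ 2 * r) (hy : |y.im| ≤ 2 * r) (hd1 : ‖d1‖ ≤ D) (hd2 : ‖d2‖ ≤ D)
    (hD : D ≤ r / 7) :
    ‖ev (trunc r c) (x + d1) (y + d2) - ev (trunc r c) x y
      - ev (trunc r (D1 c)) x y * d1 - ev (trunc r (D2 c)) x y * d2‖ ≤ 40 * C0 * M * D ^ 2 := by
  have hpi := Real.pi_pos
  have hpi2 : Real.pi < 3.15 := Real.pi_lt_d2
  have hC := E1_C0_pos
  have hD0 : 0 ≤ D := (norm_nonneg _).trans hd1
  have hs0 := E1_trunc_summable h hx hy
  have hs1 := (E1_trunc_summable (h.D1) hx hy).mul_right d1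
  have hs2 := (E1_trunc_summable (h.D2) hx hy).mul_right d2
  have ht : ∀ k, trunc r c k * ee k (x + d1) (y + d2) - trunc r c k * ee k x y
      - trunc r (D1 c) k * ee k x y * d1 - trunc r (D2 c) k * ee k x y * d2 =
      trunc r c k * ee k x y * (Complex.exp (2 * (Real.pi : ℂ) * Complex.I *
        ((k.1 : ℂ) * d1 + (k.2 : ℂ) * d2)) - 1 - 2 * (Real.pi : ℂ) * Complex.I *
        ((k.1 : ℂ) * d1 + (k.2 : ℂ) * d2)) := by
    intro k
    have h1 : ee k (x + d1) (y + d2) = ee k x y * Complex.exp (2 * (Real.pi : ℂ) * Complex.I *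
        ((k.1 : ℂ) * d1 + (k.2 : ℂ) * d2)) := by
      unfold ee
      rw [← Complex.exp_add]
      congr 1
      ring
    rw [h1]
    unfold BBK.trunc BBK.D1 BBK.D2
    split_ifs with hk
    · ring
    · ring
  have key : ∀ k, ‖trunc r c k * ee k (x + d1) (y + d2) - trunc r c k * ee k x y
      - trunc r (D1 c) k * ee k x y * d1 - trunc r (D2 c) k * ee k x y * d2‖ ≤
      (40 * C0 * D ^ 2) * (‖c k‖ * (1 + wt k) ^ 2) := by
    intro k
    rw [ht k]
    have h0 := E1_term_nonneg c 2 k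
    have hw := wt_nonneg k
    by_cases hk : wt k * r ≤ 1
    · set X : ℂ := 2 * (Real.pi : ℂ) * Complex.I * ((k.1 : ℂ) * d1 + (k.2 : ℂ) * d2) with hX
      have hXn : ‖X‖ ≤ 2 * Real.pi * (wt k * D) := by
        rw [hX, norm_mul, norm_mul, norm_mul, Complex.norm_I, Complex.norm_real,
          Real.norm_eq_abs, abs_of_pos hpi, mul_one]
        have h2 : ‖(2:ℂ)‖ = 2 := by simp
        rw [h2]
        apply mul_le_mul_of_nonneg_left _ (by positivity)
        calc ‖(k.1 : ℂ) * d1 + (k.2 : ℂ) * d2‖ ≤ ‖(k.1 : ℂ) * d1‖ + ‖(k.2 : ℂ) * d2‖ :=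
              norm_add_le _ _
          _ = |(k.1 : ℝ)| * ‖d1‖ + |(k.2 : ℝ)| * ‖d2‖ := by
              rw [norm_mul, norm_mul, Complex.norm_intCast, Complex.norm_intCast]
          _ ≤ |(k.1 : ℝ)| * D + |(k.2 : ℝ)| * D :=
              add_le_add (mul_le_mul_of_nonneg_left hd1 (abs_nonneg _))
                (mul_le_mul_of_nonneg_left hd2 (abs_nonneg _))
          _ = wt k * D := by unfold wt; ring
      have hwD : wt k * D ≤ 1 / 7 := by
        calc wt k * D ≤ wt k * (r / 7) := mul_le_mul_of_nonneg_left hD hw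
          _ = (wt k * r) / 7 := by ring
          _ ≤ 1 / 7 := by linarith
      have hwD0 : 0 ≤ wt k * D := mul_nonneg hw hD0
      have hX1 : ‖X‖ ≤ 1 := by
        refine hXn.trans ?_
        nlinarith
      have h3 := Complex.norm_exp_sub_one_sub_id_le hX1
      have h4 : ‖X‖ ^ 2 ≤ 40 * ((1 + wt k) ^ 2 * D ^ 2) := by
        calc ‖X‖ ^ 2 ≤ (2 * Real.pi * (wt k * D)) ^ 2 :=
              pow_le_pow_left₀ (norm_nonneg _) hXn 2
          _ = (4 * Real.pi ^ 2) * (wt k ^ 2 * D ^ 2) := by ring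
          _ ≤ 40 * ((1 + wt k) ^ 2 * D ^ 2) := by
              apply mul_le_mul
              · nlinarith
              · apply mul_le_mul_of_nonneg_right _ (sq_nonneg _)
                nlinarith
              · positivity
              · norm_num
      have h5 : ‖trunc r c k * ee k x y‖ ≤ C0 * ‖c k‖ := by
        have := E1_trunc_term (c := c) hx hy 0 k
        rwa [pow_zero, mul_one] at this
      rw [norm_mul]
      calc ‖trunc r c k * ee k x y‖ * ‖Complex.exp X - 1 - X‖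
          ≤ (C0 * ‖c k‖) * (40 * ((1 + wt k) ^ 2 * D ^ 2)) :=
            mul_le_mul h5 (h3.trans h4) (norm_nonneg _) (by positivity)
        _ = (40 * C0 * D ^ 2) * (‖c k‖ * (1 + wt k) ^ 2) := by ring
    · unfold BBK.trunc
      rw [if_neg hk, zero_mul, zero_mul, norm_zero]
      positivity
  have hmain := E1_main h (by positivity) key
  have hs3 : Summable (fun k => trunc r c k * ee k (x + d1) (y + d2)) := by
    have := ((hmain.1.add hs2).add hs1).add hs0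
    refine this.congr ?_
    intro k
    ring
  have heq : ev (trunc r c) (x + d1) (y + d2) - ev (trunc r c) x y
      - ev (trunc r (D1 c)) x y * d1 - ev (trunc r (D2 c)) x y * d2 =
      ∑' k, (trunc r c k * ee k (x + d1) (y + d2) - trunc r c k * ee k x y
      - trunc r (D1 c) k * ee k x y * d1 - trunc r (D2 c) k * ee k x y * d2) := by
    rw [((hs3.sub hs0).sub hs1).tsum_sub hs2, (hs3.sub hs0).tsum_sub hs1, hs3.tsum_sub hs0,
      tsum_mul_right, tsum_mul_right]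
    rfl
  rw [heq]
  calc _ ≤ 40 * C0 * D ^ 2 * M := hmain.2
    _ = 40 * C0 * M * D ^ 2 := by ring

end BBK
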