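import Pool.Agent.Lib_helper16.BBK.Defs

open Set

namespace BBK

theorem S_isOpen (r : ℝ) : IsOpen (S r) := by
  unfold S
  exact isOpen_lt (Complex.continuous_im.abs) continuous_const
theorem S_convex (r : ℝ) : Convex ℝ (S r) := by
  intro x hx y hy a b ha hb hab
  simp only [S, mem_setOf_eq] at *
  have e : (a • x + b • y).im = a * x.im + b * y.im := by simp
  rw [e]
  calc |a * x.im + b * y.im| ≤ |a * x.im| + |b * y.im| := abs_add_le _ _
    _ = a * |x.im| + b * |y.im| := by rw [abs_mul, abs_mul, abs_of_nonneg ha, abs_of_nonneg hb]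
    _ < r := by
      rcases ha.eq_or_lt with h | h
      · subst h
        have : b = 1 := by linarith
        subst this
        simpa using hy
      · have h1 : a * |x.im| < a * r := by nlinarith
        have h2 : b * |y.im| ≤ b * r := by nlinarith
        have : a * r + b * r = r := by rw [← add_mul, hab, one_mul]
        linarith
theorem S_mono {s r : ℝ} (h : s ≤ r) : S s ⊆ S r := fun z hz => lt_of_lt_of_le hz h
theorem pos_of_mem_S {r : ℝ} {z : ℂ} (hz : z ∈ S r) : 0 < r := lt_of_le_of_lt (abs_nonneg _) hz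
theorem real_mem_S {r : ℝ} (hr : 0 < r) (x : ℝ) : (x : ℂ) ∈ S r := by
  simpa [S] using hr
theorem add_real_mem_S {r : ℝ} {z : ℂ} (hz : z ∈ S r) (a : ℝ) : z + (a : ℂ) ∈ S r := by
  simpa [S] using hz
theorem add_one_mem_S {r : ℝ} {z : ℂ} (hz : z ∈ S r) : z + 1 ∈ S r := by
  simpa [S] using hz
theorem conj_mem_S {r : ℝ} {z : ℂ} (hz : z ∈ S r) : (starRingEnd ℂ) z ∈ S r := by
  simpa [S] using hz

theorem P.mono {s r : ℝ} {f : ℂ → ℂ} (hf : P r f) (h : s ≤ r) : P s f :=
  ⟨hf.diff.mono (S_mono h), fun z hz => hf.per z (S_mono h hz), fun z hz => hf.conj z (S_mono h hz)⟩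
theorem P.congr {r : ℝ} {f g : ℂ → ℂ} (hf : P r f) (h : ∀ z ∈ S r, g z = f z) : P r g :=
  ⟨hf.diff.congr h, fun z hz => by rw [h _ (add_one_mem_S hz), h _ hz, hf.per z hz],
    fun z hz => by rw [h _ (conj_mem_S hz), h _ hz, hf.conj z hz]⟩
theorem P.const (r a : ℝ) : P r (fun _ => (a : ℂ)) :=
  ⟨differentiableOn_const _, fun _ _ => rfl, fun _ _ => (Complex.conj_ofReal a).symm⟩
theorem P.add {r : ℝ} {f g : ℂ → ℂ} (hf : P r f) (hg : P r g) : P r (fun z => f z + g z) :=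
  ⟨hf.diff.fun_add hg.diff, fun z hz => by simp only [hf.per z hz, hg.per z hz],
    fun z hz => by simp only [hf.conj z hz, hg.conj z hz, map_add]⟩
theorem P.sub {r : ℝ} {f g : ℂ → ℂ} (hf : P r f) (hg : P r g) : P r (fun z => f z - g z) :=
  ⟨hf.diff.fun_sub hg.diff, fun z hz => by simp only [hf.per z hz, hg.per z hz],
    fun z hz => by simp only [hf.conj z hz, hg.conj z hz, map_sub]⟩
theorem P.neg {r : ℝ} {f : ℂ → ℂ} (hf : P r f) : P r (fun z => - f z) :=
  ⟨hf.diff.fun_neg, fun z hz => by simp only [hf.per z hz],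
    fun z hz => by simp only [hf.conj z hz, map_neg]⟩
theorem P.mul {r : ℝ} {f g : ℂ → ℂ} (hf : P r f) (hg : P r g) : P r (fun z => f z * g z) :=
  ⟨hf.diff.fun_mul hg.diff, fun z hz => by simp only [hf.per z hz, hg.per z hz],
    fun z hz => by simp only [hf.conj z hz, hg.conj z hz, map_mul]⟩
theorem P.div {r : ℝ} {f g : ℂ → ℂ} (hf : P r f) (hg : P r g) (h0 : ∀ z ∈ S r, g z ≠ 0) :
    P r (fun z => f z / g z) :=
  ⟨hf.diff.fun_div hg.diff h0, fun z hz => by simp only [hf.per z hz, hg.per z hz],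
    fun z hz => by simp only [hf.conj z hz, hg.conj z hz, map_div₀]⟩
theorem P.rot {r : ℝ} {f : ℂ → ℂ} (hf : P r f) (al : ℝ) : P r (fun z => f (z + (al : ℂ))) := by
  refine ⟨?_, ?_, ?_⟩
  · exact hf.diff.comp (differentiableOn_id.add_const _) (fun z hz => add_real_mem_S hz al)
  · intro z hz
    have := hf.per (z + (al : ℂ)) (add_real_mem_S hz al)
    rw [← this]; congr 1; ring
  · intro z hz
    have := hf.conj (z + (al : ℂ)) (add_real_mem_S hz al)
    rw [← this]; congr 1; simp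
theorem P.hasDerivAt {r : ℝ} {f : ℂ → ℂ} (hf : P r f) {z : ℂ} (hz : z ∈ S r) :
    HasDerivAt f (_root_.deriv f z) z :=
  (hf.diff.differentiableAt ((S_isOpen r).mem_nhds hz)).hasDerivAt
/-- derivative of the rotated function -/
theorem deriv_rot (f : ℂ → ℂ) (al : ℝ) (z : ℂ) :
    _root_.deriv (fun w => f (w + (al : ℂ))) z = _root_.deriv f (z + (al : ℂ)) :=
  deriv_comp_add_const f (al : ℂ) z
theorem P.deriv {r : ℝ} {f : ℂ → ℂ} (hf : P r f) : P r (deriv f) := by
  refine ⟨hf.diff.deriv (S_isOpen r), ?_, ?_⟩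
  · intro z hz
    have h1 : (fun w => f (w + 1)) =ᶠ[nhds z] f := by
      filter_upwards [(S_isOpen r).mem_nhds hz] with w hw using hf.per w hw
    rw [← h1.deriv_eq, deriv_comp_add_const f 1 z]
  · intro z hz
    have h2 := hf.hasDerivAt hz
    have h3 : HasDerivAt (fun w => (starRingEnd ℂ) (f ((starRingEnd ℂ) w)))
        ((starRingEnd ℂ) (_root_.deriv f z)) ((starRingEnd ℂ) z) := h2.conj_conj
    have h4 : (fun w => (starRingEnd ℂ) (f ((starRingEnd ℂ) w))) =ᶠ[nhds ((starRingEnd ℂ) z)] f := by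
      filter_upwards [(S_isOpen r).mem_nhds (conj_mem_S hz)] with w hw
      have := hf.conj w hw
      rw [this, Complex.conj_conj]
    rw [← h4.deriv_eq, h3.deriv]
theorem P.im_real {r : ℝ} {f : ℂ → ℂ} (hf : P r f) (hr : 0 < r) (x : ℝ) : (f (x : ℂ)).im = 0 := by
  have := hf.conj (x : ℂ) (real_mem_S hr x)
  rw [Complex.conj_ofReal] at this
  exact Complex.conj_eq_iff_im.1 this.symm
theorem P.coe_re {r : ℝ} {f : ℂ → ℂ} (hf : P r f) (hr : 0 < r) (x : ℝ) :
    (((f (x : ℂ)).re : ℝ) : ℂ) = f (x : ℂ) := by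
  apply Complex.ext
  · simp
  · simp [hf.im_real hr x]

theorem B.mono {s r M N : ℝ} {f : ℂ → ℂ} (h : B r f M) (hs : s ≤ r) (hM : M ≤ N) : B s f N :=
  fun z hz => (h z (S_mono hs hz)).trans hM
theorem B.add {r M N : ℝ} {f g : ℂ → ℂ} (hf : B r f M) (hg : B r g N) : B r (fun z => f z + g z) (M + N) :=
  fun z hz => (norm_add_le _ _).trans (add_le_add (hf z hz) (hg z hz))
theorem B.sub {r M N : ℝ} {f g : ℂ → ℂ} (hf : B r f M) (hg : B r g N) : B r (fun z => f z - g z) (M + N) :=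
  fun z hz => (norm_sub_le _ _).trans (add_le_add (hf z hz) (hg z hz))
theorem B.mul {r M N : ℝ} {f g : ℂ → ℂ} (hf : B r f M) (hg : B r g N) (hM : 0 ≤ M) :
    B r (fun z => f z * g z) (M * N) :=
  fun z hz => by
    rw [norm_mul]
    exact mul_le_mul (hf z hz) (hg z hz) (norm_nonneg _) hM
theorem B.rot {r M : ℝ} {f : ℂ → ℂ} (hf : B r f M) (al : ℝ) : B r (fun z => f (z + (al : ℂ))) M :=
  fun _ hz => hf _ (add_real_mem_S hz al)
theorem B.nonneg {r M : ℝ} {f : ℂ → ℂ} (hf : B r f M) (hr : 0 < r) : 0 ≤ M :=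
  (norm_nonneg _).trans (hf ((0 : ℝ) : ℂ) (real_mem_S hr 0))

end BBK
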