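import Pool.Agent.Lib_helper16.BBK.Defs
import Pool.Agent.Lib_helper16.BBK.PA
import Pool.Agent.Lib_helper16.BBK.E1

open Set

namespace BBK

theorem E2_ee_add_one (k : ℤ × ℤ) (x y : ℂ) : ee k (x + 1) y = ee k x y := by
  unfold ee
  have h1 : 2 * (Real.pi : ℂ) * Complex.I * ((k.1 : ℂ) * (x + 1) + (k.2 : ℂ) * y) =
      2 * (Real.pi : ℂ) * Complex.I * ((k.1 : ℂ) * x + (k.2 : ℂ) * y) +
        (k.1 : ℂ) * (2 * (Real.pi : ℂ) * Complex.I) := by ring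
  rw [h1, Complex.exp_add, Complex.exp_int_mul_two_pi_mul_I, mul_one]

theorem ev_add_one_left (c : Seq) (x y : ℂ) : ev c (x + 1) y = ev c x y := by
  unfold ev
  exact tsum_congr fun k => by rw [E2_ee_add_one]

theorem E2_ee_conj (k : ℤ × ℤ) (x y : ℂ) :
    (starRingEnd ℂ) (ee k x y) = ee (-k) ((starRingEnd ℂ) x) ((starRingEnd ℂ) y) := by
  unfold ee
  rw [← Complex.exp_conj]
  congr 1
  simp only [map_mul, map_add, Complex.conj_I, Complex.conj_ofReal, Prod.fst_neg, Prod.snd_neg,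
    Int.cast_neg]
  have h1 : (starRingEnd ℂ) ((k.1 : ℤ) : ℂ) = (k.1 : ℂ) := by
    rw [← Complex.ofReal_intCast, Complex.conj_ofReal]
  have h2 : (starRingEnd ℂ) ((k.2 : ℤ) : ℂ) = (k.2 : ℂ) := by
    rw [← Complex.ofReal_intCast, Complex.conj_ofReal]
  have h3 : (starRingEnd ℂ) (2 : ℂ) = 2 := by
    rw [show (2 : ℂ) = ((2 : ℝ) : ℂ) by norm_num, Complex.conj_ofReal]
  rw [h1, h2, h3]
  ring

theorem ev_conj {c : Seq} (hc : IsReal c) (x y : ℂ) :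
    ev c ((starRingEnd ℂ) x) ((starRingEnd ℂ) y) = (starRingEnd ℂ) (ev c x y) := by
  unfold ev
  rw [Complex.conj_tsum]
  rw [← Equiv.tsum_eq (Equiv.neg (ℤ × ℤ))]
  refine tsum_congr fun k => ?_
  rw [map_mul, E2_ee_conj, ← hc k]
  rfl

/-- the frequencies in the support of a truncated sequence -/
noncomputable def E2_fin (r : ℝ) : Finset (ℤ × ℤ) :=
  Finset.Icc (-(⌈1 / r⌉₊ : ℤ)) (⌈1 / r⌉₊ : ℤ) ×ˢ Finset.Icc (-(⌈1 / r⌉₊ : ℤ)) (⌈1 / r⌉₊ : ℤ)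

theorem E2_notMem {r : ℝ} (hr : 0 < r) (c : Seq) {k : ℤ × ℤ} (hk : k ∉ E2_fin r) :
    trunc r c k = 0 := by
  unfold trunc
  rw [if_neg]
  intro h
  apply hk
  have h1 : wt k ≤ 1 / r := by rw [le_div_iff₀ hr]; exact h
  have h2 : (1 / r : ℝ) ≤ (⌈1 / r⌉₊ : ℝ) := Nat.le_ceil _
  have h3 : |(k.1 : ℝ)| ≤ (⌈1 / r⌉₊ : ℝ) := by
    unfold wt at h1
    linarith [abs_nonneg (k.2 : ℝ)]
  have h4 : |(k.2 : ℝ)| ≤ (⌈1 / r⌉₊ : ℝ) := by
    unfold wt at h1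
    linarith [abs_nonneg (k.1 : ℝ)]
  unfold E2_fin
  rw [Finset.mem_product, Finset.mem_Icc, Finset.mem_Icc]
  rw [abs_le] at h3 h4
  refine ⟨⟨?_, ?_⟩, ⟨?_, ?_⟩⟩
  · exact_mod_cast h3.1
  · exact_mod_cast h3.2
  · exact_mod_cast h4.1
  · exact_mod_cast h4.2

theorem E2_sum {r : ℝ} (hr : 0 < r) (c : Seq) (x y : ℂ) :
    ev (trunc r c) x y = ∑ k ∈ E2_fin r, trunc r c k * ee k x y := by
  unfold ev
  exact tsum_eq_sum fun k hk => by rw [E2_notMem hr c hk, zero_mul]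

theorem E2_ee_deriv (k : ℤ × ℤ) {X Y : ℂ → ℂ} {X' Y' z : ℂ}
    (hX : HasDerivAt X X' z) (hY : HasDerivAt Y Y' z) :
    HasDerivAt (fun w => ee k (X w) (Y w)) (ee k (X z) (Y z) *
      (2 * (Real.pi : ℂ) * Complex.I * ((k.1 : ℂ) * X' + (k.2 : ℂ) * Y'))) z := by
  unfold ee
  exact (((hX.const_mul (k.1 : ℂ)).add (hY.const_mul (k.2 : ℂ))).const_mul
    (2 * (Real.pi : ℂ) * Complex.I)).cexp

theorem E2_trunc_D1 (r : ℝ) (c : Seq) (k : ℤ × ℤ) :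
    trunc r (D1 c) k = 2 * (Real.pi : ℂ) * Complex.I * (k.1 : ℂ) * trunc r c k := by
  unfold trunc D1
  split_ifs
  · rfl
  · rw [mul_zero]

theorem E2_trunc_D2 (r : ℝ) (c : Seq) (k : ℤ × ℤ) :
    trunc r (D2 c) k = 2 * (Real.pi : ℂ) * Complex.I * (k.2 : ℂ) * trunc r c k := by
  unfold trunc D2
  split_ifs
  · rfl
  · rw [mul_zero]

/-- chain rule for truncated functions -/
theorem ev_hasDerivAt {r : ℝ} (hr : 0 < r) (c : Seq) {X Y : ℂ → ℂ} {X' Y' z : ℂ}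
    (hX : HasDerivAt X X' z) (hY : HasDerivAt Y Y' z) :
    HasDerivAt (fun w => ev (trunc r c) (X w) (Y w))
      (ev (trunc r (D1 c)) (X z) (Y z) * X' + ev (trunc r (D2 c)) (X z) (Y z) * Y') z := by
  have h1 : (fun w => ev (trunc r c) (X w) (Y w)) =
      fun w => ∑ k ∈ E2_fin r, trunc r c k * ee k (X w) (Y w) := by
    funext w
    exact E2_sum hr c _ _
  rw [h1, E2_sum hr, E2_sum hr, Finset.sum_mul, Finset.sum_mul, ← Finset.sum_add_distrib]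
  have h2 : HasDerivAt (fun w => ∑ k ∈ E2_fin r, trunc r c k * ee k (X w) (Y w))
      (∑ k ∈ E2_fin r, trunc r c k * (ee k (X z) (Y z) *
        (2 * (Real.pi : ℂ) * Complex.I * ((k.1 : ℂ) * X' + (k.2 : ℂ) * Y')))) z :=
    HasDerivAt.fun_sum fun k _ => (E2_ee_deriv k hX hY).const_mul (trunc r c k)
  refine h2.congr_deriv ?_
  refine Finset.sum_congr rfl fun k _ => ?_
  rw [E2_trunc_D1, E2_trunc_D2]
  ring

/-- composition with a curve -/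
theorem ev_comp_P {r s : ℝ} (hr : 0 < r) {c : Seq} (hc : IsReal c) {u v : ℂ → ℂ} (hu : P s u) (hv : P s v) :
    P s (fun z => ev (trunc r c) (z + u z) (v z)) := by
  refine ⟨?_, ?_, ?_⟩
  · intro z hz
    have h1 := hu.hasDerivAt hz
    have h2 := hv.hasDerivAt hz
    have h3 := ev_hasDerivAt hr c ((hasDerivAt_id z).add h1) h2
    exact h3.differentiableAt.differentiableWithinAt
  · intro z hz
    have h1 := hu.per z hz
    have h2 := hv.per z hz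
    show ev (trunc r c) (z + 1 + u (z + 1)) (v (z + 1)) = ev (trunc r c) (z + u z) (v z)
    rw [h1, h2]
    have h3 : z + 1 + u z = z + u z + 1 := by ring
    rw [h3, ev_add_one_left]
  · intro z hz
    have h1 := hu.conj z hz
    have h2 := hv.conj z hz
    show ev (trunc r c) ((starRingEnd ℂ) z + u ((starRingEnd ℂ) z)) (v ((starRingEnd ℂ) z)) =
      (starRingEnd ℂ) (ev (trunc r c) (z + u z) (v z))
    rw [h1, h2, ← map_add, ev_conj (hc.trunc r)]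

/-- dependence on the second variable only -/
theorem ev_supp {c : Seq} (hc : ∀ k : ℤ × ℤ, k.1 ≠ 0 → c k = 0) (x x' y : ℂ) : ev c x y = ev c x' y := by
  unfold ev
  refine tsum_congr fun k => ?_
  by_cases hk : k.1 = 0
  · unfold ee
    rw [hk]; simp
  · rw [hc k hk, zero_mul, zero_mul]

theorem E2_norm_ee (k : ℤ × ℤ) (x y : ℝ) : ‖ee k (x : ℂ) (y : ℂ)‖ = 1 := by
  unfold ee
  have h1 : 2 * (Real.pi : ℂ) * Complex.I * ((k.1 : ℂ) * (x : ℂ) + (k.2 : ℂ) * (y : ℂ)) =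
      ((2 * Real.pi * ((k.1 : ℝ) * x + (k.2 : ℝ) * y) : ℝ) : ℂ) * Complex.I := by
    push_cast; ring
  rw [h1, Complex.norm_exp_ofReal_mul_I]

theorem E2_summable0 {c : Seq} {M : ℝ} (h : Bd c 1 M) (x y : ℝ) :
    Summable (fun k => c k * ee k (x : ℂ) (y : ℂ)) := by
  refine Summable.of_norm_bounded (g := fun k => ‖c k‖ * (1 + wt k) ^ 1) h.1 fun k => ?_
  rw [norm_mul, E2_norm_ee, mul_one, pow_one]
  have h1 := norm_nonneg (c k)
  have h2 := wt_nonneg k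
  nlinarith

theorem E2_fac (w : ℂ) (j : ℤ) (c : ℂ) (n : ℝ) (hw : ‖w‖ = 1) (hj : |(j : ℝ)| ≤ n) :
    ‖2 * (Real.pi : ℂ) * Complex.I * (j : ℂ) * c * w‖ ≤ 2 * Real.pi * (‖c‖ * (1 + n) ^ 1) := by
  rw [norm_mul, hw, mul_one, norm_mul, norm_mul, norm_mul, norm_mul, Complex.norm_I, mul_one,
    Complex.norm_real, Complex.norm_intCast, pow_one, Real.norm_eq_abs, abs_of_pos Real.pi_pos]
  have h2 : ‖(2 : ℂ)‖ = 2 := by simp
  rw [h2]
  have h3 := norm_nonneg c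
  have h4 := Real.pi_pos
  have h5 : |(j : ℝ)| * ‖c‖ ≤ (1 + n) * ‖c‖ :=
    mul_le_mul_of_nonneg_right (by linarith) h3
  nlinarith

theorem E2_abs1 (k : ℤ × ℤ) : |(k.1 : ℝ)| ≤ wt k := by
  unfold wt; linarith [abs_nonneg (k.2 : ℝ)]

theorem E2_abs2 (k : ℤ × ℤ) : |(k.2 : ℝ)| ≤ wt k := by
  unfold wt; linarith [abs_nonneg (k.1 : ℝ)]

theorem E2_ofReal (a : ℝ) : HasDerivAt (fun t : ℝ => (t : ℂ)) 1 a :=
  Complex.ofRealCLM.hasDerivAt

/-- derivatives at real points, full sequence -/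
theorem ev_real_hasDerivAt_left {c : Seq} {M : ℝ} (h : Bd c 1 M) (x y : ℝ) :
    HasDerivAt (fun t : ℝ => ev c (t : ℂ) (y : ℂ)) (ev (D1 c) (x : ℂ) (y : ℂ)) x := by
  unfold ev
  refine hasDerivAt_tsum (u := fun k => 2 * Real.pi * (‖c k‖ * (1 + wt k) ^ 1))
    (g := fun k (t : ℝ) => c k * ee k (t : ℂ) (y : ℂ))
    (g' := fun k (t : ℝ) => D1 c k * ee k (t : ℂ) (y : ℂ)) (h.1.mul_left _) ?_ ?_
    (E2_summable0 h x y) x
  · intro k t
    have h1 : HasDerivAt (fun w : ℂ => ee k w (y : ℂ)) (ee k (t : ℂ) (y : ℂ) *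
      (2 * (Real.pi : ℂ) * Complex.I * ((k.1 : ℂ) * 1 + (k.2 : ℂ) * 0))) (t : ℂ) :=
      E2_ee_deriv k (hasDerivAt_id _) (hasDerivAt_const _ _)
    have h2 := (h1.comp_ofReal).const_mul (c k)
    exact h2.congr_deriv (by unfold D1; ring)
  · intro k t
    exact E2_fac _ k.1 (c k) (wt k) (E2_norm_ee k t y) (E2_abs1 k)

theorem ev_real_hasDerivAt_right {c : Seq} {M : ℝ} (h : Bd c 1 M) (x y : ℝ) :
    HasDerivAt (fun t : ℝ => ev c (x : ℂ) (t : ℂ)) (ev (D2 c) (x : ℂ) (y : ℂ)) y := by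
  unfold ev
  refine hasDerivAt_tsum (u := fun k => 2 * Real.pi * (‖c k‖ * (1 + wt k) ^ 1))
    (g := fun k (t : ℝ) => c k * ee k (x : ℂ) (t : ℂ))
    (g' := fun k (t : ℝ) => D2 c k * ee k (x : ℂ) (t : ℂ)) (h.1.mul_left _) ?_ ?_
    (E2_summable0 h x y) y
  · intro k t
    have h1 : HasDerivAt (fun w : ℂ => ee k (x : ℂ) w) (ee k (x : ℂ) (t : ℂ) *
      (2 * (Real.pi : ℂ) * Complex.I * ((k.1 : ℂ) * 0 + (k.2 : ℂ) * 1))) (t : ℂ) :=
      E2_ee_deriv k (hasDerivAt_const _ _) (hasDerivAt_id _)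
    have h2 := (h1.comp_ofReal).const_mul (c k)
    exact h2.congr_deriv (by unfold D2; ring)
  · intro k t
    exact E2_fac _ k.2 (c k) (wt k) (E2_norm_ee k x t) (E2_abs2 k)

end BBK
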