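import Mathlib

open Set
open scoped ContDiff

namespace BBK

/-- the exponential and its primitive -/
theorem F1_hasDeriv (c : ℂ) (hc : c ≠ 0) (x : ℝ) :
    HasDerivAt (fun x : ℝ => Complex.exp (-(c * (x : ℂ))) / (-c)) (Complex.exp (-(c * (x : ℂ)))) x := by
  have h1 : HasDerivAt (fun x : ℝ => -(c * (x : ℂ))) (-(c * 1)) x :=
    ((Complex.ofRealCLM.hasDerivAt (x := x)).const_mul c).neg
  have h2 := (h1.cexp).div_const (-c)
  have h3 : Complex.exp (-(c * (x : ℂ))) * (-(c * 1)) / (-c) = Complex.exp (-(c * (x : ℂ))) := by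
    field_simp
  rw [h3] at h2
  exact h2

theorem F1_per (k : ℤ) (a : ℝ) :
    Complex.exp (-(2 * (Real.pi : ℂ) * Complex.I * (k : ℂ) * ((a + 1 : ℝ) : ℂ))) =
      Complex.exp (-(2 * (Real.pi : ℂ) * Complex.I * (k : ℂ) * (a : ℂ))) := by
  rw [Complex.exp_eq_exp_iff_exists_int]
  refine ⟨-k, ?_⟩
  push_cast
  ring

theorem F1_norm (k : ℤ) (x : ℝ) :
    ‖Complex.exp (-(2 * (Real.pi : ℂ) * Complex.I * (k : ℂ) * (x : ℂ)))‖ = 1 := by
  rw [Complex.norm_exp]
  have : (-(2 * (Real.pi : ℂ) * Complex.I * (k : ℂ) * (x : ℂ))).re = 0 := by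
    simp
  rw [this, Real.exp_zero]

/-- decay of Fourier coefficients of a smooth function by repeated integration by parts -/
theorem coeff_decay (h : ℝ → ℂ) (a : ℝ) (n : ℕ) (M : ℝ) (hh : ContDiff ℝ ∞ h)
    (hper : ∀ j : ℕ, iteratedDeriv j h (a + 1) = iteratedDeriv j h a)
    (hb : ∀ x ∈ Icc a (a + 1), ‖iteratedDeriv n h x‖ ≤ M) (k : ℤ) (hk : k ≠ 0) :
    ‖∫ x in a..(a + 1), h x * Complex.exp (-(2 * (Real.pi : ℂ) * Complex.I * (k : ℂ) * (x : ℂ)))‖
      ≤ M / (2 * Real.pi * |(k : ℝ)|) ^ n := by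
  induction n generalizing h with
  | zero =>
    rw [pow_zero, div_one]
    have h1 := intervalIntegral.norm_integral_le_of_norm_le_const (a := a) (b := a + 1) (C := M)
      (f := fun x : ℝ => h x * Complex.exp (-(2 * (Real.pi : ℂ) * Complex.I * (k : ℂ) * (x : ℂ))))
      (by
        intro x hx
        rw [uIoc_of_le (by linarith)] at hx
        rw [norm_mul, F1_norm, mul_one]
        have := hb x ⟨hx.1.le, hx.2⟩
        rwa [iteratedDeriv_zero] at this)
    refine h1.trans (le_of_eq ?_)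
    rw [show a + 1 - a = (1 : ℝ) by ring, abs_one, mul_one]
  | succ n ih =>
    have hpi := Real.pi_pos
    have hkR : (0 : ℝ) < |(k : ℝ)| := abs_pos.2 (by exact_mod_cast hk)
    obtain ⟨c, hc⟩ : ∃ c : ℂ, c = 2 * (Real.pi : ℂ) * Complex.I * (k : ℂ) := ⟨_, rfl⟩
    have hcn : ‖c‖ = 2 * Real.pi * |(k : ℝ)| := by
      rw [hc]
      simp [abs_of_pos hpi]
    have hc0 : c ≠ 0 := by
      rw [← norm_pos_iff, hcn]; positivity
    have hd : ContDiff ℝ ∞ (deriv h) := by
      have := (contDiff_infty_iff_deriv.1 hh).2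
      exact this
    have hdiff : Differentiable ℝ h := (contDiff_infty_iff_deriv.1 hh).1
    have hih := ih (deriv h) hd (fun j => by
      rw [← iteratedDeriv_succ']; exact hper (j + 1)) (fun x hx => by
      rw [← iteratedDeriv_succ']; exact hb x hx)
    rw [← hc] at hih ⊢
    have hcontE : Continuous (fun x : ℝ => Complex.exp (-(c * (x : ℂ)))) := by fun_prop
    have hparts := intervalIntegral.integral_mul_deriv_eq_deriv_mul (a := a) (b := a + 1)
      (u := h) (v := fun x : ℝ => Complex.exp (-(c * (x : ℂ))) / (-c)) (u' := deriv h)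
      (v' := fun x : ℝ => Complex.exp (-(c * (x : ℂ))))
      (fun x _ => (hdiff x).hasDerivAt) (fun x _ => F1_hasDeriv c hc0 x)
      (hd.continuous.intervalIntegrable _ _) (hcontE.intervalIntegrable _ _)
    have hh0 : h (a + 1) = h a := by
      have := hper 0
      rwa [iteratedDeriv_zero] at this
    have he0 : Complex.exp (-(c * ((a + 1 : ℝ) : ℂ))) = Complex.exp (-(c * (a : ℂ))) := by
      rw [hc]; exact F1_per k a
    simp only [hh0, he0] at hparts
    rw [hparts, sub_self, zero_sub]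
    have h4 : (fun x : ℝ => deriv h x * (Complex.exp (-(c * (x : ℂ))) / (-c))) =
        fun x : ℝ => (-c)⁻¹ * (deriv h x * Complex.exp (-(c * (x : ℂ)))) := by
      funext x; rw [div_eq_mul_inv]; ring
    rw [h4, intervalIntegral.integral_const_mul, norm_neg, norm_mul, norm_inv, norm_neg, hcn]
    calc (2 * Real.pi * |(k : ℝ)|)⁻¹ * ‖∫ x in a..(a + 1), deriv h x * Complex.exp (-(c * (x : ℂ)))‖
        ≤ (2 * Real.pi * |(k : ℝ)|)⁻¹ * (M / (2 * Real.pi * |(k : ℝ)|) ^ n) :=
          mul_le_mul_of_nonneg_left hih (by positivity)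
      _ = M / (2 * Real.pi * |(k : ℝ)|) ^ (n + 1) := by
          rw [pow_succ]; field_simp

end BBK
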