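import Mathlib

open Set
open scoped ContDiff

namespace BBK

theorem F2_comp (F : ℝ × ℝ → ℝ) (hF : ContDiff ℝ ∞ F) (l : ℝ →L[ℝ] ℝ × ℝ) (hl : ‖l‖ ≤ 1)
    (p : ℝ × ℝ) (n : ℕ) (t : ℝ) :
    |iteratedDeriv n (fun t => F (l t + p)) t| ≤ ‖iteratedFDeriv ℝ n F (l t + p)‖ := by
  rw [← Real.norm_eq_abs, ← norm_iteratedFDeriv_eq_norm_iteratedDeriv]
  have hG : ContDiff ℝ ∞ (fun q => F (q + p)) := hF.comp (contDiff_id.add contDiff_const)
  have h1 := l.iteratedFDeriv_comp_right hG t (i := n) (by exact_mod_cast le_top)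
  have h2 : (fun t => F (l t + p)) = (fun q => F (q + p)) ∘ l := rfl
  rw [h2, h1]
  refine (ContinuousMultilinearMap.norm_compContinuousLinearMap_le _ _).trans ?_
  have h3 : ∏ _i : Fin n, ‖l‖ ≤ 1 := by
    rw [Finset.prod_const]
    exact pow_le_one₀ (norm_nonneg _) hl
  have h4 : iteratedFDeriv ℝ n (fun q => F (q + p)) (l t) = iteratedFDeriv ℝ n F (l t + p) := by
    rw [iteratedFDeriv_comp_add_right]
  rw [h4]
  calc ‖iteratedFDeriv ℝ n F (l t + p)‖ * ∏ _i : Fin n, ‖l‖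
      ≤ ‖iteratedFDeriv ℝ n F (l t + p)‖ * 1 := mul_le_mul_of_nonneg_left h3 (norm_nonneg _)
    _ = _ := mul_one _

theorem F2_chi : ∃ χ : ℝ → ℝ, ContDiff ℝ ∞ χ ∧ (∀ y, |y| ≤ 1 / 8 → χ y = 1) ∧
    (∀ y, 3 / 16 ≤ |y| → χ y = 0) ∧ ∀ y, |χ y| ≤ 1 := by
  let b : ContDiffBump (0 : ℝ) := ⟨1 / 8, 3 / 16, by norm_num, by norm_num⟩
  refine ⟨b, b.contDiff, ?_, ?_, ?_⟩
  · intro y hy
    refine b.one_of_mem_closedBall ?_
    rw [mem_closedBall_zero_iff, Real.norm_eq_abs]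
    exact hy
  · intro y hy
    refine b.zero_of_le_dist ?_
    rw [dist_zero_right, Real.norm_eq_abs]
    exact hy
  · intro y
    rw [abs_of_nonneg b.nonneg]
    exact b.le_one

theorem F2_chibd (χ : ℝ → ℝ) (hχ : ContDiff ℝ ∞ χ) : ∃ K : ℝ, 1 ≤ K ∧ ∀ n : ℕ, n ≤ 64 →
    ∀ p : ℝ × ℝ, |p.2| ≤ 1 / 4 → ‖iteratedFDeriv ℝ n (fun q : ℝ × ℝ => χ q.2) p‖ ≤ K := by
  have h1 : ∀ n : ℕ, ∃ K : ℝ, ∀ y ∈ Icc (-(1 / 4) : ℝ) (1 / 4), ‖iteratedFDeriv ℝ n χ y‖ ≤ K := by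
    intro n
    exact isCompact_Icc.exists_bound_of_continuousOn
      (hχ.continuous_iteratedFDeriv (by exact_mod_cast le_top)).continuousOn
  choose K hK using h1
  refine ⟨1 + ∑ n ∈ Finset.range 65, |K n|, ?_, ?_⟩
  · have : 0 ≤ ∑ n ∈ Finset.range 65, |K n| := Finset.sum_nonneg fun i _ => abs_nonneg _
    linarith
  · intro n hn p hp
    have h2 := (ContinuousLinearMap.snd ℝ ℝ ℝ).iteratedFDeriv_comp_right hχ p (i := n)
      (by exact_mod_cast le_top)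
    have h3 : (fun q : ℝ × ℝ => χ q.2) = χ ∘ (ContinuousLinearMap.snd ℝ ℝ ℝ) := rfl
    rw [h3, h2]
    refine (ContinuousMultilinearMap.norm_compContinuousLinearMap_le _ _).trans ?_
    have h4 : ∏ _i : Fin n, ‖ContinuousLinearMap.snd ℝ ℝ ℝ‖ ≤ 1 := by
      rw [Finset.prod_const]
      exact pow_le_one₀ (norm_nonneg _) (ContinuousLinearMap.norm_snd_le ℝ ℝ ℝ)
    have h5 : ‖iteratedFDeriv ℝ n χ ((ContinuousLinearMap.snd ℝ ℝ ℝ) p)‖ ≤ K n :=
      hK n _ (by rw [abs_le] at hp; exact hp)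
    have h6 : |K n| ≤ ∑ n ∈ Finset.range 65, |K n| :=
      Finset.single_le_sum (f := fun n => |K n|) (fun i _ => abs_nonneg _)
        (Finset.mem_range.2 (by omega))
    calc ‖iteratedFDeriv ℝ n χ ((ContinuousLinearMap.snd ℝ ℝ ℝ) p)‖ *
          ∏ _i : Fin n, ‖ContinuousLinearMap.snd ℝ ℝ ℝ‖
        ≤ ‖iteratedFDeriv ℝ n χ ((ContinuousLinearMap.snd ℝ ℝ ℝ) p)‖ * 1 :=
          mul_le_mul_of_nonneg_left h4 (norm_nonneg _)
      _ ≤ K n := by rw [mul_one]; exact h5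
      _ ≤ |K n| := le_abs_self _
      _ ≤ 1 + ∑ n ∈ Finset.range 65, |K n| := by linarith

/-- cut-off in the second variable; only the pure derivatives of order 64 are recorded -/
theorem cut_off : ∃ C : ℝ, 1 ≤ C ∧ ∀ (M : ℝ) (f : ℝ × ℝ → ℝ), 0 ≤ M →
    ContDiffOn ℝ ∞ f (univ ×ˢ Ioo (-(1 / 4) : ℝ) (1 / 4)) →
    (∀ n : ℕ, n ≤ 64 → ∀ p ∈ (univ ×ˢ Ioo (-(1 / 4) : ℝ) (1 / 4) : Set (ℝ × ℝ)), ‖iteratedFDeriv ℝ n f p‖ ≤ M) →
    (∀ x y : ℝ, f (x + 1, y) = f (x, y)) →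
    ∃ G : ℝ → ℝ → ℝ, Continuous (fun p : ℝ × ℝ => G p.1 p.2) ∧ (∀ x, ContDiff ℝ ∞ (fun y => G x y)) ∧
      (∀ y, ContDiff ℝ ∞ (fun x => G x y)) ∧ (∀ x y, G (x + 1) y = G x y) ∧
      (∀ x y, 1 / 4 ≤ |y| → G x y = 0) ∧ (∀ x y, |y| ≤ 1 / 8 → G x y = f (x, y)) ∧
      (∀ x y, |G x y| ≤ C * M) ∧
      (∀ x y, |iteratedDeriv 64 (fun t => G x t) y| ≤ C * M) ∧
      (∀ x y, |iteratedDeriv 64 (fun t => G t y) x| ≤ C * M) ∧
      ((∀ x y, f (x, y) = f (0, y)) → ∀ x y, G x y = G 0 y) := by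
  obtain ⟨χ, hχ, hχ1, hχ0, hχb⟩ := F2_chi
  obtain ⟨K, hK1, hK⟩ := F2_chibd χ hχ
  obtain ⟨L, hL⟩ : ∃ L : ℝ, L = 2 ^ 64 := ⟨_, rfl⟩
  have hL1 : 1 ≤ L := by rw [hL]; norm_num
  have hL0 : 0 ≤ L := by linarith
  have hK0 : 0 ≤ K := by linarith
  have hC1 : (1 : ℝ) ≤ L * K := by nlinarith
  refine ⟨L * K, hC1, ?_⟩
  intro M f hM hf hfb hfper
  obtain ⟨U, hU⟩ : ∃ U : Set (ℝ × ℝ), U = univ ×ˢ Ioo (-(1 / 4) : ℝ) (1 / 4) := ⟨_, rfl⟩
  rw [← hU] at hf hfb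
  have hUo : IsOpen U := by rw [hU]; exact isOpen_univ.prod isOpen_Ioo
  have hUmem : ∀ p : ℝ × ℝ, |p.2| < 1 / 4 → p ∈ U := by
    intro p hp
    rw [hU]
    exact ⟨mem_univ _, abs_lt.1 hp⟩
  have hUmem' : ∀ p ∈ U, |p.2| < 1 / 4 := by
    intro p hp
    rw [hU] at hp
    exact abs_lt.2 hp.2
  have hχs : ContDiff ℝ ∞ (fun q : ℝ × ℝ => χ q.2) := hχ.comp contDiff_snd
  obtain ⟨F, hFd⟩ : ∃ F : ℝ × ℝ → ℝ, F = fun p => χ p.2 * f p := ⟨_, rfl⟩
  have hFp : ∀ p, F p = χ p.2 * f p := fun p => by rw [hFd]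
  have hzero : ∀ p : ℝ × ℝ, 1 / 4 ≤ |p.2| → F =ᶠ[nhds p] fun _ => 0 := by
    intro p hp
    have ho : IsOpen {q : ℝ × ℝ | 3 / 16 < |q.2|} :=
      isOpen_lt continuous_const (continuous_abs.comp continuous_snd)
    have hmem : p ∈ {q : ℝ × ℝ | 3 / 16 < |q.2|} := by
      show 3 / 16 < |p.2|
      linarith
    filter_upwards [ho.mem_nhds hmem] with q hq
    rw [hFp, hχ0 q.2 (le_of_lt hq), zero_mul]
  have hFU : ContDiffOn ℝ ∞ F U := by
    rw [hFd]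
    exact hχs.contDiffOn.mul hf
  have hF : ContDiff ℝ ∞ F := by
    rw [contDiff_iff_contDiffAt]
    intro p
    rcases lt_or_ge |p.2| (1 / 4) with h | h
    · exact hFU.contDiffAt (hUo.mem_nhds (hUmem p h))
    · exact contDiffAt_const.congr_of_eventuallyEq (hzero p h)
  have hbd' : ∀ n : ℕ, n ≤ 64 → ∀ p, ‖iteratedFDeriv ℝ n F p‖ ≤ 2 ^ n * K * M := by
    intro n hn p
    rcases lt_or_ge |p.2| (1 / 4) with h | h
    · have hp := hUmem p h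
      have h1 := norm_iteratedFDerivWithin_mul_le (N := ∞) hχs.contDiffOn hf hUo.uniqueDiffOn hp
        (n := n) (by exact_mod_cast le_top)
      rw [← hFd, iteratedFDerivWithin_of_isOpen n hUo hp] at h1
      refine h1.trans ?_
      have h2 : ∀ i ∈ Finset.range (n + 1), (Nat.choose n i : ℝ) *
          ‖iteratedFDerivWithin ℝ i (fun q : ℝ × ℝ => χ q.2) U p‖ *
          ‖iteratedFDerivWithin ℝ (n - i) f U p‖ ≤ (Nat.choose n i : ℝ) * (K * M) := by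
        intro i hi
        have hi' : i ≤ 64 := by have := Finset.mem_range.1 hi; omega
        rw [iteratedFDerivWithin_of_isOpen i hUo hp, iteratedFDerivWithin_of_isOpen (n - i) hUo hp,
          mul_assoc]
        refine mul_le_mul_of_nonneg_left ?_ (Nat.cast_nonneg _)
        exact mul_le_mul (hK i hi' p h.le) (hfb (n - i) (by omega) p hp) (norm_nonneg _)
          (by linarith)
      refine (Finset.sum_le_sum h2).trans (le_of_eq ?_)
      rw [← Finset.sum_mul, ← Nat.cast_sum, Nat.sum_range_choose]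
      push_cast
      ring
    · have h1 := ((hzero p h).iteratedFDeriv ℝ n).self_of_nhds
      rw [h1]
      have h2 : iteratedFDeriv ℝ n (fun _ : ℝ × ℝ => (0 : ℝ)) p = 0 := by
        simp
      rw [h2, norm_zero]
      positivity
  have hbd : ∀ p, ‖iteratedFDeriv ℝ 64 F p‖ ≤ L * K * M := by
    intro p
    rw [hL]
    exact hbd' 64 le_rfl p
  have hsec1 : ∀ x y : ℝ, F (x, y) = F ((ContinuousLinearMap.inr ℝ ℝ ℝ) y + (x, 0)) := by
    intro x y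
    simp
  have hsec2 : ∀ x y : ℝ, F (x, y) = F ((ContinuousLinearMap.inl ℝ ℝ ℝ) x + (0, y)) := by
    intro x y
    simp
  refine ⟨fun x y => F (x, y), hF.continuous, ?_, ?_, ?_, ?_, ?_, ?_, ?_, ?_, ?_⟩
  · intro x
    exact hF.comp (contDiff_const.prodMk contDiff_id)
  · intro y
    exact hF.comp (contDiff_id.prodMk contDiff_const)
  · intro x y
    simp only [hFp, hfper]
  · intro x y hy
    simp only [hFp]
    rw [hχ0 y (by linarith), zero_mul]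
  · intro x y hy
    simp only [hFp]
    rw [hχ1 y hy, one_mul]
  · intro x y
    simp only [hFp]
    rcases lt_or_ge |y| (1 / 4) with h | h
    · have h1 := hfb 0 (by norm_num) (x, y) (hUmem (x, y) h)
      rw [norm_iteratedFDeriv_zero, Real.norm_eq_abs] at h1
      rw [abs_mul]
      calc |χ y| * |f (x, y)| ≤ 1 * M := mul_le_mul (hχb y) h1 (abs_nonneg _) zero_le_one
        _ ≤ L * K * M := mul_le_mul_of_nonneg_right hC1 hM
    · rw [hχ0 y (by linarith), zero_mul, abs_zero]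
      positivity
  · intro x y
    have h1 : (fun t => F (x, t)) = fun t => F ((ContinuousLinearMap.inr ℝ ℝ ℝ) t + (x, 0)) := by
      funext t; exact hsec1 x t
    rw [h1]
    exact (F2_comp F hF _ (ContinuousLinearMap.norm_inr_le_one ℝ ℝ ℝ) _ 64 y).trans (hbd _)
  · intro x y
    have h1 : (fun t => F (t, y)) = fun t => F ((ContinuousLinearMap.inl ℝ ℝ ℝ) t + (0, y)) := by
      funext t; exact hsec2 t y
    rw [h1]
    exact (F2_comp F hF _ (ContinuousLinearMap.norm_inl_le_one ℝ ℝ ℝ) _ 64 x).trans (hbd _)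
  · intro h x y
    simp only [hFp]
    rw [h x y]

end BBK
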