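import Pool.Agent.Lib_helper16.BBK.Defs

open Set
open scoped ContDiff

namespace BBK

/-- double Fourier coefficients over `[0,1] × [-1/2,1/2]` -/
noncomputable def fc2 (G : ℝ → ℝ → ℝ) : Seq := fun k =>
  ∫ y in (-(1 / 2) : ℝ)..(1 / 2), ∫ x in (0 : ℝ)..1, (G x y : ℂ) * ee (-k) (x : ℂ) (y : ℂ)

/-- one exponential -/
noncomputable def F3_e (k : ℤ) (x : ℝ) : ℂ := Complex.exp (2 * (Real.pi : ℂ) * Complex.I * ((k : ℂ) * (x : ℂ)))

theorem F3_ee (k : ℤ × ℤ) (x y : ℝ) : ee k (x : ℂ) (y : ℂ) = F3_e k.1 x * F3_e k.2 y := by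
  unfold ee F3_e
  rw [← Complex.exp_add]
  congr 1
  ring

theorem F3_e_cont (k : ℤ) : Continuous (F3_e k) := by
  unfold F3_e
  fun_prop

theorem F3_e_norm (k : ℤ) (x : ℝ) : ‖F3_e k x‖ = 1 := by
  unfold F3_e
  have : 2 * (Real.pi : ℂ) * Complex.I * ((k : ℂ) * (x : ℂ)) = ((2 * Real.pi * (k * x) : ℝ) : ℂ) * Complex.I := by
    push_cast; ring
  rw [this, Complex.norm_exp_ofReal_mul_I]

theorem F3_e_conj (k : ℤ) (x : ℝ) : (starRingEnd ℂ) (F3_e k x) = F3_e (-k) x := by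
  unfold F3_e
  rw [← Complex.exp_conj]
  congr 1
  have h2 : (starRingEnd ℂ) 2 = 2 := map_ofNat (starRingEnd ℂ) 2
  simp [h2]

theorem F3_e_add_one (k : ℤ) (x : ℝ) : F3_e k (x + 1) = F3_e k x := by
  unfold F3_e
  rw [Complex.exp_eq_exp_iff_exists_int]
  exact ⟨k, by push_cast; ring⟩

theorem F3_ee_cont (k : ℤ × ℤ) : Continuous (fun p : ℝ × ℝ => ee k (p.1 : ℂ) (p.2 : ℂ)) := by
  unfold ee
  fun_prop

theorem fc2_swap {G : ℝ → ℝ → ℝ} (hG : Continuous (fun p : ℝ × ℝ => G p.1 p.2)) (k : ℤ × ℤ) :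
    fc2 G k = ∫ x in (0 : ℝ)..1, ∫ y in (-(1 / 2) : ℝ)..(1 / 2), (G x y : ℂ) * ee (-k) (x : ℂ) (y : ℂ) := by
  unfold fc2
  refine MeasureTheory.intervalIntegral_intervalIntegral_swap ?_
  have hc : Continuous (Function.uncurry fun y x : ℝ => (G x y : ℂ) * ee (-k) (x : ℂ) (y : ℂ)) := by
    have h1 : Continuous (fun p : ℝ × ℝ => (G p.2 p.1 : ℂ)) :=
      Complex.continuous_ofReal.comp (hG.comp continuous_swap)
    have h2 : Continuous (fun p : ℝ × ℝ => ee (-k) (p.2 : ℂ) (p.1 : ℂ)) :=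
      (F3_ee_cont (-k)).comp continuous_swap
    exact h1.mul h2
  have hK : IsCompact (uIcc (-(1 / 2) : ℝ) (1 / 2) ×ˢ uIcc (0 : ℝ) 1) := isCompact_uIcc.prod isCompact_uIcc
  exact (hc.continuousOn.integrableOn_compact hK).mono_set
    (Set.prod_mono uIoc_subset_uIcc uIoc_subset_uIcc)

theorem fc2_real (G : ℝ → ℝ → ℝ) : IsReal (fc2 G) := by
  intro k
  unfold fc2
  rw [← intervalIntegral.intervalIntegral_conj]
  congr 1
  ext y
  rw [← intervalIntegral.intervalIntegral_conj]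
  congr 1
  ext x
  rw [map_mul, Complex.conj_ofReal, F3_ee, F3_ee, map_mul, F3_e_conj, F3_e_conj]
  rfl

/-- the integral of a nontrivial exponential -/
theorem F3_int_zero (k : ℤ) (hk : k ≠ 0) : ∫ x in (0 : ℝ)..1, F3_e k x = 0 := by
  have hc : (2 * (Real.pi : ℂ) * Complex.I * (k : ℂ)) ≠ 0 := by
    have h1 : (Real.pi : ℂ) ≠ 0 := by exact_mod_cast Real.pi_ne_zero
    have h2 : (k : ℂ) ≠ 0 := by exact_mod_cast hk
    exact mul_ne_zero (mul_ne_zero (mul_ne_zero two_ne_zero h1) Complex.I_ne_zero) h2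
  have h : ∀ x : ℝ, F3_e k x = Complex.exp ((2 * (Real.pi : ℂ) * Complex.I * (k : ℂ)) * (x : ℂ)) := by
    intro x; unfold F3_e; congr 1; ring
  simp_rw [h]
  rw [integral_exp_mul_complex hc]
  have h1 : Complex.exp ((2 * (Real.pi : ℂ) * Complex.I * (k : ℂ)) * ((1 : ℝ) : ℂ))
      = Complex.exp ((2 * (Real.pi : ℂ) * Complex.I * (k : ℂ)) * ((0 : ℝ) : ℂ)) := by
    rw [Complex.exp_eq_exp_iff_exists_int]
    exact ⟨k, by push_cast; ring⟩
  rw [h1, sub_self, zero_div]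

/-- if `G` depends on `y` only -/
theorem fc2_supp {G : ℝ → ℝ → ℝ} (h : ∀ x y, G x y = G 0 y) (k : ℤ × ℤ) (hk : k.1 ≠ 0) : fc2 G k = 0 := by
  unfold fc2
  have : ∀ y : ℝ, ∫ x in (0 : ℝ)..1, (G x y : ℂ) * ee (-k) (x : ℂ) (y : ℂ) = 0 := by
    intro y
    have h1 : ∀ x : ℝ, (G x y : ℂ) * ee (-k) (x : ℂ) (y : ℂ)
        = ((G 0 y : ℂ) * F3_e (-k).2 y) * F3_e (-k).1 x := by
      intro x
      rw [h x y, F3_ee]; ring
    simp_rw [h1]
    rw [intervalIntegral.integral_const_mul, F3_int_zero, mul_zero]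
    simpa using hk
  simp_rw [this]
  simp

/-- Fourier series of a continuous function with summable coefficients on one period -/
theorem F3_one {a b : ℝ} (hab : b = a + 1) {f : ℝ → ℂ} (hc : ContinuousOn f (Icc a b)) (he : f a = f b)
    (hs : Summable (fun k : ℤ => ∫ t in a..b, f t * F3_e (-k) t)) (x : ℝ) (hx : x ∈ Icc a b) :
    HasSum (fun k : ℤ => (∫ t in a..b, f t * F3_e (-k) t) * F3_e k x) (f x) := by
  subst hab
  haveI : Fact ((0 : ℝ) < 1) := ⟨one_pos⟩
  set F : C(AddCircle (1 : ℝ), ℂ) := ⟨AddCircle.liftIco 1 a f, AddCircle.liftIco_continuous he hc⟩ with hF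
  have hfour : ∀ (k : ℤ) (t : ℝ), (fourier k (t : AddCircle (1 : ℝ)) : ℂ) = F3_e k t := by
    intro k t
    rw [fourier_coe_apply]
    unfold F3_e
    congr 1
    push_cast
    ring
  have hco : ∀ k : ℤ, fourierCoeff F k = ∫ t in a..(a + 1), f t * F3_e (-k) t := by
    intro k
    rw [fourierCoeff_eq_intervalIntegral F k a]
    rw [div_one, one_smul]
    refine intervalIntegral.integral_congr_Ioo_of_le (by linarith) fun t ht => ?_
    rw [hfour, smul_eq_mul, mul_comm]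
    congr 1
    rw [hF]
    exact AddCircle.liftIco_coe_apply (Ioo_subset_Ico_self ht)
  have hsum : Summable (fourierCoeff F) := by
    have : fourierCoeff F = fun k : ℤ => ∫ t in a..(a + 1), f t * F3_e (-k) t := by
      ext k; exact hco k
    rw [this]; exact hs
  -- on the half open interval
  have main : ∀ y ∈ Ico a (a + 1), HasSum (fun k : ℤ => (∫ t in a..(a + 1), f t * F3_e (-k) t) * F3_e k y) (f y) := by
    intro y hy
    have h := has_pointwise_sum_fourier_series_of_summable hsum (y : AddCircle (1 : ℝ))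
    have hFy : F (y : AddCircle (1 : ℝ)) = f y := AddCircle.liftIco_coe_apply hy
    rw [hFy] at h
    refine h.congr_fun ?_
    intro k
    rw [hco k, hfour, smul_eq_mul]
  rcases eq_or_lt_of_le hx.2 with h1 | h1
  · have h2 := main a ⟨le_rfl, by linarith⟩
    rw [h1, ← he]
    refine h2.congr_fun ?_
    intro k
    rw [F3_e_add_one]
  · exact main x ⟨hx.1, h1⟩

/-- the partial Fourier coefficients in `x` -/
noncomputable def F3_a (G : ℝ → ℝ → ℝ) (k : ℤ) (y : ℝ) : ℂ := ∫ x in (0 : ℝ)..1, (G x y : ℂ) * F3_e (-k) x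

theorem F3_a_cont {G : ℝ → ℝ → ℝ} (hG : Continuous (fun p : ℝ × ℝ => G p.1 p.2)) (k : ℤ) :
    Continuous (F3_a G k) := by
  unfold F3_a
  refine intervalIntegral.continuous_parametric_intervalIntegral_of_continuous' ?_ _ _
  have h1 : Continuous (fun p : ℝ × ℝ => (G p.2 p.1 : ℂ)) :=
    Complex.continuous_ofReal.comp (hG.comp continuous_swap)
  have h2 : Continuous (fun p : ℝ × ℝ => F3_e (-k) p.2) := (F3_e_cont (-k)).comp continuous_snd
  exact h1.mul h2

theorem F3_fc2 (G : ℝ → ℝ → ℝ) (k l : ℤ) :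
    fc2 G (k, l) = ∫ y in (-(1 / 2) : ℝ)..(1 / 2), F3_a G k y * F3_e (-l) y := by
  unfold fc2 F3_a
  congr 1
  ext y
  rw [← intervalIntegral.integral_mul_const]
  congr 1
  ext x
  rw [F3_ee]
  simp only [Prod.neg_mk]
  ring

/-- the double Fourier series of a continuous function with summable coefficients -/
theorem fourier2 {G : ℝ → ℝ → ℝ} {M : ℝ} (hG : Continuous (fun p : ℝ × ℝ => G p.1 p.2))
    (hper : ∀ x y, G (x + 1) y = G x y) (h0 : ∀ x y, 1 / 4 ≤ |y| → G x y = 0) (hb : Bd (fc2 G) 0 M)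
    (x y : ℝ) (hy : |y| ≤ 1 / 2) : ev (fc2 G) (x : ℂ) (y : ℂ) = (G x y : ℂ) := by
  have hsn : Summable (fun k : ℤ × ℤ => ‖fc2 G k‖) := by
    have h := hb.1
    simpa using h
  -- the y-series of each coefficient
  have hrow : ∀ k : ℤ, Summable (fun l : ℤ => ‖fc2 G (k, l)‖) := fun k =>
    hsn.comp_injective (Prod.mk_right_injective k)
  have hcol : Summable (fun k : ℤ => ∑' l : ℤ, ‖fc2 G (k, l)‖) := hsn.prod
  have hyI : y ∈ Icc (-(1 / 2) : ℝ) (1 / 2) := abs_le.mp hy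
  have hay : ∀ k : ℤ, HasSum (fun l : ℤ => fc2 G (k, l) * F3_e l y) (F3_a G k y) := by
    intro k
    have hend : F3_a G k (-(1 / 2)) = F3_a G k (1 / 2) := by
      unfold F3_a
      have e1 : ∀ x : ℝ, G x (-(1 / 2)) = 0 := fun x => h0 x _ (by norm_num [abs_of_nonpos])
      have e2 : ∀ x : ℝ, G x (1 / 2) = 0 := fun x => h0 x _ (by norm_num [abs_of_nonneg])
      simp_rw [e1, e2]
    have hs : Summable (fun l : ℤ => ∫ t in (-(1 / 2) : ℝ)..(1 / 2), F3_a G k t * F3_e (-l) t) := by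
      have : (fun l : ℤ => ∫ t in (-(1 / 2) : ℝ)..(1 / 2), F3_a G k t * F3_e (-l) t) = fun l => fc2 G (k, l) := by
        ext l; rw [F3_fc2]
      rw [this]
      exact (hrow k).of_norm
    have h := F3_one (by norm_num : (1 / 2 : ℝ) = -(1 / 2) + 1) (F3_a_cont hG k).continuousOn hend hs y hyI
    refine h.congr_fun ?_
    intro l
    rw [F3_fc2]
  -- summability of the coefficients
  have han : ∀ k : ℤ, ‖F3_a G k y‖ ≤ ∑' l : ℤ, ‖fc2 G (k, l)‖ := by
    intro k
    rw [← (hay k).tsum_eq]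
    have h1 : Summable (fun l : ℤ => ‖fc2 G (k, l) * F3_e l y‖) := by
      simp_rw [norm_mul, F3_e_norm, mul_one]; exact hrow k
    refine (norm_tsum_le_tsum_norm h1).trans (le_of_eq ?_)
    congr 1
    ext l
    rw [norm_mul, F3_e_norm, mul_one]
  have hsa : Summable (fun k : ℤ => F3_a G k y) := Summable.of_norm_bounded hcol han
  -- the x-series
  set x' : ℝ := Int.fract x with hx'
  have hx'0 := Int.fract_nonneg x
  have hx'1 := (Int.fract_lt_one x).le
  have hGx : Continuous (fun t : ℝ => (G t y : ℂ)) :=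
    Complex.continuous_ofReal.comp (hG.comp (Continuous.prodMk continuous_id continuous_const))
  have hx := F3_one (by norm_num : (1 : ℝ) = 0 + 1) (f := fun t : ℝ => (G t y : ℂ)) hGx.continuousOn
    (by have := hper 0 y; rw [zero_add] at this; simp [this]) hsa x' ⟨hx'0, hx'1⟩
  have hGfr : G x' y = G x y := by
    have hp : Function.Periodic (fun t : ℝ => G t y) 1 := fun t => hper t y
    have h1 := hp.sub_int_mul_eq (x := x) ⌊x⌋
    simp only [mul_one] at h1
    rw [hx', Int.fract]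
    exact h1
  have hefr : ∀ k : ℤ, F3_e k x' = F3_e k x := by
    intro k
    unfold F3_e
    rw [Complex.exp_eq_exp_iff_exists_int]
    refine ⟨-(k * ⌊x⌋), ?_⟩
    rw [hx', Int.fract]
    push_cast
    ring
  -- assembly
  unfold ev
  have hs2 : Summable (fun k : ℤ × ℤ => fc2 G k * ee k (x : ℂ) (y : ℂ)) := by
    refine Summable.of_norm ?_
    have : (fun k : ℤ × ℤ => ‖fc2 G k * ee k (x : ℂ) (y : ℂ)‖) = fun k => ‖fc2 G k‖ := by
      ext k
      rw [norm_mul, F3_ee, norm_mul, F3_e_norm, F3_e_norm, mul_one, mul_one]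
    rw [this]; exact hsn
  rw [hs2.tsum_prod]
  have hinner : ∀ k : ℤ, ∑' l : ℤ, fc2 G (k, l) * ee (k, l) (x : ℂ) (y : ℂ) = F3_a G k y * F3_e k x := by
    intro k
    rw [← (hay k).tsum_eq, ← tsum_mul_right]
    congr 1
    ext l
    rw [F3_ee]
    ring
  simp_rw [hinner]
  have h2 := hx.tsum_eq
  simp only [hefr, hGfr] at h2
  exact h2

end BBK
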