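import Pool.Agent.Lib_helper16.BBK.Defs
import Pool.Agent.Lib_helper16.BBK.E1

open Set
open scoped ContDiff

namespace BBK

theorem F4A_sum_int : Summable (fun n : ℤ => ((1 + |(n : ℝ)|) ^ 2)⁻¹) := by
  have h1 : Summable (fun n : ℤ => 1 / (n : ℝ) ^ 2) := Real.summable_one_div_int_pow.2 (by norm_num)
  have h2 : Summable (fun n : ℤ => if n = 0 then (1 : ℝ) else 0) := (hasSum_ite_eq (0 : ℤ) (1 : ℝ)).summable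
  refine Summable.of_nonneg_of_le (fun n => by positivity) (fun n => ?_) (h1.add h2)
  by_cases hn : n = 0
  · subst hn
    simp
  · have hn' : (n : ℝ) ≠ 0 := by exact_mod_cast hn
    have h3 : 0 < (n : ℝ) ^ 2 := by positivity
    simp only [hn, if_false, add_zero, one_div]
    apply inv_anti₀ h3
    nlinarith [abs_nonneg (n : ℝ), sq_abs (n : ℝ)]

theorem F4A_sum : Summable (fun k : ℤ × ℤ => ((1 + |(k.1 : ℝ)|) ^ 2)⁻¹ * ((1 + |(k.2 : ℝ)|) ^ 2)⁻¹) :=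
  Summable.mul_of_nonneg F4A_sum_int F4A_sum_int (fun n => by positivity) (fun n => by positivity)

/-- decay of order 64 gives a weighted norm of order 60 -/
theorem Bd_of_decay : ∃ C : ℝ, 1 ≤ C ∧ ∀ (M : ℝ) (c : Seq), 0 ≤ M →
    (∀ k, ‖c k‖ * (1 + wt k) ^ 64 ≤ M) → Bd c 60 (C * M) := by
  refine ⟨1 + ∑' k : ℤ × ℤ, ((1 + |(k.1 : ℝ)|) ^ 2)⁻¹ * ((1 + |(k.2 : ℝ)|) ^ 2)⁻¹, ?_, ?_⟩
  · have : 0 ≤ ∑' k : ℤ × ℤ, ((1 + |(k.1 : ℝ)|) ^ 2)⁻¹ * ((1 + |(k.2 : ℝ)|) ^ 2)⁻¹ :=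
      tsum_nonneg (fun k => by positivity)
    linarith
  intro M c hM h
  have hle : ∀ k : ℤ × ℤ, ‖c k‖ * (1 + wt k) ^ 60
      ≤ M * (((1 + |(k.1 : ℝ)|) ^ 2)⁻¹ * ((1 + |(k.2 : ℝ)|) ^ 2)⁻¹) := by
    intro k
    have ha := abs_nonneg (k.1 : ℝ)
    have hb := abs_nonneg (k.2 : ℝ)
    have hw : 0 < 1 + wt k := by
      have := wt_nonneg k
      linarith
    have h4 : (1 + |(k.1 : ℝ)|) ^ 2 * (1 + |(k.2 : ℝ)|) ^ 2 ≤ (1 + wt k) ^ 4 := by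
      have e1 : (1 + |(k.1 : ℝ)|) ≤ 1 + wt k := by
        unfold wt
        linarith
      have e2 : (1 + |(k.2 : ℝ)|) ≤ 1 + wt k := by
        unfold wt
        linarith
      calc (1 + |(k.1 : ℝ)|) ^ 2 * (1 + |(k.2 : ℝ)|) ^ 2 ≤ (1 + wt k) ^ 2 * (1 + wt k) ^ 2 := by
            gcongr
        _ = (1 + wt k) ^ 4 := by ring
    have h5 : 0 < (1 + |(k.1 : ℝ)|) ^ 2 * (1 + |(k.2 : ℝ)|) ^ 2 := by positivity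
    have h6 := h k
    rw [← mul_inv, ← div_eq_mul_inv, le_div_iff₀ h5]
    calc ‖c k‖ * (1 + wt k) ^ 60 * ((1 + |(k.1 : ℝ)|) ^ 2 * (1 + |(k.2 : ℝ)|) ^ 2)
        ≤ ‖c k‖ * (1 + wt k) ^ 60 * (1 + wt k) ^ 4 := by gcongr
      _ = ‖c k‖ * (1 + wt k) ^ 64 := by ring
      _ ≤ M := h6
  have hs : Summable (fun k : ℤ × ℤ => M * (((1 + |(k.1 : ℝ)|) ^ 2)⁻¹ * ((1 + |(k.2 : ℝ)|) ^ 2)⁻¹)) :=
    F4A_sum.mul_left M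
  have hw0 : ∀ k : ℤ × ℤ, 0 ≤ ‖c k‖ * (1 + wt k) ^ 60 := fun k => by
    have := wt_nonneg k
    positivity
  have hs' : Summable (fun k : ℤ × ℤ => ‖c k‖ * (1 + wt k) ^ 60) :=
    Summable.of_nonneg_of_le hw0 hle hs
  refine ⟨hs', ?_⟩
  calc ∑' k, ‖c k‖ * (1 + wt k) ^ 60
      ≤ ∑' k : ℤ × ℤ, M * (((1 + |(k.1 : ℝ)|) ^ 2)⁻¹ * ((1 + |(k.2 : ℝ)|) ^ 2)⁻¹) :=
        hs'.tsum_le_tsum hle hs
    _ = M * ∑' k : ℤ × ℤ, ((1 + |(k.1 : ℝ)|) ^ 2)⁻¹ * ((1 + |(k.2 : ℝ)|) ^ 2)⁻¹ := tsum_mul_left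
    _ ≤ _ := by nlinarith

end BBK
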