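import Pool.Agent.Lib_helper16.BBK.Defs
import Pool.Agent.Lib_helper16.BBK.F1
import Pool.Agent.Lib_helper16.BBK.F3

open Set
open scoped ContDiff

namespace BBK

theorem F4B_ofReal (g : ℝ → ℝ) (hg : ContDiff ℝ ∞ g) (n : ℕ) (x : ℝ) :
    ‖iteratedDeriv n (fun t => ((g t : ℝ) : ℂ)) x‖ = |iteratedDeriv n g x| := by
  rw [← norm_iteratedFDeriv_eq_norm_iteratedDeriv, ← Real.norm_eq_abs,
    ← norm_iteratedFDeriv_eq_norm_iteratedDeriv]
  exact Complex.ofRealLI.norm_iteratedFDeriv_comp_left (n := n)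
    ((hg.of_le (by exact_mod_cast le_top)).contDiffAt) le_rfl

theorem F4B_smooth (g : ℝ → ℝ) (hg : ContDiff ℝ ∞ g) :
    ContDiff ℝ ∞ (fun t => ((g t : ℝ) : ℂ)) := Complex.ofRealCLM.contDiff.comp hg

theorem F4B_ee (k : ℤ × ℤ) (x y : ℝ) : ee (-k) (x : ℂ) (y : ℂ) =
    Complex.exp (-(2 * (Real.pi : ℂ) * Complex.I * (k.1 : ℂ) * (x : ℂ))) *
      Complex.exp (-(2 * (Real.pi : ℂ) * Complex.I * (k.2 : ℂ) * (y : ℂ))) := by
  unfold ee
  rw [← Complex.exp_add]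
  congr 1
  simp only [Prod.fst_neg, Prod.snd_neg]
  push_cast
  ring

theorem F4B_norm (k : ℤ) (x : ℝ) :
    ‖Complex.exp (-(2 * (Real.pi : ℂ) * Complex.I * (k : ℂ) * (x : ℂ)))‖ = 1 := by
  rw [Complex.norm_exp]
  have : (-(2 * (Real.pi : ℂ) * Complex.I * (k : ℂ) * (x : ℂ))).re = 0 := by
    simp
  rw [this, Real.exp_zero]

theorem F4B_inner1 {M : ℝ} {G : ℝ → ℝ → ℝ} (h2 : ∀ y, ContDiff ℝ ∞ (fun x => G x y))
    (hper : ∀ x y, G (x + 1) y = G x y)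
    (hb : ∀ x y, |iteratedDeriv 64 (fun t => G t y) x| ≤ M) (k : ℤ × ℤ) (hk : k.1 ≠ 0) (y : ℝ) :
    ‖∫ x in (0 : ℝ)..1, (G x y : ℂ) * ee (-k) (x : ℂ) (y : ℂ)‖ ≤
      M / (2 * Real.pi * |(k.1 : ℝ)|) ^ 64 := by
  have hcd := coeff_decay (fun x => ((G x y : ℝ) : ℂ)) 0 64 M (F4B_smooth _ (h2 y)) (fun j => by
      have h1 : (fun x => ((G (x + 1) y : ℝ) : ℂ)) = fun x => ((G x y : ℝ) : ℂ) := by
        funext x
        simp only [hper]
      have h4 := congrFun (iteratedDeriv_comp_add_const j (fun x => ((G x y : ℝ) : ℂ)) 1) 0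
      rw [h1] at h4
      exact h4.symm)
    (fun x _ => by
      rw [F4B_ofReal _ (h2 y)]
      exact hb x y) k.1 hk
  rw [zero_add] at hcd
  have h3 : (fun x : ℝ => (G x y : ℂ) * ee (-k) (x : ℂ) (y : ℂ)) = fun x : ℝ =>
      Complex.exp (-(2 * (Real.pi : ℂ) * Complex.I * (k.2 : ℂ) * (y : ℂ))) * ((G x y : ℂ) *
        Complex.exp (-(2 * (Real.pi : ℂ) * Complex.I * (k.1 : ℂ) * (x : ℂ)))) := by
    funext x
    rw [F4B_ee]; ring
  rw [h3, intervalIntegral.integral_const_mul, norm_mul, F4B_norm, one_mul]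
  exact hcd

theorem F4B_inner2 {M : ℝ} {G : ℝ → ℝ → ℝ} (h1 : ∀ x, ContDiff ℝ ∞ (fun y => G x y))
    (h0 : ∀ x y, 1 / 4 ≤ |y| → G x y = 0)
    (hb : ∀ x y, |iteratedDeriv 64 (fun t => G x t) y| ≤ M) (k : ℤ × ℤ) (hk : k.2 ≠ 0) (x : ℝ) :
    ‖∫ y in (-(1 / 2) : ℝ)..(1 / 2), (G x y : ℂ) * ee (-k) (x : ℂ) (y : ℂ)‖ ≤
      M / (2 * Real.pi * |(k.2 : ℝ)|) ^ 64 := by
  have hz : ∀ (j : ℕ) (y : ℝ), 1 / 4 < |y| →
      iteratedDeriv j (fun y => ((G x y : ℝ) : ℂ)) y = 0 := by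
    intro j y hy
    have he : (fun y => ((G x y : ℝ) : ℂ)) =ᶠ[nhds y] fun _ => 0 := by
      have ho : IsOpen {y : ℝ | 1 / 4 < |y|} := isOpen_lt continuous_const continuous_abs
      filter_upwards [ho.mem_nhds hy] with z hz
      rw [h0 x z (le_of_lt hz), Complex.ofReal_zero]
    rw [he.iteratedDeriv_eq, iteratedDeriv_fun_const_zero]
  have hhalf : (-(1 / 2) : ℝ) + 1 = 1 / 2 := by norm_num
  have hcd := coeff_decay (fun y => ((G x y : ℝ) : ℂ)) (-(1 / 2)) 64 M (F4B_smooth _ (h1 x))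
    (fun j => by
      rw [hz j _ (by rw [hhalf, abs_of_pos (by norm_num)]; norm_num),
        hz j _ (by rw [abs_neg, abs_of_pos (by norm_num)]; norm_num)])
    (fun y _ => by
      rw [F4B_ofReal _ (h1 x)]
      exact hb x y) k.2 hk
  rw [hhalf] at hcd
  have h3 : (fun y : ℝ => (G x y : ℂ) * ee (-k) (x : ℂ) (y : ℂ)) = fun y : ℝ =>
      Complex.exp (-(2 * (Real.pi : ℂ) * Complex.I * (k.1 : ℂ) * (x : ℂ))) * ((G x y : ℂ) *
        Complex.exp (-(2 * (Real.pi : ℂ) * Complex.I * (k.2 : ℂ) * (y : ℂ)))) := by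
    funext y
    rw [F4B_ee]; ring
  rw [h3, intervalIntegral.integral_const_mul, norm_mul, F4B_norm, one_mul]
  exact hcd

theorem F4B_num {K w M N : ℝ} (hM : 0 ≤ M) (hK : 1 ≤ K) (hw0 : 0 ≤ w) (hw : w ≤ 2 * K)
    (hN : N ≤ M / (2 * Real.pi * K) ^ 64) : N * (1 + w) ^ 64 ≤ M := by
  have hpi := Real.pi_gt_three
  have hpos : 0 < (2 * Real.pi * K) ^ 64 := by positivity
  have h1 : (1 + w) ^ 64 ≤ (2 * Real.pi * K) ^ 64 := by
    refine pow_le_pow_left₀ (by positivity) ?_ 64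
    nlinarith
  calc N * (1 + w) ^ 64 ≤ M / (2 * Real.pi * K) ^ 64 * (1 + w) ^ 64 :=
        mul_le_mul_of_nonneg_right hN (by positivity)
    _ ≤ M / (2 * Real.pi * K) ^ 64 * (2 * Real.pi * K) ^ 64 :=
        mul_le_mul_of_nonneg_left h1 (by positivity)
    _ = M := div_mul_cancel₀ _ hpos.ne'

/-- decay of the coefficients of `G` -/
theorem fc2_decay : ∃ C : ℝ, 1 ≤ C ∧ ∀ (M : ℝ) (G : ℝ → ℝ → ℝ), 0 ≤ M →
    Continuous (fun p : ℝ × ℝ => G p.1 p.2) → (∀ x, ContDiff ℝ ∞ (fun y => G x y)) →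
    (∀ y, ContDiff ℝ ∞ (fun x => G x y)) → (∀ x y, G (x + 1) y = G x y) →
    (∀ x y, 1 / 4 ≤ |y| → G x y = 0) → (∀ x y, |G x y| ≤ M) →
    (∀ x y, |iteratedDeriv 64 (fun t => G x t) y| ≤ M) →
    (∀ x y, |iteratedDeriv 64 (fun t => G t y) x| ≤ M) →
    ∀ k, ‖fc2 G k‖ * (1 + wt k) ^ 64 ≤ C * M := by
  refine ⟨1, le_rfl, ?_⟩
  intro M G hM hcont h1 h2 hper h0 hb0 hb1 hb2 k
  rw [one_mul]
  have hwt : wt k = |(k.1 : ℝ)| + |(k.2 : ℝ)| := rfl
  have hwt0 : 0 ≤ wt k := by rw [hwt]; positivity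
  by_cases hk0 : k = 0
  · have hw : wt k = 0 := by rw [hwt, hk0]; simp
    rw [hw, add_zero, one_pow, mul_one]
    have hin : ∀ y, ‖∫ x in (0 : ℝ)..1, (G x y : ℂ) * ee (-k) (x : ℂ) (y : ℂ)‖ ≤ M := by
      intro y
      have := intervalIntegral.norm_integral_le_of_norm_le_const (a := (0:ℝ)) (b := 1) (C := M)
        (f := fun x : ℝ => (G x y : ℂ) * ee (-k) (x : ℂ) (y : ℂ)) (by
          intro x _
          rw [F4B_ee, norm_mul, norm_mul, F4B_norm, F4B_norm, mul_one, mul_one, Complex.norm_real,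
            Real.norm_eq_abs]
          exact hb0 x y)
      simpa using this
    have := intervalIntegral.norm_integral_le_of_norm_le_const (a := (-(1 / 2):ℝ)) (b := 1 / 2)
      (C := M) (f := fun y : ℝ => ∫ x in (0 : ℝ)..1, (G x y : ℂ) * ee (-k) (x : ℂ) (y : ℂ))
      (fun y _ => hin y)
    unfold fc2
    refine this.trans (le_of_eq ?_)
    norm_num
  · rcases le_or_gt |(k.2 : ℝ)| |(k.1 : ℝ)| with hle | hlt
    · have hk1 : k.1 ≠ 0 := by
        intro h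
        apply hk0
        rw [h, Int.cast_zero, abs_zero] at hle
        have h3 : (k.2 : ℝ) = 0 := abs_eq_zero.1 (le_antisymm hle (abs_nonneg _))
        have h4 : k.2 = 0 := by exact_mod_cast h3
        exact Prod.ext h h4
      have hk1R : (1 : ℝ) ≤ |(k.1 : ℝ)| := by
        have : (1 : ℤ) ≤ |k.1| := Int.one_le_abs hk1
        exact_mod_cast this
      refine F4B_num hM hk1R hwt0 (by rw [hwt]; linarith) ?_
      have := intervalIntegral.norm_integral_le_of_norm_le_const (a := (-(1 / 2):ℝ)) (b := 1 / 2)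
        (C := M / (2 * Real.pi * |(k.1 : ℝ)|) ^ 64)
        (f := fun y : ℝ => ∫ x in (0 : ℝ)..1, (G x y : ℂ) * ee (-k) (x : ℂ) (y : ℂ))
        (fun y _ => F4B_inner1 h2 hper hb2 k hk1 y)
      unfold fc2
      refine this.trans (le_of_eq ?_)
      norm_num
    · have hk2 : k.2 ≠ 0 := by
        intro h
        rw [h, Int.cast_zero, abs_zero] at hlt
        exact absurd hlt (not_lt.2 (abs_nonneg _))
      have hk2R : (1 : ℝ) ≤ |(k.2 : ℝ)| := by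
        have : (1 : ℤ) ≤ |k.2| := Int.one_le_abs hk2
        exact_mod_cast this
      refine F4B_num hM hk2R hwt0 (by rw [hwt]; linarith) ?_
      rw [fc2_swap hcont k]
      have := intervalIntegral.norm_integral_le_of_norm_le_const (a := (0:ℝ)) (b := 1)
        (C := M / (2 * Real.pi * |(k.2 : ℝ)|) ^ 64)
        (f := fun x : ℝ => ∫ y in (-(1 / 2) : ℝ)..(1 / 2), (G x y : ℂ) * ee (-k) (x : ℂ) (y : ℂ))
        (fun x _ => F4B_inner2 h1 h0 hb1 k hk2 x)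
      refine this.trans (le_of_eq ?_)
      norm_num

end BBK
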