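import Pool.Agent.Lib_helper16.BBK.Defs
import Pool.Agent.Lib_helper16.BBK.E1
import Pool.Agent.Lib_helper16.BBK.F2
import Pool.Agent.Lib_helper16.BBK.F3
import Pool.Agent.Lib_helper16.BBK.F4A
import Pool.Agent.Lib_helper16.BBK.F4B

open Set
open scoped ContDiff

namespace BBK

/-- from smooth functions to double sequences -/
theorem seq_of_smooth : ∃ C : ℝ, 1 ≤ C ∧ ∀ (M : ℝ) (f : ℝ × ℝ → ℝ), 0 ≤ M →
    ContDiffOn ℝ ∞ f (univ ×ˢ Ioo (-(1 / 4) : ℝ) (1 / 4)) →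
    (∀ n : ℕ, n ≤ 64 → ∀ p ∈ (univ ×ˢ Ioo (-(1 / 4) : ℝ) (1 / 4) : Set (ℝ × ℝ)), ‖iteratedFDeriv ℝ n f p‖ ≤ M) →
    (∀ x y : ℝ, f (x + 1, y) = f (x, y)) →
    ∃ c : Seq, IsReal c ∧ Bd c 60 (C * M) ∧ (∀ x y : ℝ, |y| ≤ 1 / 8 → ev c (x : ℂ) (y : ℂ) = (f (x, y) : ℂ)) ∧
      ((∀ x y, f (x, y) = f (0, y)) → ∀ k : ℤ × ℤ, k.1 ≠ 0 → c k = 0) := by
  obtain ⟨C₁, hC₁, h₁⟩ := cut_off
  obtain ⟨C₂, hC₂, h₂⟩ := Bd_of_decay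
  obtain ⟨C₃, hC₃, h₃⟩ := fc2_decay
  refine ⟨C₂ * (C₃ * C₁), ?_, ?_⟩
  · exact one_le_mul_of_one_le_of_one_le hC₂ (one_le_mul_of_one_le_of_one_le hC₃ hC₁)
  · intro M f hM hf hfM hper
    obtain ⟨G, hGc, hGy, hGx, hGp, hG0, hGf, hGb, hGdy, hGdx, hGs⟩ := h₁ M f hM hf hfM hper
    have hC₁M : 0 ≤ C₁ * M := mul_nonneg (by linarith) hM
    have hdec := h₃ (C₁ * M) G hC₁M hGc hGy hGx hGp hG0 hGb hGdy hGdx
    have hC₃M : 0 ≤ C₃ * (C₁ * M) := mul_nonneg (by linarith) hC₁M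
    have hBd := h₂ (C₃ * (C₁ * M)) (fc2 G) hC₃M hdec
    have hBd' : Bd (fc2 G) 60 (C₂ * (C₃ * C₁) * M) := by
      have e : C₂ * (C₃ * C₁) * M = C₂ * (C₃ * (C₁ * M)) := by ring
      rw [e]; exact hBd
    refine ⟨fc2 G, fc2_real G, hBd', ?_, ?_⟩
    · intro x y hy
      have h := fourier2 hGc hGp hG0 (hBd'.mono (Nat.zero_le 60) le_rfl) x y (by linarith)
      rw [h, hGf x y hy]
    · intro hfy k hk
      exact fc2_supp (hGs hfy) k hk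

end BBK
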