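import Pool.Agent.Lib_helper16.BBK.Defs
import Pool.Agent.Lib_helper16.BBK.PA

open Set

namespace BBK

theorem K1_diffAt {r : ℝ} {f : ℂ → ℂ} (hf : P r f) : ∀ z ∈ S r, DifferentiableAt ℂ f z :=
  fun _ hz => (hf.hasDerivAt hz).differentiableAt

/-- Cauchy estimate -/
theorem cauchy {r rho M : ℝ} {f : ℂ → ℂ} (hf : P r f) (hM : B r f M) (h0 : 0 < rho) :
    B (r - rho) (deriv f) (M / rho) := by
  intro z hz
  have hz' : |z.im| < r - rho := hz
  have hsub : Metric.closedBall z rho ⊆ S r := by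
    intro w hw
    have h1 : ‖w - z‖ ≤ rho := by
      rwa [Metric.mem_closedBall, dist_eq_norm] at hw
    have h2 : |(w - z).im| ≤ rho := (Complex.abs_im_le_norm _).trans h1
    have h3 : w.im = (w - z).im + z.im := by rw [Complex.sub_im]; ring
    show |w.im| < r
    rw [h3]
    calc |(w - z).im + z.im| ≤ |(w - z).im| + |z.im| := abs_add_le _ _
      _ < rho + (r - rho) := add_lt_add_of_le_of_lt h2 hz'
      _ = r := by ring
  refine Complex.norm_deriv_le_of_forall_mem_sphere_norm_le h0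
    (hf.diff.diffContOnCl_ball hsub) ?_
  intro w hw
  exact hM w (hsub (Metric.sphere_subset_closedBall hw))

/-- a real function with small derivative has small imaginary part -/
theorem im_le {r nu : ℝ} {f : ℂ → ℂ} (hf : P r f) (h : B r (deriv f) nu) :
    ∀ z ∈ S r, |(f z).im| ≤ nu * |z.im| := by
  intro z hz
  have hr : 0 < r := pos_of_mem_S hz
  have hx : (z.re : ℂ) ∈ S r := real_mem_S hr z.re
  have h1 := (S_convex r).norm_image_sub_le_of_norm_deriv_le (K1_diffAt hf) h hx hz
  have h2 : z - (z.re : ℂ) = (z.im : ℂ) * Complex.I := by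
    apply Complex.ext <;> simp
  have h3 : ‖z - (z.re : ℂ)‖ = |z.im| := by
    rw [h2, norm_mul, Complex.norm_I, mul_one, Complex.norm_real, Real.norm_eq_abs]
  have h4 : (f z).im = (f z - f (z.re : ℂ)).im := by
    rw [Complex.sub_im, hf.im_real hr, sub_zero]
  rw [h4]
  rw [h3] at h1
  exact (Complex.abs_im_le_norm _).trans h1

/-- Lipschitz on the real line -/
theorem real_lip {r nu : ℝ} {f : ℂ → ℂ} (hr : 0 < r) (hf : P r f) (h : B r (deriv f) nu) (x y : ℝ) :
    ‖f (x : ℂ) - f (y : ℂ)‖ ≤ nu * |x - y| := by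
  have h1 := (S_convex r).norm_image_sub_le_of_norm_deriv_le (K1_diffAt hf) h
    (real_mem_S hr y) (real_mem_S hr x)
  have h2 : ‖(x : ℂ) - (y : ℂ)‖ = |x - y| := by
    rw [← Complex.ofReal_sub, Complex.norm_real, Real.norm_eq_abs]
  rwa [h2] at h1

end BBK
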