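import Mathlib

namespace BBK

/-- the algebra of the Newton step -/
theorem newton_alg {u' v' uR vR e1 e2 e1' e2' Ax Ay Bx By mu w wR zz zzR dl : ℂ}
    (h1 : 1 + uR ≠ 0)
    (row1 : (1 + mu * Ax) * (1 + u') + mu * Ay * v' = 1 + uR + e1')
    (row2 : mu * Bx * (1 + u') + (1 + mu * By) * v' = vR + e2')
    (hw : (wR - w) * (1 + uR) = e1 + mu * Ay * zz)
    (hZ : (1 + uR) * zzR - (1 + u') * zz = (1 + uR) * (e2 - dl) - vR * e1) :
    (e1 + mu * Ax * ((1 + u') * w) + mu * Ay * (v' * w + zz) + (1 + u') * w - (1 + uR) * wR = e1' * w) ∧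
    (e2 + mu * Bx * ((1 + u') * w) + mu * By * (v' * w + zz) + (v' * w + zz) - (vR * wR + zzR) - dl
      = e2' * w + (((1 + mu * Ax) * (1 + mu * By) - mu * Ay * (mu * Bx) - 1) * (1 + u')
        - (1 + mu * By) * e1' + mu * Ay * e2') * zz / (1 + uR)) := by
  refine ⟨?_, ?_⟩
  · linear_combination w * row1 - hw
  · field_simp
    linear_combination (1 + uR) * w * row2 - vR * hw - hZ - zz * (1 + mu * By) * row1 + zz * mu * Ay * row2

end BBK
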