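import Pool.Agent.Lib_helper16.BBK.Defs
import Pool.Agent.Lib_helper16.BBK.PA

open Set

namespace BBK

theorem K2_mem {r y : ℝ} (hy : |y| < r) (x : ℝ) : (x : ℂ) + (y : ℂ) * Complex.I ∈ S r := by
  simp only [S, mem_ofPred_eq, Complex.add_im, Complex.ofReal_im, Complex.mul_im, Complex.ofReal_re,
    Complex.I_im, Complex.I_re, mul_one, mul_zero, zero_add, add_zero]
  exact hy

theorem K2_exp_per (k : ℤ) (z : ℂ) :
    Complex.exp (-(2 * (Real.pi : ℂ) * Complex.I * (k : ℂ) * (z + 1))) =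
      Complex.exp (-(2 * (Real.pi : ℂ) * Complex.I * (k : ℂ) * z)) := by
  have h : -(2 * (Real.pi : ℂ) * Complex.I * (k : ℂ) * (z + 1)) =
      -(2 * (Real.pi : ℂ) * Complex.I * (k : ℂ) * z) + ((-k : ℤ) : ℂ) * (2 * (Real.pi : ℂ) * Complex.I) := by
    push_cast; ring
  rw [h, Complex.exp_add, Complex.exp_int_mul_two_pi_mul_I, mul_one]

/-- shift of the contour -/
theorem fc_shift {r : ℝ} {f : ℂ → ℂ} (hf : P r f) (y : ℝ) (hy : |y| < r) (k : ℤ) :
    ∫ x in (0 : ℝ)..1, f ((x : ℂ) + (y : ℂ) * Complex.I) *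
      Complex.exp (-(2 * (Real.pi : ℂ) * Complex.I * (k : ℂ) * ((x : ℂ) + (y : ℂ) * Complex.I))) = fc f k := by
  set g : ℂ → ℂ := fun z => f z * Complex.exp (-(2 * (Real.pi : ℂ) * Complex.I * (k : ℂ) * z)) with hg
  have hr : 0 < r := lt_of_le_of_lt (abs_nonneg y) hy
  have hgd : DifferentiableOn ℂ g (S r) := by
    apply hf.diff.mul
    apply Differentiable.differentiableOn
    fun_prop
  have hgp : ∀ z ∈ S r, g (z + 1) = g z := by
    intro z hz
    simp only [hg]
    rw [hf.per z hz, K2_exp_per]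
  have hw1 : (1 + (y : ℂ) * Complex.I).re = 1 := by simp
  have hw2 : (1 + (y : ℂ) * Complex.I).im = y := by simp
  have key := Complex.integral_boundary_rect_eq_zero_of_differentiableOn g 0 (1 + (y : ℂ) * Complex.I)
    (by
      apply hgd.mono
      intro z hz
      rw [Complex.mem_reProdIm] at hz
      have h2 := hz.2
      rw [hw2, Complex.zero_im] at h2
      simp only [S, mem_ofPred_eq]
      have h3 : |z.im - 0| ≤ |y - 0| := abs_sub_left_of_mem_uIcc h2
      rw [sub_zero, sub_zero] at h3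
      exact lt_of_le_of_lt h3 hy)
  rw [hw1, hw2, Complex.zero_re, Complex.zero_im] at key
  have hvert : (∫ t : ℝ in (0:ℝ)..y, g (((1:ℝ) : ℂ) + t * Complex.I)) =
      ∫ t : ℝ in (0:ℝ)..y, g (((0:ℝ) : ℂ) + t * Complex.I) := by
    apply intervalIntegral.integral_congr
    intro t ht
    have h3 : |t - 0| ≤ |y - 0| := abs_sub_left_of_mem_uIcc ht
    rw [sub_zero, sub_zero] at h3
    have h4 := K2_mem (lt_of_le_of_lt h3 hy) 0
    have h5 := hgp _ h4
    simp only at h5 ⊢
    rw [← h5]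
    congr 1
    push_cast; ring
  rw [hvert] at key
  have h6 : (∫ x : ℝ in (0:ℝ)..1, g ((x : ℂ) + ((0:ℝ) : ℂ) * Complex.I)) =
      ∫ x : ℝ in (0:ℝ)..1, g ((x : ℂ) + (y : ℂ) * Complex.I) := by
    have h7 : (∫ x : ℝ in (0:ℝ)..1, g ((x : ℂ) + ((0:ℝ) : ℂ) * Complex.I)) -
      (∫ x : ℝ in (0:ℝ)..1, g ((x : ℂ) + (y : ℂ) * Complex.I)) = 0 := by
      rw [add_sub_cancel_right] at key
      exact key
    exact sub_eq_zero.mp h7
  calc ∫ x in (0 : ℝ)..1, f ((x : ℂ) + (y : ℂ) * Complex.I) *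
      Complex.exp (-(2 * (Real.pi : ℂ) * Complex.I * (k : ℂ) * ((x : ℂ) + (y : ℂ) * Complex.I)))
      = ∫ x : ℝ in (0:ℝ)..1, g ((x : ℂ) + (y : ℂ) * Complex.I) := rfl
    _ = ∫ x : ℝ in (0:ℝ)..1, g ((x : ℂ) + ((0:ℝ) : ℂ) * Complex.I) := h6.symm
    _ = fc f k := by
      simp only [fc, hg, Complex.ofReal_zero, zero_mul, add_zero]

theorem K2_norm_exp (k : ℤ) (x y : ℝ) :
    ‖Complex.exp (-(2 * (Real.pi : ℂ) * Complex.I * (k : ℂ) * ((x : ℂ) + (y : ℂ) * Complex.I)))‖ =
      Real.exp (2 * Real.pi * (k : ℝ) * y) := by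
  rw [Complex.norm_exp]
  congr 1
  simp [Complex.mul_re, Complex.mul_im]

theorem K2_norm_aux {r M : ℝ} {f : ℂ → ℂ} (hf : P r f) (hM : B r f M) (k : ℤ) (y : ℝ) (hy : |y| < r) :
    ‖fc f k‖ ≤ M * Real.exp (2 * Real.pi * (k : ℝ) * y) := by
  rw [← fc_shift hf y hy k]
  have h := intervalIntegral.norm_integral_le_of_norm_le_const (a := (0:ℝ)) (b := 1)
    (C := M * Real.exp (2 * Real.pi * (k : ℝ) * y))
    (f := fun x : ℝ => f ((x : ℂ) + (y : ℂ) * Complex.I) *
      Complex.exp (-(2 * (Real.pi : ℂ) * Complex.I * (k : ℂ) * ((x : ℂ) + (y : ℂ) * Complex.I))))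
    (by
      intro x _
      rw [norm_mul, K2_norm_exp]
      exact mul_le_mul_of_nonneg_right (hM _ (K2_mem hy x)) (Real.exp_pos _).le)
  simpa using h

theorem fc_norm {r M : ℝ} {f : ℂ → ℂ} (hr : 0 < r) (hf : P r f) (hM : B r f M) (k : ℤ) :
    ‖fc f k‖ ≤ M * Real.exp (-(2 * Real.pi * |(k : ℝ)| * r)) := by
  have h1 : ∀ s ∈ Ioo 0 r, ‖fc f k‖ ≤ M * Real.exp (-(2 * Real.pi * |(k : ℝ)| * s)) := by
    intro s hs
    rcases le_total 0 (k : ℝ) with hk | hk
    · have h := K2_norm_aux hf hM k (-s) (by rw [abs_neg, abs_of_pos hs.1]; exact hs.2)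
      rw [abs_of_nonneg hk]
      have he : -(2 * Real.pi * (k : ℝ) * s) = 2 * Real.pi * (k : ℝ) * (-s) := by ring
      rw [he]; exact h
    · have h := K2_norm_aux hf hM k s (by rw [abs_of_pos hs.1]; exact hs.2)
      rw [abs_of_nonpos hk]
      have he : -(2 * Real.pi * (-(k : ℝ)) * s) = 2 * Real.pi * (k : ℝ) * s := by ring
      rw [he]; exact h
  have hc : Filter.Tendsto (fun s : ℝ => M * Real.exp (-(2 * Real.pi * |(k : ℝ)| * s)))
      (nhdsWithin r (Iio r)) (nhds (M * Real.exp (-(2 * Real.pi * |(k : ℝ)| * r)))) := by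
    apply Filter.Tendsto.mono_left _ nhdsWithin_le_nhds
    apply Continuous.tendsto
    fun_prop
  apply ge_of_tendsto hc
  have : Ioo 0 r ∈ nhdsWithin r (Iio r) := Ioo_mem_nhdsLT hr
  filter_upwards [this] with s hs
  exact h1 s hs

theorem K2_summable {q : ℝ} (hq : 0 < q) (C : ℝ) (c : ℤ → ℂ)
    (hc : ∀ k : ℤ, ‖c k‖ ≤ C * Real.exp (-(q * |(k : ℝ)|))) : Summable c := by
  have hgeo : Summable (fun n : ℕ => C * Real.exp (-(q * (n : ℝ)))) := by
    apply Summable.mul_left
    have h1 : (fun n : ℕ => Real.exp (-(q * (n : ℝ)))) = fun n : ℕ => (Real.exp (-q)) ^ n := by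
      ext n
      rw [← Real.exp_nat_mul]
      congr 1; ring
    rw [h1]
    apply summable_geometric_of_lt_one (Real.exp_pos _).le
    rw [Real.exp_lt_one_iff]
    linarith
  apply Summable.of_nat_of_neg
  · apply Summable.of_norm_bounded hgeo
    intro n
    have := hc (n : ℤ)
    simpa using this
  · apply Summable.of_norm_bounded hgeo
    intro n
    have := hc (-(n : ℤ))
    simpa using this

/-- Fourier series on the strip -/
theorem fc_hasSum {r M : ℝ} {f : ℂ → ℂ} (hf : P r f) (hM : B r f M) (z : ℂ) (hz : z ∈ S r) :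
    HasSum (fun k : ℤ => fc f k * Complex.exp (2 * (Real.pi : ℂ) * Complex.I * (k : ℂ) * z)) (f z) := by
  set y : ℝ := z.im with hyd
  have hy : |y| < r := hz
  have hr : 0 < r := lt_of_le_of_lt (abs_nonneg y) hy
  have : Fact (0 < (1:ℝ)) := ⟨one_pos⟩
  set g : ℝ → ℂ := fun x => f ((x : ℂ) + (y : ℂ) * Complex.I) with hg
  have hgc : Continuous g := by
    rw [continuous_iff_continuousAt]
    intro x
    have h1 : ContinuousAt f ((x : ℂ) + (y : ℂ) * Complex.I) :=
      (hf.diff.differentiableAt ((S_isOpen r).mem_nhds (K2_mem hy x))).continuousAt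
    have h2 : ContinuousAt (fun x : ℝ => (x : ℂ) + (y : ℂ) * Complex.I) x := by fun_prop
    exact ContinuousAt.comp (f := fun x : ℝ => (x : ℂ) + (y : ℂ) * Complex.I) h1 h2
  have hgp : Function.Periodic g 1 := by
    intro x
    simp only [hg]
    rw [← hf.per _ (K2_mem hy x)]
    congr 1
    push_cast; ring
  set G : C(AddCircle (1:ℝ), ℂ) := ⟨hgp.lift, by
    have : Continuous (hgp.lift ∘ (QuotientAddGroup.mk : ℝ → AddCircle (1:ℝ))) := hgc
    exact ((isQuotientMap_quotient_mk').continuous_iff).mpr this⟩ with hG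
  have hGx : ∀ x : ℝ, G (x : AddCircle (1:ℝ)) = g x := fun x => rfl
  have hcoef : ∀ n : ℤ, fourierCoeff G n = fc f n * Complex.exp (-(2 * (Real.pi : ℂ) * (n : ℂ) * (y : ℂ))) := by
    intro n
    rw [fourierCoeff_eq_intervalIntegral _ n 0, ← fc_shift hf y hy n, ← intervalIntegral.integral_mul_const]
    simp only [div_one, one_smul, zero_add]
    apply intervalIntegral.integral_congr
    intro x _
    simp only [smul_eq_mul]
    rw [fourier_coe_apply, hGx, mul_assoc (f _), ← Complex.exp_add, mul_comm]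
    simp only [hg]
    congr 2
    push_cast
    rw [div_one]
    have hI : Complex.I * Complex.I = -1 := Complex.I_mul_I
    linear_combination (2 * (Real.pi : ℂ) * (n : ℂ) * (y : ℂ)) * hI
  have hsum : Summable (fourierCoeff G) := by
    have hq : 0 < 2 * Real.pi * (r - |y|) := by
      have : 0 < r - |y| := by linarith
      have := Real.pi_pos
      positivity
    have hM0 : 0 ≤ M := hM.nonneg hr
    apply K2_summable hq M
    intro k
    rw [hcoef, norm_mul, Complex.norm_exp]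
    have h1 := fc_norm hr hf hM k
    have h2 : (-(2 * (Real.pi : ℂ) * (k : ℂ) * (y : ℂ))).re = -(2 * Real.pi * (k : ℝ) * y) := by
      have : (-(2 * (Real.pi : ℂ) * (k : ℂ) * (y : ℂ))) = ((-(2 * Real.pi * (k : ℝ) * y) : ℝ) : ℂ) := by
        push_cast; ring
      rw [this, Complex.ofReal_re]
    rw [h2]
    calc ‖fc f k‖ * Real.exp (-(2 * Real.pi * (k : ℝ) * y))
        ≤ (M * Real.exp (-(2 * Real.pi * |(k : ℝ)| * r))) * Real.exp (2 * Real.pi * |(k : ℝ)| * |y|) := by
          apply mul_le_mul h1 _ (Real.exp_pos _).le (by positivity)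
          apply Real.exp_le_exp.mpr
          have h3 : -((k : ℝ) * y) ≤ |(k : ℝ)| * |y| := by
            rw [← abs_mul]; exact neg_le_abs _
          have h4 := Real.pi_pos
          nlinarith
      _ = M * Real.exp (-(2 * Real.pi * (r - |y|) * |(k : ℝ)|)) := by
          rw [mul_assoc, ← Real.exp_add]
          congr 2
          ring
  have hfin := has_pointwise_sum_fourier_series_of_summable hsum ((z.re : ℝ) : AddCircle (1:ℝ))
  have hz2 : ((z.re : ℝ) : ℂ) + (y : ℂ) * Complex.I = z := Complex.re_add_im z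
  have hval : G ((z.re : ℝ) : AddCircle (1:ℝ)) = f z := by
    rw [hGx]; simp only [hg]; rw [hz2]
  rw [hval] at hfin
  have hfun : (fun k : ℤ => fc f k * Complex.exp (2 * (Real.pi : ℂ) * Complex.I * (k : ℂ) * z)) =
      fun i => fourierCoeff G i • fourier i ((z.re : ℝ) : AddCircle (1:ℝ)) := by
    ext k
    rw [hcoef, fourier_coe_apply, smul_eq_mul, mul_assoc (fc f k) (Complex.exp _), ← Complex.exp_add]
    congr 2
    push_cast
    rw [div_one]
    have hI : Complex.I * Complex.I = -1 := Complex.I_mul_I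
    linear_combination (2 * (Real.pi : ℂ) * (k : ℂ) * (y : ℂ)) * hI -
      (2 * (Real.pi : ℂ) * Complex.I * (k : ℂ)) * hz2
  rw [hfun]
  exact hfin

theorem fc_conj {r : ℝ} {f : ℂ → ℂ} (hr : 0 < r) (hf : P r f) (k : ℤ) :
    fc f (-k) = (starRingEnd ℂ) (fc f k) := by
  rw [fc, fc, intervalIntegral.integral_of_le zero_le_one, intervalIntegral.integral_of_le zero_le_one,
    ← integral_conj]
  congr 1
  ext x
  rw [map_mul, ← Complex.exp_conj]
  congr 1
  · rw [← hf.conj _ (real_mem_S hr x), Complex.conj_ofReal]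
  · congr 1
    simp only [map_neg, map_mul, Complex.conj_ofReal, Complex.conj_I, map_ofNat, map_intCast]
    push_cast
    ring

theorem fc_zero {r : ℝ} {f : ℂ → ℂ} (hr : 0 < r) (hf : P r f) : fc f 0 = (avg f : ℂ) := by
  rw [avg, ← intervalIntegral.integral_ofReal, fc]
  apply intervalIntegral.integral_congr
  intro x _
  simp only [Int.cast_zero, mul_zero, zero_mul, neg_zero, Complex.exp_zero, mul_one]
  exact (hf.coe_re hr x).symm

theorem fc_norm_real {r a : ℝ} {f : ℂ → ℂ} (hr : 0 < r) (hf : P r f) (ha : ∀ x : ℝ, ‖f (x : ℂ)‖ ≤ a) (k : ℤ) :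
    ‖fc f k‖ ≤ a := by
  rw [fc]
  have h := intervalIntegral.norm_integral_le_of_norm_le_const (a := (0:ℝ)) (b := 1) (C := a)
    (f := fun x : ℝ => f (x : ℂ) *
      Complex.exp (-(2 * (Real.pi : ℂ) * Complex.I * (k : ℂ) * (x : ℂ))))
    (by
      intro x _
      have h1 := K2_norm_exp k x 0
      simp only [Complex.ofReal_zero, zero_mul, add_zero, mul_zero, Real.exp_zero] at h1
      rw [norm_mul, h1, mul_one]
      exact ha x)
  simpa using h

end BBK
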