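import Pool.Agent.Lib_helper16.BBK.Defs
import Pool.Agent.Lib_helper16.BBK.PA
import Pool.Agent.Lib_helper16.BBK.K2

open Set

namespace BBK

/-- small divisors -/
theorem small_div {al mu M : ℝ} (hD : Dio al mu M) (k : ℤ) (hk : k ≠ 0) :
    4 * (mu / (M * |(k : ℝ)|)) ≤
      ‖Complex.exp (2 * (Real.pi : ℂ) * Complex.I * (k : ℂ) * (al : ℂ)) - 1‖ := by
  have hpi := Real.pi_pos
  set m : ℤ := round ((k : ℝ) * al) with hm
  set x : ℝ := (k : ℝ) * al - m with hx
  have h1 := hD k m hk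
  have h2 : |x| ≤ 1 / 2 := abs_sub_round _
  have e1 : Complex.exp (2 * (Real.pi : ℂ) * Complex.I * (k : ℂ) * (al : ℂ)) =
      Complex.exp (Complex.I * ((2 * Real.pi * x : ℝ) : ℂ)) := by
    have e2 : 2 * (Real.pi : ℂ) * Complex.I * (k : ℂ) * (al : ℂ) =
        Complex.I * ((2 * Real.pi * x : ℝ) : ℂ) + (m : ℂ) * (2 * Real.pi * Complex.I) := by
      rw [hx]
      push_cast
      ring
    rw [e2, Complex.exp_add, Complex.exp_int_mul_two_pi_mul_I, mul_one]
  rw [e1, Complex.norm_exp_I_mul_ofReal_sub_one, norm_mul, Real.norm_eq_abs, Real.norm_eq_abs]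
  have e3 : 2 * Real.pi * x / 2 = Real.pi * x := by ring
  rw [e3]
  have h3 : |Real.pi * x| ≤ Real.pi / 2 := by
    rw [abs_mul, abs_of_pos hpi]
    nlinarith
  have h4 := Real.mul_abs_le_abs_sin h3
  rw [abs_mul, abs_of_pos hpi] at h4
  have h5 : 2 / Real.pi * (Real.pi * |x|) = 2 * |x| := by
    field_simp
  rw [h5] at h4
  have h6 : |(2 : ℝ)| = 2 := abs_of_pos two_pos
  rw [h6]
  linarith

/-- the coefficients of the solution -/
noncomputable def K3_b (f : ℂ → ℂ) (al : ℝ) (k : ℤ) : ℂ :=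
  if k = 0 then 0 else
    fc f k / (Complex.exp (2 * (Real.pi : ℂ) * Complex.I * (k : ℂ) * (al : ℂ)) - 1)

theorem K3_norm_exp (k : ℤ) (z : ℂ) :
    ‖Complex.exp (2 * (Real.pi : ℂ) * Complex.I * (k : ℂ) * z)‖ =
      Real.exp (-(2 * Real.pi * k * z.im)) := by
  rw [Complex.norm_exp]
  congr 1
  simp [Complex.mul_re, Complex.mul_im]

theorem K3_exp_le (k : ℤ) {z : ℂ} {s : ℝ} (hz : |z.im| ≤ s) :
    ‖Complex.exp (2 * (Real.pi : ℂ) * Complex.I * (k : ℂ) * z)‖ ≤
      Real.exp (2 * Real.pi * |(k : ℝ)| * s) := by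
  have hpi := Real.pi_pos
  rw [K3_norm_exp]
  apply Real.exp_le_exp.2
  have h1 : -((k : ℝ) * z.im) ≤ |(k : ℝ)| * s := by
    calc -((k : ℝ) * z.im) ≤ |(k : ℝ) * z.im| := neg_le_abs _
      _ = |(k : ℝ)| * |z.im| := abs_mul _ _
      _ ≤ |(k : ℝ)| * s := mul_le_mul_of_nonneg_left hz (abs_nonneg _)
  nlinarith [mul_le_mul_of_nonneg_left h1 (by positivity : (0 : ℝ) ≤ 2 * Real.pi)]

theorem K3_b_norm {al mu M r G : ℝ} {f : ℂ → ℂ} (hD : Dio al mu M) (hM : 1 ≤ M) (hmu : 0 < mu)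
    (hr : 0 < r) (hf : P r f) (hG : B r f G) (k : ℤ) :
    ‖K3_b f al k‖ ≤ G * M / (4 * mu) * (|(k : ℝ)| * Real.exp (-(2 * Real.pi * |(k : ℝ)| * r))) := by
  have hG0 := hG.nonneg hr
  unfold K3_b
  split_ifs with hk
  · rw [norm_zero]
    positivity
  · have hk' : 0 < |(k : ℝ)| := abs_pos.2 (by exact_mod_cast hk)
    have h1 := small_div hD k hk
    have h2 := fc_norm hr hf hG k
    have h3 : 0 < 4 * (mu / (M * |(k : ℝ)|)) := by positivity
    rw [norm_div]
    calc ‖fc f k‖ / ‖Complex.exp (2 * (Real.pi : ℂ) * Complex.I * (k : ℂ) * (al : ℂ)) - 1‖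
        ≤ (G * Real.exp (-(2 * Real.pi * |(k : ℝ)| * r))) / (4 * (mu / (M * |(k : ℝ)|))) :=
          div_le_div₀ (by positivity) h2 h3 h1
      _ = G * M / (4 * mu) * (|(k : ℝ)| * Real.exp (-(2 * Real.pi * |(k : ℝ)| * r))) := by
          field_simp

/-- the sum of `|k| q^|k|` -/
theorem K3_hasSum {q : ℝ} (h0 : 0 ≤ q) (h1 : q < 1) :
    HasSum (fun k : ℤ => |(k : ℝ)| * q ^ k.natAbs) (2 * q / (1 - q) ^ 2) := by
  have hq : ‖q‖ < 1 := by rwa [Real.norm_eq_abs, abs_of_nonneg h0]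
  have hs := hasSum_coe_mul_geometric_of_norm_lt_one hq
  have hs' : HasSum (fun n : ℕ => ((n + 1 : ℕ) : ℝ) * q ^ (n + 1)) (q / (1 - q) ^ 2) := by
    have := (hasSum_nat_add_iff' (f := fun n : ℕ => (n : ℝ) * q ^ n) 1).2 hs
    simpa using this
  have key := HasSum.of_nat_of_neg_add_one (f := fun k : ℤ => |(k : ℝ)| * q ^ k.natAbs)
    (m := q / (1 - q) ^ 2) (m' := q / (1 - q) ^ 2) ?_ ?_
  · have e : q / (1 - q) ^ 2 + q / (1 - q) ^ 2 = 2 * q / (1 - q) ^ 2 := by ring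
    rw [e] at key
    exact key
  · refine hs.congr_fun ?_ |> fun h => h
    intro n
    simp
  · refine hs'.congr_fun ?_ |> fun h => h
    intro n
    have e1 : (-((n : ℤ) + 1)).natAbs = n + 1 := by omega
    have e2 : |((-((n : ℤ) + 1) : ℤ) : ℝ)| = ((n + 1 : ℕ) : ℝ) := by
      push_cast
      rw [abs_neg, abs_of_nonneg (by positivity)]
    simp only [e1, e2]

theorem K3_exp_eq (x : ℝ) (k : ℤ) : Real.exp (-(|(k : ℝ)| * x)) = Real.exp (-x) ^ k.natAbs := by
  rw [← Real.exp_nat_mul]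
  congr 1
  rw [Nat.cast_natAbs, Int.cast_abs]
  ring

theorem K3_sum_bound {x : ℝ} (hx : 0 < x) :
    2 * Real.exp (-x) / (1 - Real.exp (-x)) ^ 2 ≤ 2 / x ^ 2 := by
  have h1 : 0 < 1 - Real.exp (-x) := by
    rw [sub_pos, Real.exp_lt_one_iff]
    linarith
  have h2 : x * Real.exp (-(x / 2)) ≤ 1 - Real.exp (-x) := by
    have h3 : x ≤ Real.exp (x / 2) - Real.exp (-(x / 2)) := by
      have := Real.self_le_sinh_iff.2 (by linarith : 0 ≤ x / 2)
      rw [Real.sinh_eq] at this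
      linarith
    have h4 := Real.exp_pos (-(x / 2))
    have h5 : Real.exp (x / 2) * Real.exp (-(x / 2)) = 1 := by
      rw [← Real.exp_add, add_neg_cancel, Real.exp_zero]
    have h6 : Real.exp (-(x / 2)) * Real.exp (-(x / 2)) = Real.exp (-x) := by
      rw [← Real.exp_add]
      congr 1
      ring
    nlinarith [mul_le_mul_of_nonneg_right h3 h4.le]
  rw [div_le_div_iff₀ (by positivity) (by positivity)]
  have h6 : Real.exp (-(x / 2)) * Real.exp (-(x / 2)) = Real.exp (-x) := by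
    rw [← Real.exp_add]
    congr 1
    ring
  have h7 : 0 ≤ x * Real.exp (-(x / 2)) := by positivity
  nlinarith [mul_le_mul h2 h2 h7 h1.le]

/-- the solution -/
noncomputable def K3_w (f : ℂ → ℂ) (al : ℝ) (z : ℂ) : ℂ :=
  ∑' k : ℤ, K3_b f al k * Complex.exp (2 * (Real.pi : ℂ) * Complex.I * (k : ℂ) * z)

theorem K3_term {al mu M r G : ℝ} {f : ℂ → ℂ} (hD : Dio al mu M) (hM : 1 ≤ M) (hmu : 0 < mu)
    (hr : 0 < r) (hf : P r f) (hG : B r f G) {rho : ℝ} (hrho : 0 < rho) {z : ℂ}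
    (hz : |z.im| ≤ r - rho) (k : ℤ) :
    ‖K3_b f al k * Complex.exp (2 * (Real.pi : ℂ) * Complex.I * (k : ℂ) * z)‖ ≤
      G * M / (4 * mu) * (|(k : ℝ)| * Real.exp (-(2 * Real.pi * rho)) ^ k.natAbs) := by
  have hG0 := hG.nonneg hr
  have h1 := K3_b_norm hD hM hmu hr hf hG k
  have h2 := K3_exp_le k hz
  rw [norm_mul]
  calc ‖K3_b f al k‖ * ‖Complex.exp (2 * (Real.pi : ℂ) * Complex.I * (k : ℂ) * z)‖
      ≤ (G * M / (4 * mu) * (|(k : ℝ)| * Real.exp (-(2 * Real.pi * |(k : ℝ)| * r)))) *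
        Real.exp (2 * Real.pi * |(k : ℝ)| * (r - rho)) :=
        mul_le_mul h1 h2 (norm_nonneg _) (by positivity)
    _ = G * M / (4 * mu) * (|(k : ℝ)| * Real.exp (-(|(k : ℝ)| * (2 * Real.pi * rho)))) := by
        have e : Real.exp (-(|(k : ℝ)| * (2 * Real.pi * rho))) =
            Real.exp (-(2 * Real.pi * |(k : ℝ)| * r)) *
              Real.exp (2 * Real.pi * |(k : ℝ)| * (r - rho)) := by
          rw [← Real.exp_add]
          congr 1
          ring
        rw [e]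
        ring
    _ = G * M / (4 * mu) * (|(k : ℝ)| * Real.exp (-(2 * Real.pi * rho)) ^ k.natAbs) := by
        rw [K3_exp_eq]

theorem K3_exp_lt {rho : ℝ} (hrho : 0 < rho) : Real.exp (-(2 * Real.pi * rho)) < 1 := by
  rw [Real.exp_lt_one_iff]
  have := Real.pi_pos
  have := mul_pos (mul_pos two_pos this) hrho
  linarith

theorem K3_summable {al mu M r G : ℝ} {f : ℂ → ℂ} (hD : Dio al mu M) (hM : 1 ≤ M) (hmu : 0 < mu)
    (hr : 0 < r) (hf : P r f) (hG : B r f G) {z : ℂ} (hz : z ∈ S r) :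
    Summable (fun k : ℤ => K3_b f al k *
      Complex.exp (2 * (Real.pi : ℂ) * Complex.I * (k : ℂ) * z)) := by
  have hz' : |z.im| < r := hz
  set rho := r - |z.im| with hrho
  have h0 : 0 < rho := by linarith
  refine Summable.of_norm_bounded
    (((K3_hasSum (Real.exp_pos _).le (K3_exp_lt h0)).summable).mul_left (G * M / (4 * mu)))
    (fun k => K3_term hD hM hmu hr hf hG h0 (by rw [hrho]; linarith) k)

theorem K3_bound {al mu M r G : ℝ} {f : ℂ → ℂ} (hD : Dio al mu M) (hM : 1 ≤ M) (hmu : 0 < mu)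
    (hr : 0 < r) (hf : P r f) (hG : B r f G) {rho : ℝ} (hrho : 0 < rho) :
    B (r - rho) (K3_w f al) (G * M / (mu * rho ^ 2)) := by
  intro z hz
  have hz' : |z.im| ≤ r - rho := le_of_lt hz
  have hG0 := hG.nonneg hr
  have hpi := Real.pi_pos
  have hs := (K3_hasSum (Real.exp_pos (-(2 * Real.pi * rho))).le (K3_exp_lt hrho)).mul_left
    (G * M / (4 * mu))
  have h1 : ‖K3_w f al z‖ ≤ G * M / (4 * mu) *
      (2 * Real.exp (-(2 * Real.pi * rho)) / (1 - Real.exp (-(2 * Real.pi * rho))) ^ 2) :=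
    tsum_of_norm_bounded hs (fun k => K3_term hD hM hmu hr hf hG hrho hz' k)
  have h2 := K3_sum_bound (x := 2 * Real.pi * rho) (by positivity)
  have h3 : 2 / (2 * Real.pi * rho) ^ 2 ≤ 4 / rho ^ 2 := by
    rw [div_le_div_iff₀ (by positivity) (by positivity)]
    have : 1 ≤ Real.pi ^ 2 := by nlinarith [Real.pi_gt_three]
    have h4 : 0 < rho ^ 2 := by positivity
    nlinarith [mul_le_mul_of_nonneg_right this h4.le]
  calc ‖K3_w f al z‖ ≤ _ := h1
    _ ≤ G * M / (4 * mu) * (4 / rho ^ 2) :=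
        mul_le_mul_of_nonneg_left (h2.trans h3) (by positivity)
    _ = G * M / (mu * rho ^ 2) := by
        field_simp

theorem K3_diff {al mu M r G : ℝ} {f : ℂ → ℂ} (hD : Dio al mu M) (hM : 1 ≤ M) (hmu : 0 < mu)
    (hr : 0 < r) (hf : P r f) (hG : B r f G) : DifferentiableOn ℂ (K3_w f al) (S r) := by
  intro z hz
  have hz' : |z.im| < r := hz
  set rho := (r - |z.im|) / 2 with hrho
  have h0 : 0 < rho := by linarith
  have hmem : z ∈ S (r - rho) := by
    show |z.im| < r - rho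
    rw [hrho]
    linarith
  have hd : DifferentiableOn ℂ (K3_w f al) (S (r - rho)) := by
    refine Complex.differentiableOn_tsum_of_summable_norm
      (((K3_hasSum (Real.exp_pos _).le (K3_exp_lt h0)).summable).mul_left (G * M / (4 * mu)))
      (fun k => ?_) (S_isOpen _)
      (fun k w hw => K3_term hD hM hmu hr hf hG h0 (le_of_lt hw) k)
    apply Differentiable.differentiableOn
    fun_prop
  exact ((hd z hmem).differentiableAt ((S_isOpen _).mem_nhds hmem)).differentiableWithinAt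

theorem K3_conj {al r : ℝ} {f : ℂ → ℂ} (hr : 0 < r) (hf : P r f) (z : ℂ) :
    K3_w f al ((starRingEnd ℂ) z) = (starRingEnd ℂ) (K3_w f al z) := by
  have hb : ∀ k : ℤ, (starRingEnd ℂ) (K3_b f al (-k)) = K3_b f al k := by
    intro k
    unfold K3_b
    by_cases hk : k = 0
    · simp [hk]
    · have hk' : -k ≠ 0 := neg_ne_zero.2 hk
      rw [if_neg hk, if_neg hk', map_div₀, fc_conj hr hf, Complex.conj_conj, map_sub, map_one,
        ← Complex.exp_conj]
      congr 3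
      rw [map_mul, map_mul, map_mul, map_mul, Complex.conj_ofReal, Complex.conj_I,
        Complex.conj_ofReal, Complex.conj_ofNat, map_intCast]
      push_cast
      ring
  unfold K3_w
  rw [Complex.conj_tsum, ← (Equiv.neg ℤ).tsum_eq (fun k : ℤ => (starRingEnd ℂ) (K3_b f al k *
    Complex.exp (2 * (Real.pi : ℂ) * Complex.I * (k : ℂ) * z)))]
  congr 1
  ext k
  rw [Equiv.neg_apply, map_mul, hb, ← Complex.exp_conj]
  congr 2
  rw [map_mul, map_mul, map_mul, map_mul, Complex.conj_ofReal, Complex.conj_I,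
    Complex.conj_ofNat, map_intCast]
  push_cast
  ring

theorem K3_per {al : ℝ} (f : ℂ → ℂ) (z : ℂ) : K3_w f al (z + 1) = K3_w f al z := by
  unfold K3_w
  congr 1
  ext k
  congr 1
  have e : 2 * (Real.pi : ℂ) * Complex.I * (k : ℂ) * (z + 1) =
      2 * (Real.pi : ℂ) * Complex.I * (k : ℂ) * z + (k : ℂ) * (2 * Real.pi * Complex.I) := by ring
  rw [e, Complex.exp_add, Complex.exp_int_mul_two_pi_mul_I, mul_one]

theorem K3_eq {al mu M r G : ℝ} {f : ℂ → ℂ} (hD : Dio al mu M) (hM : 1 ≤ M) (hmu : 0 < mu)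
    (hr : 0 < r) (hf : P r f) (hG : B r f G) (h0 : avg f = 0) {z : ℂ} (hz : z ∈ S r) :
    K3_w f al (z + (al : ℂ)) - K3_w f al z = f z := by
  have s1 := K3_summable hD hM hmu hr hf hG (add_real_mem_S hz al)
  have s2 := K3_summable hD hM hmu hr hf hG hz
  have s3 := fc_hasSum hf hG z hz
  unfold K3_w
  rw [← s1.tsum_sub s2, ← s3.tsum_eq]
  congr 1
  ext k
  have e : 2 * (Real.pi : ℂ) * Complex.I * (k : ℂ) * (z + al) =
      2 * (Real.pi : ℂ) * Complex.I * (k : ℂ) * al + 2 * (Real.pi : ℂ) * Complex.I * (k : ℂ) * z := by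
    ring
  rw [e, Complex.exp_add]
  unfold K3_b
  by_cases hk : k = 0
  · rw [if_pos hk, hk, fc_zero hr hf, h0]
    simp
  · rw [if_neg hk]
    have hk' : 0 < |(k : ℝ)| := abs_pos.2 (by exact_mod_cast hk)
    have h1 := small_div hD k hk
    have h3 : 0 < 4 * (mu / (M * |(k : ℝ)|)) := by positivity
    have hne : Complex.exp (2 * (Real.pi : ℂ) * Complex.I * (k : ℂ) * (al : ℂ)) - 1 ≠ 0 := by
      rw [← norm_pos_iff]
      linarith
    field_simp

/-- the difference equation `w (z + al) - w z = f z` -/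
theorem solver {al mu M r G : ℝ} {f : ℂ → ℂ} (hD : Dio al mu M) (hM : 1 ≤ M) (hmu : 0 < mu) (hr : 0 < r)
    (hf : P r f) (hG : B r f G) (h0 : avg f = 0) :
    ∃ w : ℂ → ℂ, P r w ∧ (∀ z ∈ S r, w (z + (al : ℂ)) - w z = f z) ∧
      ∀ rho : ℝ, 0 < rho → rho < r → B (r - rho) w (G * M / (mu * rho ^ 2)) :=
  ⟨K3_w f al, ⟨K3_diff hD hM hmu hr hf hG, fun z _ => K3_per f z, fun z _ => K3_conj hr hf z⟩,
    fun _ hz => K3_eq hD hM hmu hr hf hG h0 hz, fun _ hrho _ => K3_bound hD hM hmu hr hf hG hrho⟩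

end BBK
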