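import Pool.Agent.Lib_helper16.BBK.Defs
import Pool.Agent.Lib_helper16.BBK.PA

open Set

namespace BBK

theorem PV_cont {r : ℝ} {f : ℂ → ℂ} (hf : P r f) (hr : 0 < r) : Continuous (fun x : ℝ => f (x : ℂ)) := by
  rw [← continuousOn_univ]
  exact hf.diff.continuousOn.comp Complex.continuous_ofReal.continuousOn (fun x _ => real_mem_S hr x)

theorem PV_contre {r : ℝ} {f : ℂ → ℂ} (hf : P r f) (hr : 0 < r) : Continuous (fun x : ℝ => (f (x : ℂ)).re) :=
  Complex.continuous_re.comp (PV_cont hf hr)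

theorem P.integral_eq {r : ℝ} {f : ℂ → ℂ} (hf : P r f) (hr : 0 < r) :
    ∫ x in (0 : ℝ)..1, f (x : ℂ) = (avg f : ℂ) := by
  unfold avg
  rw [← intervalIntegral.integral_ofReal]
  apply intervalIntegral.integral_congr
  intro x _
  exact (hf.coe_re hr x).symm
theorem avg_add {r : ℝ} {f g : ℂ → ℂ} (hr : 0 < r) (hf : P r f) (hg : P r g) :
    avg (fun z => f z + g z) = avg f + avg g := by
  unfold avg
  rw [← intervalIntegral.integral_add ((PV_contre hf hr).intervalIntegrable _ _)
    ((PV_contre hg hr).intervalIntegrable _ _)]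
  simp
theorem avg_sub {r : ℝ} {f g : ℂ → ℂ} (hr : 0 < r) (hf : P r f) (hg : P r g) :
    avg (fun z => f z - g z) = avg f - avg g := by
  unfold avg
  rw [← intervalIntegral.integral_sub ((PV_contre hf hr).intervalIntegrable _ _)
    ((PV_contre hg hr).intervalIntegrable _ _)]
  simp
theorem avg_const_mul (a : ℝ) (f : ℂ → ℂ) : avg (fun z => (a : ℂ) * f z) = a * avg f := by
  unfold avg
  rw [← intervalIntegral.integral_const_mul]
  simp
theorem avg_mul_const (a : ℝ) (f : ℂ → ℂ) : avg (fun z => f z * (a : ℂ)) = avg f * a := by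
  unfold avg
  rw [← intervalIntegral.integral_mul_const]
  simp
theorem avg_const (a : ℝ) : avg (fun _ => (a : ℂ)) = a := by
  simp [avg]
theorem abs_avg_le {r M : ℝ} {f : ℂ → ℂ} (hr : 0 < r) (hf : P r f) (h : ∀ x : ℝ, ‖f (x : ℂ)‖ ≤ M) :
    |avg f| ≤ M := by
  unfold avg
  have := intervalIntegral.norm_integral_le_of_norm_le_const (a := 0) (b := 1) (C := M)
    (f := fun x : ℝ => (f (x : ℂ)).re) (fun x _ => (Complex.abs_re_le_norm _).trans (h x))
  simpa using this
theorem le_avg {r a : ℝ} {f : ℂ → ℂ} (hr : 0 < r) (hf : P r f) (h : ∀ x : ℝ, a ≤ (f (x : ℂ)).re) :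
    a ≤ avg f := by
  unfold avg
  have h1 : IntervalIntegrable (fun _ : ℝ => a) MeasureTheory.volume 0 1 :=
    continuous_const.intervalIntegrable _ _
  have h2 : IntervalIntegrable (fun x : ℝ => (f (x : ℂ)).re) MeasureTheory.volume 0 1 :=
    (PV_contre hf hr).intervalIntegrable _ _
  have := intervalIntegral.integral_mono_on zero_le_one h1 h2 (fun x _ => h x)
  simpa using this
theorem avg_rot {r : ℝ} {f : ℂ → ℂ} (hr : 0 < r) (hf : P r f) (al : ℝ) :
    avg (fun z => f (z + (al : ℂ))) = avg f := by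
  unfold avg
  have hp : Function.Periodic (fun x : ℝ => (f (x : ℂ)).re) 1 := by
    intro x
    have := hf.per (x : ℂ) (real_mem_S hr x)
    simp [← this]
  have e1 : ∫ x in (0 : ℝ)..1, (f ((x : ℂ) + (al : ℂ))).re = ∫ x in (0 : ℝ)..1, (fun x : ℝ => (f (x : ℂ)).re) (x + al) := by
    apply intervalIntegral.integral_congr
    intro x _
    simp
  rw [e1, intervalIntegral.integral_comp_add_right (fun x : ℝ => (f (x : ℂ)).re) al]
  have := hp.intervalIntegral_add_eq (0 + al) 0
  rw [show (0 : ℝ) + al + 1 = 1 + al by ring, zero_add (1 : ℝ)] at this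
  exact this
theorem avg_deriv {r : ℝ} {f : ℂ → ℂ} (hr : 0 < r) (hf : P r f) : avg (deriv f) = 0 := by
  unfold avg
  have h1 : ∀ x ∈ uIcc (0 : ℝ) 1, HasDerivAt (fun x : ℝ => (f (x : ℂ)).re) ((deriv f (x : ℂ)).re) x := by
    intro x _
    exact (hf.hasDerivAt (real_mem_S hr x)).real_of_complex
  rw [intervalIntegral.integral_eq_sub_of_hasDerivAt h1 ((PV_contre hf.deriv hr).intervalIntegrable _ _)]
  have := hf.per (0 : ℂ) (by simpa [S] using hr)
  rw [zero_add] at this
  simp [this]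
theorem avg_congr {f g : ℂ → ℂ} (h : ∀ x : ℝ, f (x : ℂ) = g (x : ℂ)) : avg f = avg g := by
  unfold avg
  simp only [h]

end BBK
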