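import Pool.Agent.Lib_helper16.BBK.Defs
import Pool.Agent.Lib_helper16.BBK.PA
import Pool.Agent.Lib_helper16.BBK.PV
import Pool.Agent.Lib_helper16.BBK.K1
import Pool.Agent.Lib_helper16.BBK.K3

open Set
open scoped ContDiff

namespace BBK

theorem N2A_one (r : ℝ) : P r (fun _ => (1 : ℂ)) := by simpa using P.const r 1

/-- `1 + u'` is at least `15/16` -/
theorem N2A_ge {a : ℂ} (h : ‖a‖ ≤ 1 / 16) : 15 / 16 ≤ ‖1 + a‖ := by
  have h1 : ‖(1 : ℂ)‖ ≤ ‖1 + a‖ + ‖a‖ := by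
    calc ‖(1 : ℂ)‖ = ‖(1 + a) - a‖ := by ring_nf
      _ ≤ ‖1 + a‖ + ‖a‖ := norm_sub_le _ _
  rw [norm_one] at h1
  linarith

theorem N2A_le {a : ℂ} (h : ‖a‖ ≤ 1 / 16) : ‖1 + a‖ ≤ 17 / 16 := by
  have h1 := norm_add_le (1 : ℂ) a
  rw [norm_one] at h1
  linarith

theorem N2A_ne {a : ℂ} (h : ‖a‖ ≤ 1 / 16) : 1 + a ≠ 0 := by
  intro h0
  have := N2A_ge h
  rw [h0, norm_zero] at this
  norm_num at this

/-- division by `1 + u'` -/
theorem N2A_div {a b : ℂ} {K : ℝ} (h : ‖a‖ ≤ 1 / 16) (hb : ‖b‖ ≤ K) :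
    ‖b / (1 + a)‖ ≤ 16 / 15 * K := by
  have h1 := N2A_ge h
  have h0 : 0 ≤ K := (norm_nonneg b).trans hb
  rw [norm_div, div_le_iff₀ (by linarith)]
  nlinarith

/-- solution of the two linearized equations, with bounds (`q0 = avg (Ay / ((1+u')(1+u'R)))` is at least `1/(2M)`) -/
theorem newton_solve {al mu M L r kap t0 : ℝ} {u v e1 e2 Ay : ℂ → ℂ}
    (hM : 1 ≤ M) (hmu : 0 < mu) (hD : Dio al mu M) (hr : 0 < r) (hr1 : r ≤ 1) (hL : 1 ≤ L)
    (hk : 0 ≤ kap)
    (hu : P r u) (hv : P r v) (he1 : P r e1) (he2 : P r e2) (hAy : P r Ay)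
    (bu : B r (deriv u) (1 / 16)) (bv : B r (deriv v) (1 / 16))
    (be1 : B r e1 (mu * kap)) (be2 : B r e2 (mu * kap)) (bAy : B r Ay L)
    (ht0 : 1 / M ≤ |t0|) (hAt : ∀ x : ℝ, ‖Ay (x : ℂ) - (t0 : ℂ)‖ ≤ 1 / (8 * M)) :
    ∃ (w zz : ℂ → ℂ) (dl : ℝ), P (r / 2) w ∧ P (r / 2) zz ∧ |dl| ≤ 2 * (mu * kap) ∧
      B (r / 2) zz (10 ^ 3 * L * M ^ 2 * kap / r ^ 2) ∧ B (r / 2) w (10 ^ 4 * L ^ 2 * M ^ 3 * kap / r ^ 4) ∧
      (∀ z ∈ S (r / 2), (w (z + (al : ℂ)) - w z) * (1 + deriv u (z + (al : ℂ)))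
        = e1 z + (mu : ℂ) * Ay z * zz z) ∧
      (∀ z ∈ S (r / 2), (1 + deriv u (z + (al : ℂ))) * zz (z + (al : ℂ)) - (1 + deriv u z) * zz z
        = (1 + deriv u (z + (al : ℂ))) * (e2 z - (dl : ℂ)) - deriv v (z + (al : ℂ)) * e1 z) := by
  have hM0 : 0 < M := by linarith
  have hL0 : 0 < L := by linarith
  have hmk : 0 ≤ mu * kap := mul_nonneg hmu.le hk
  -- the derivatives and their rotations
  have pu1 : P r (fun z => 1 + deriv u z) := (N2A_one r).add hu.deriv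
  have pR : P r (fun z => deriv u (z + (al : ℂ))) := hu.deriv.rot al
  have pu1R : P r (fun z => 1 + deriv u (z + (al : ℂ))) := (N2A_one r).add pR
  have pvR : P r (fun z => deriv v (z + (al : ℂ))) := hv.deriv.rot al
  have bR : B r (fun z => deriv u (z + (al : ℂ))) (1 / 16) := bu.rot al
  have bvR : B r (fun z => deriv v (z + (al : ℂ))) (1 / 16) := bv.rot al
  have hbR : ∀ z ∈ S r, ‖deriv u (z + (al : ℂ))‖ ≤ 1 / 16 := bR
  have hbvR : ∀ z ∈ S r, ‖deriv v (z + (al : ℂ))‖ ≤ 1 / 16 := bvR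
  have hne : ∀ z ∈ S r, 1 + deriv u z ≠ 0 := fun z hz => N2A_ne (bu z hz)
  have hneR : ∀ z ∈ S r, 1 + deriv u (z + (al : ℂ)) ≠ 0 := fun z hz => N2A_ne (hbR z hz)
  -- step 1: `dl`
  have pG0 : P r (fun z => (1 + deriv u (z + (al : ℂ))) * e2 z - deriv v (z + (al : ℂ)) * e1 z) :=
    (pu1R.mul he2).sub (pvR.mul he1)
  obtain ⟨dl, hdl⟩ : ∃ dl : ℝ, dl =
    avg (fun z => (1 + deriv u (z + (al : ℂ))) * e2 z - deriv v (z + (al : ℂ)) * e1 z) := ⟨_, rfl⟩
  have hG0 : ∀ z ∈ S r, ‖(1 + deriv u (z + (al : ℂ))) * e2 z - deriv v (z + (al : ℂ)) * e1 z‖ ≤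
      18 / 16 * (mu * kap) := by
    intro z hz
    have h1 := N2A_le (hbR z hz)
    have h2 := be2 z hz
    have h3 := hbvR z hz
    have h4 := be1 z hz
    have h5 : ‖(1 + deriv u (z + (al : ℂ))) * e2 z‖ ≤ 17 / 16 * (mu * kap) := by
      rw [norm_mul]
      exact mul_le_mul h1 h2 (norm_nonneg _) (by norm_num)
    have h6 : ‖deriv v (z + (al : ℂ)) * e1 z‖ ≤ 1 / 16 * (mu * kap) := by
      rw [norm_mul]
      exact mul_le_mul h3 h4 (norm_nonneg _) (by norm_num)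
    have h7 := norm_sub_le ((1 + deriv u (z + (al : ℂ))) * e2 z) (deriv v (z + (al : ℂ)) * e1 z)
    linarith
  have hdl1 : |dl| ≤ 18 / 16 * (mu * kap) := by
    rw [hdl]
    exact abs_avg_le hr pG0 fun x => hG0 _ (real_mem_S hr x)
  have hdl2 : |dl| ≤ 2 * (mu * kap) := by linarith
  -- step 2: `G`
  have pe2 : P r (fun z => e2 z - (dl : ℂ)) := he2.sub (P.const r dl)
  have pG : P r (fun z => (1 + deriv u (z + (al : ℂ))) * (e2 z - (dl : ℂ)) -
      deriv v (z + (al : ℂ)) * e1 z) := (pu1R.mul pe2).sub (pvR.mul he1)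
  have bG : B r (fun z => (1 + deriv u (z + (al : ℂ))) * (e2 z - (dl : ℂ)) -
      deriv v (z + (al : ℂ)) * e1 z) (3 * (mu * kap)) := by
    intro z hz
    have h1 := hG0 z hz
    have h2 := N2A_le (hbR z hz)
    have h3 : ‖(1 + deriv u (z + (al : ℂ))) * (dl : ℂ)‖ ≤ 17 / 16 * (18 / 16 * (mu * kap)) := by
      rw [norm_mul, Complex.norm_real, Real.norm_eq_abs]
      exact mul_le_mul h2 hdl1 (abs_nonneg _) (by norm_num)
    have h4 : (1 + deriv u (z + (al : ℂ))) * (e2 z - (dl : ℂ)) - deriv v (z + (al : ℂ)) * e1 z =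
        ((1 + deriv u (z + (al : ℂ))) * e2 z - deriv v (z + (al : ℂ)) * e1 z) -
          (1 + deriv u (z + (al : ℂ))) * (dl : ℂ) := by ring
    show ‖(1 + deriv u (z + (al : ℂ))) * (e2 z - (dl : ℂ)) - deriv v (z + (al : ℂ)) * e1 z‖ ≤ _
    rw [h4]
    have h5 := norm_sub_le
      ((1 + deriv u (z + (al : ℂ))) * e2 z - deriv v (z + (al : ℂ)) * e1 z)
      ((1 + deriv u (z + (al : ℂ))) * (dl : ℂ))
    linarith
  have avR : avg (fun z => 1 + deriv u (z + (al : ℂ))) = 1 := by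
    have h1 : avg (fun z => (fun _ : ℂ => (1 : ℂ)) z + (fun z => deriv u (z + (al : ℂ))) z) =
        avg (fun _ : ℂ => (1 : ℂ)) + avg (fun z => deriv u (z + (al : ℂ))) :=
      avg_add hr (N2A_one r) pR
    have h2 : avg (fun _ : ℂ => (1 : ℂ)) = 1 := by
      have := avg_const 1
      simpa using this
    have h3 : avg (fun z => deriv u (z + (al : ℂ))) = 0 := by
      rw [avg_rot hr hu.deriv al, avg_deriv hr hu]
    rw [h2, h3, add_zero] at h1
    exact h1
  have aG : avg (fun z => (1 + deriv u (z + (al : ℂ))) * (e2 z - (dl : ℂ)) -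
      deriv v (z + (al : ℂ)) * e1 z) = 0 := by
    have h1 : avg (fun z => (1 + deriv u (z + (al : ℂ))) * (e2 z - (dl : ℂ)) -
        deriv v (z + (al : ℂ)) * e1 z) =
        avg (fun z => (fun z => (1 + deriv u (z + (al : ℂ))) * e2 z -
          deriv v (z + (al : ℂ)) * e1 z) z -
          (fun z => (1 + deriv u (z + (al : ℂ))) * (dl : ℂ)) z) := by
      refine avg_congr fun x => ?_
      show _ = ((1 + deriv u ((x : ℂ) + (al : ℂ))) * e2 x - deriv v ((x : ℂ) + (al : ℂ)) * e1 x) -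
          (1 + deriv u ((x : ℂ) + (al : ℂ))) * (dl : ℂ)
      ring
    have pdl : P r (fun z => (1 + deriv u (z + (al : ℂ))) * (dl : ℂ)) := pu1R.mul (P.const r dl)
    rw [h1, avg_sub hr pG0 pdl, avg_mul_const dl (fun z => 1 + deriv u (z + (al : ℂ))), avR,
      ← hdl]
    ring
  -- step 3: `Z0`
  obtain ⟨Z0, pZ0, eZ0, bZ0'⟩ := solver hD hM hmu hr pG bG aG
  have h34 : r - r / 4 = 3 * r / 4 := by ring
  have bZ0 : ∀ z ∈ S (3 * r / 4), ‖Z0 z‖ ≤ 48 * M * kap / r ^ 2 := by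
    intro z hz
    have h1 := bZ0' (r / 4) (by linarith) (by linarith) z (by rw [h34]; exact hz)
    refine h1.trans (le_of_eq ?_)
    field_simp
    ring
  have hs3 : 3 * r / 4 ≤ r := by linarith
  have hs2 : r / 2 ≤ 3 * r / 4 := by linarith
  have hr3 : 0 < 3 * r / 4 := by linarith
  have hS3 : S (3 * r / 4) ⊆ S r := S_mono hs3
  have hS2 : S (r / 2) ⊆ S (3 * r / 4) := S_mono hs2
  -- step 4: `q0`
  have pDn : P r (fun z => (1 + deriv u z) * (1 + deriv u (z + (al : ℂ)))) := pu1.mul pu1R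
  have hDn : ∀ z ∈ S r, (1 + deriv u z) * (1 + deriv u (z + (al : ℂ))) ≠ 0 :=
    fun z hz => mul_ne_zero (hne z hz) (hneR z hz)
  have pq : P r (fun z => Ay z / ((1 + deriv u z) * (1 + deriv u (z + (al : ℂ))))) :=
    hAy.div pDn hDn
  obtain ⟨q0, hq0⟩ : ∃ q0 : ℝ, q0 =
    avg (fun z => Ay z / ((1 + deriv u z) * (1 + deriv u (z + (al : ℂ))))) := ⟨_, rfl⟩
  have hq : 1 / (2 * M) ≤ |q0| := by
    -- sign of `t0`
    obtain ⟨s, hs, hst⟩ : ∃ s : ℝ, |s| = 1 ∧ s * t0 = |t0| := by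
      rcases le_total 0 t0 with h | h
      · exact ⟨1, by simp, by rw [abs_of_nonneg h, one_mul]⟩
      · exact ⟨-1, by simp, by rw [abs_of_nonpos h]; ring⟩
    have h1 : 1 / (2 * M) ≤ avg (fun z => (s : ℂ) *
        (Ay z / ((1 + deriv u z) * (1 + deriv u (z + (al : ℂ)))))) := by
      have ps : P r (fun z => (s : ℂ) *
        (Ay z / ((1 + deriv u z) * (1 + deriv u (z + (al : ℂ)))))) := (P.const r s).mul pq
      refine le_avg hr ps fun x => ?_
      have hx := real_mem_S hr x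
      -- real values
      obtain ⟨a, ha⟩ : ∃ a : ℝ, (a : ℂ) = deriv u (x : ℂ) := ⟨_, hu.deriv.coe_re hr x⟩
      obtain ⟨b, hb⟩ : ∃ b : ℝ, (b : ℂ) = deriv u ((x : ℂ) + (al : ℂ)) := ⟨_, pR.coe_re hr x⟩
      obtain ⟨y, hy⟩ : ∃ y : ℝ, (y : ℂ) = Ay (x : ℂ) := ⟨_, hAy.coe_re hr x⟩
      have ha1 : |a| ≤ 1 / 16 := by
        have := bu _ hx
        rwa [← ha, Complex.norm_real, Real.norm_eq_abs] at this
      have hb1 : |b| ≤ 1 / 16 := by
        have := hbR _ hx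
        rwa [← hb, Complex.norm_real, Real.norm_eq_abs] at this
      have hy1 : |y - t0| ≤ 1 / (8 * M) := by
        have := hAt x
        rwa [← hy, ← Complex.ofReal_sub, Complex.norm_real, Real.norm_eq_abs] at this
      have e1 : (s : ℂ) * (Ay (x : ℂ) / ((1 + deriv u (x : ℂ)) *
          (1 + deriv u ((x : ℂ) + (al : ℂ))))) = ((s * (y / ((1 + a) * (1 + b))) : ℝ) : ℂ) := by
        rw [← ha, ← hb, ← hy]
        push_cast
        ring
      show 1 / (2 * M) ≤ ((s : ℂ) * (Ay (x : ℂ) / ((1 + deriv u (x : ℂ)) *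
          (1 + deriv u ((x : ℂ) + (al : ℂ)))))).re
      rw [e1, Complex.ofReal_re]
      obtain ⟨ha2, ha3⟩ := abs_le.1 ha1
      obtain ⟨hb2, hb3⟩ := abs_le.1 hb1
      have hD1 : 0 < (1 + a) * (1 + b) := mul_pos (by linarith) (by linarith)
      have hD2 : (1 + a) * (1 + b) ≤ (17 / 16) * (17 / 16) :=
        mul_le_mul (by linarith) (by linarith) (by linarith) (by norm_num)
      have hsy : 7 / 8 * (1 / M) ≤ s * y := by
        have h2 : s * y = |t0| + s * (y - t0) := by rw [← hst]; ring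
        have h3 : |s * (y - t0)| ≤ 1 / (8 * M) := by
          rw [abs_mul, hs, one_mul]; exact hy1
        have h4 := (abs_le.1 h3).1
        have h5 : 1 / (8 * M) = 1 / 8 * (1 / M) := by field_simp
        rw [h2]
        linarith
      have e2 : s * (y / ((1 + a) * (1 + b))) = (s * y) / ((1 + a) * (1 + b)) := by ring
      rw [e2, le_div_iff₀ hD1]
      have h6 : 1 / (2 * M) = 1 / 2 * (1 / M) := by field_simp
      have h7 : 0 < 1 / M := by positivity
      rw [h6]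
      nlinarith
    rw [avg_const_mul s, ← hq0] at h1
    calc 1 / (2 * M) ≤ s * q0 := h1
      _ ≤ |s * q0| := le_abs_self _
      _ = |q0| := by rw [abs_mul, hs, one_mul]
  have hq0ne : q0 ≠ 0 := by
    intro h0
    rw [h0, abs_zero] at hq
    have : 0 < 1 / (2 * M) := by positivity
    linarith
  -- step 5: `kk`
  have pE : P r (fun z => e1 z / (1 + deriv u (z + (al : ℂ)))) := he1.div pu1R hneR
  have pAZ : P r (fun z => Ay z * Z0 z / ((1 + deriv u z) * (1 + deriv u (z + (al : ℂ))))) :=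
    (hAy.mul pZ0).div pDn hDn
  have hEb : |avg (fun z => e1 z / (1 + deriv u (z + (al : ℂ))))| ≤ 16 / 15 * (mu * kap) := by
    refine abs_avg_le hr pE fun x => ?_
    have hx := real_mem_S hr x
    exact N2A_div (hbR _ hx) (be1 _ hx)
  have hAZb : |avg (fun z => Ay z * Z0 z / ((1 + deriv u z) * (1 + deriv u (z + (al : ℂ)))))| ≤
      16 / 15 * (16 / 15 * (L * (48 * M * kap / r ^ 2))) := by
    refine abs_avg_le hr pAZ fun x => ?_
    have hx := real_mem_S hr x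
    have hx3 := real_mem_S hr3 x
    show ‖Ay (x : ℂ) * Z0 (x : ℂ) / ((1 + deriv u (x : ℂ)) *
      (1 + deriv u ((x : ℂ) + (al : ℂ))))‖ ≤ _
    rw [← div_div]
    refine N2A_div (hbR _ hx) (N2A_div (bu _ hx) ?_)
    rw [norm_mul]
    exact mul_le_mul (bAy _ hx) (bZ0 _ hx3) (norm_nonneg _) hL0.le
  obtain ⟨kk, hkk⟩ : ∃ kk : ℝ, kk = -(avg (fun z => e1 z / (1 + deriv u (z + (al : ℂ)))) +
    mu * avg (fun z => Ay z * Z0 z / ((1 + deriv u z) * (1 + deriv u (z + (al : ℂ)))))) /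
      (mu * q0) := ⟨_, rfl⟩
  have hr2 : 0 < r ^ 2 := by positivity
  have hr21 : r ^ 2 ≤ 1 := pow_le_one₀ hr.le hr1
  -- the basic quantity
  obtain ⟨Y, hY⟩ : ∃ Y : ℝ, Y = L * M ^ 2 * kap / r ^ 2 := ⟨_, rfl⟩
  have hY0 : 0 ≤ Y := by rw [hY]; positivity
  have hkr : kap ≤ kap / r ^ 2 := by
    rw [le_div_iff₀ hr2]
    nlinarith
  have hM2 : 1 ≤ M ^ 2 := one_le_pow₀ hM
  have hkr0 : 0 ≤ kap / r ^ 2 := by positivity
  have hY1 : M * kap / r ^ 2 ≤ Y := by
    have e1 : M * kap / r ^ 2 = M * (kap / r ^ 2) := by ring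
    have e2 : Y = (L * M) * (M * (kap / r ^ 2)) := by rw [hY]; ring
    rw [e1, e2]
    have h1 : 1 ≤ L * M := by nlinarith
    have h2 : 0 ≤ M * (kap / r ^ 2) := by positivity
    nlinarith
  have hkk1 : |kk| ≤ 112 * Y := by
    have h1 : |mu * q0| = mu * |q0| := by rw [abs_mul, abs_of_pos hmu]
    have h2 : 0 < mu * |q0| := mul_pos hmu (abs_pos.2 hq0ne)
    rw [hkk, neg_div, abs_neg, abs_div, h1, div_le_iff₀ h2]
    have h3 : |avg (fun z => e1 z / (1 + deriv u (z + (al : ℂ)))) +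
        mu * avg (fun z => Ay z * Z0 z / ((1 + deriv u z) * (1 + deriv u (z + (al : ℂ)))))| ≤
        16 / 15 * (mu * kap) + mu * (16 / 15 * (16 / 15 * (L * (48 * M * kap / r ^ 2)))) := by
      refine (abs_add_le _ _).trans (add_le_add hEb ?_)
      rw [abs_mul, abs_of_pos hmu]
      exact mul_le_mul_of_nonneg_left hAZb hmu.le
    refine h3.trans ?_
    -- everything in terms of `X = L * M * kap / r ^ 2`
    obtain ⟨X, hX⟩ : ∃ X : ℝ, X = L * M * kap / r ^ 2 := ⟨_, rfl⟩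
    have hX0 : 0 ≤ X := by rw [hX]; positivity
    have hkX : kap ≤ X := by
      have e2 : X = (L * M) * (kap / r ^ 2) := by rw [hX]; ring
      have h1 : 1 ≤ L * M := by nlinarith
      rw [e2]
      nlinarith
    have hYX : Y = M * X := by rw [hY, hX]; ring
    have e3 : L * (48 * M * kap / r ^ 2) = 48 * X := by rw [hX]; ring
    have h4 : 1 / 2 ≤ M * |q0| := by
      have h5 : M * (1 / (2 * M)) ≤ M * |q0| := mul_le_mul_of_nonneg_left hq hM0.le
      have h6 : M * (1 / (2 * M)) = 1 / 2 := by field_simp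
      linarith
    rw [e3, hYX]
    have h7 : mu * X * (1 / 2) ≤ mu * X * (M * |q0|) :=
      mul_le_mul_of_nonneg_left h4 (by positivity)
    have h8 : mu * kap ≤ mu * X := mul_le_mul_of_nonneg_left hkX hmu.le
    nlinarith
  -- step 6: `zz`
  have pZk : P r (fun z => Z0 z + (kk : ℂ)) := pZ0.add (P.const r kk)
  have pzz : P r (fun z => (Z0 z + (kk : ℂ)) / (1 + deriv u z)) := pZk.div pu1 hne
  have bzz : ∀ z ∈ S (3 * r / 4), ‖(Z0 z + (kk : ℂ)) / (1 + deriv u z)‖ ≤ 172 * Y := by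
    intro z hz
    have h1 : ‖Z0 z + (kk : ℂ)‖ ≤ 160 * Y := by
      refine (norm_add_le _ _).trans ?_
      rw [Complex.norm_real, Real.norm_eq_abs]
      have h2 := bZ0 z hz
      have e1 : 48 * M * kap / r ^ 2 = 48 * (M * kap / r ^ 2) := by ring
      rw [e1] at h2
      linarith
    have h2 := N2A_div (bu z (hS3 hz)) h1
    linarith
  -- step 7: `w`
  have pF : P (3 * r / 4) (fun z => (e1 z + (mu : ℂ) * Ay z *
      ((Z0 z + (kk : ℂ)) / (1 + deriv u z))) / (1 + deriv u (z + (al : ℂ)))) := by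
    have h1 : P r (fun z => (mu : ℂ) * Ay z * ((Z0 z + (kk : ℂ)) / (1 + deriv u z))) :=
      ((P.const r mu).mul hAy).mul pzz
    exact ((he1.add h1).div pu1R hneR).mono hs3
  have hkY : kap ≤ Y := by
    have h1 : kap ≤ M * kap / r ^ 2 := by
      have e1 : M * kap / r ^ 2 = M * (kap / r ^ 2) := by ring
      rw [e1]
      nlinarith
    linarith
  have bF : B (3 * r / 4) (fun z => (e1 z + (mu : ℂ) * Ay z *
      ((Z0 z + (kk : ℂ)) / (1 + deriv u z))) / (1 + deriv u (z + (al : ℂ)))) (185 * (mu * L * Y)) := by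
    intro z hz
    have hzr := hS3 hz
    have h1 : ‖(mu : ℂ) * Ay z * ((Z0 z + (kk : ℂ)) / (1 + deriv u z))‖ ≤ mu * L * (172 * Y) := by
      rw [norm_mul, norm_mul, Complex.norm_real, Real.norm_eq_abs, abs_of_pos hmu]
      refine mul_le_mul (mul_le_mul_of_nonneg_left (bAy z hzr) hmu.le) (bzz z hz)
        (norm_nonneg _) (by positivity)
    have h2 : ‖e1 z + (mu : ℂ) * Ay z * ((Z0 z + (kk : ℂ)) / (1 + deriv u z))‖ ≤
        173 * (mu * L * Y) := by
      refine (norm_add_le _ _).trans ?_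
      have h3 := be1 z hzr
      have h4 : mu * kap ≤ mu * L * Y := by
        have h5 : mu * kap ≤ mu * Y := mul_le_mul_of_nonneg_left hkY hmu.le
        have h6 : mu * Y ≤ mu * L * Y := by
          have h7 : 0 ≤ mu * Y := by positivity
          nlinarith
        linarith
      nlinarith
    have h3 := N2A_div (hbR z hzr) h2
    have h4 : 0 ≤ mu * L * Y := by positivity
    show ‖(e1 z + (mu : ℂ) * Ay z * ((Z0 z + (kk : ℂ)) / (1 + deriv u z))) /
      (1 + deriv u (z + (al : ℂ)))‖ ≤ _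
    linarith
  have aF : avg (fun z => (e1 z + (mu : ℂ) * Ay z *
      ((Z0 z + (kk : ℂ)) / (1 + deriv u z))) / (1 + deriv u (z + (al : ℂ)))) = 0 := by
    have h1 : avg (fun z => (e1 z + (mu : ℂ) * Ay z *
        ((Z0 z + (kk : ℂ)) / (1 + deriv u z))) / (1 + deriv u (z + (al : ℂ)))) =
        avg (fun z => (fun z => (fun z => e1 z / (1 + deriv u (z + (al : ℂ)))) z +
          (fun z => (mu : ℂ) *
            (Ay z * Z0 z / ((1 + deriv u z) * (1 + deriv u (z + (al : ℂ)))))) z) z +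
          (fun z => ((mu * kk : ℝ) : ℂ) *
            (Ay z / ((1 + deriv u z) * (1 + deriv u (z + (al : ℂ)))))) z) := by
      refine avg_congr fun x => ?_
      have hx := real_mem_S hr x
      have n1 := hne _ hx
      have n2 := hneR _ hx
      show (e1 x + (mu : ℂ) * Ay x * ((Z0 x + (kk : ℂ)) / (1 + deriv u x))) /
          (1 + deriv u ((x : ℂ) + (al : ℂ))) =
        (e1 x / (1 + deriv u ((x : ℂ) + (al : ℂ))) + (mu : ℂ) *
          (Ay x * Z0 x / ((1 + deriv u x) * (1 + deriv u ((x : ℂ) + (al : ℂ)))))) +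
          ((mu * kk : ℝ) : ℂ) * (Ay x / ((1 + deriv u x) * (1 + deriv u ((x : ℂ) + (al : ℂ)))))
      push_cast
      field_simp
      ring
    have p1 : P r (fun z => (mu : ℂ) *
        (Ay z * Z0 z / ((1 + deriv u z) * (1 + deriv u (z + (al : ℂ)))))) :=
      (P.const r mu).mul pAZ
    have p2 : P r (fun z => ((mu * kk : ℝ) : ℂ) *
        (Ay z / ((1 + deriv u z) * (1 + deriv u (z + (al : ℂ)))))) := (P.const r (mu * kk)).mul pq
    rw [h1, avg_add hr (pE.add p1) p2, avg_add hr pE p1, avg_const_mul mu, avg_const_mul (mu * kk),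
      ← hq0]
    have h2 : kk * (mu * q0) = -(avg (fun z => e1 z / (1 + deriv u (z + (al : ℂ)))) +
        mu * avg (fun z => Ay z * Z0 z / ((1 + deriv u z) * (1 + deriv u (z + (al : ℂ)))))) := by
      rw [hkk]
      exact div_mul_cancel₀ _ (mul_ne_zero hmu.ne' hq0ne)
    linarith
  obtain ⟨w, pw, ew, bw'⟩ := solver hD hM hmu hr3 pF bF aF
  refine ⟨w, fun z => (Z0 z + (kk : ℂ)) / (1 + deriv u z), dl, pw.mono hs2,
    pzz.mono (by linarith), hdl2, ?_, ?_, ?_, ?_⟩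
  · intro z hz
    refine (bzz z (hS2 hz)).trans ?_
    have e1 : 10 ^ 3 * L * M ^ 2 * kap / r ^ 2 = 10 ^ 3 * Y := by rw [hY]; ring
    rw [e1]
    linarith
  · intro z hz
    have h1 := bw' (r / 4) (by linarith) (by linarith) z (by
      have : 3 * r / 4 - r / 4 = r / 2 := by ring
      rw [this]; exact hz)
    refine h1.trans ?_
    have e1 : 185 * (mu * L * Y) * M / (mu * (r / 4) ^ 2) = 2960 * (L ^ 2 * M ^ 3 * kap / r ^ 4) := by
      rw [hY]
      field_simp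
      ring
    have e2 : 10 ^ 4 * L ^ 2 * M ^ 3 * kap / r ^ 4 = 10 ^ 4 * (L ^ 2 * M ^ 3 * kap / r ^ 4) := by
      ring
    have h2 : 0 ≤ L ^ 2 * M ^ 3 * kap / r ^ 4 := by positivity
    rw [e1, e2]
    linarith
  · intro z hz
    have hz3 := hS2 hz
    have hzr := hS3 hz3
    rw [ew z hz3]
    exact div_mul_cancel₀ _ (hneR z hzr)
  · intro z hz
    have hzr := hS3 (hS2 hz)
    have h1 := eZ0 z hzr
    have h2 := hneR z hzr
    have h3 := hne z hzr
    show (1 + deriv u (z + (al : ℂ))) * ((Z0 (z + (al : ℂ)) + (kk : ℂ)) /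
      (1 + deriv u (z + (al : ℂ)))) - (1 + deriv u z) * ((Z0 z + (kk : ℂ)) / (1 + deriv u z)) = _
    rw [mul_div_cancel₀ _ h2, mul_div_cancel₀ _ h3, ← h1]
    ring

end BBK
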