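import Pool.Agent.Lib_helper16.BBK.Defs
import Pool.Agent.Lib_helper16.BBK.PA
import Pool.Agent.Lib_helper16.BBK.K1
import Pool.Agent.Lib_helper16.BBK.N1
import Pool.Agent.Lib_helper16.BBK.N2A

open Set
open scoped ContDiff

namespace BBK

theorem N2B_inv {a : ℂ} (h : ‖a‖ ≤ 1 / 16) : 1 + a ≠ 0 ∧ ‖(1 + a)⁻¹‖ ≤ 16 / 15 ∧ ‖1 + a‖ ≤ 17 / 16 := by
  have h1 : 15 / 16 ≤ ‖1 + a‖ := by
    have h2 : ‖(1 : ℂ)‖ - ‖-a‖ ≤ ‖(1 : ℂ) - (-a)‖ := norm_sub_norm_le _ _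
    rw [norm_neg, norm_one, sub_neg_eq_add] at h2
    linarith
  have h0 : 0 < ‖1 + a‖ := by linarith
  refine ⟨norm_pos_iff.1 h0, ?_, ?_⟩
  · rw [norm_inv]
    calc ‖1 + a‖⁻¹ ≤ (15 / 16 : ℝ)⁻¹ := inv_anti₀ (by norm_num) h1
      _ = 16 / 15 := by norm_num
  · have h2 := norm_add_le (1 : ℂ) a
    rw [norm_one] at h2
    linarith

theorem N2B_ups {det u' e1' e2' Ay By mu : ℂ} {m L E del : ℝ} (hm : ‖mu‖ = m) (hm0 : 0 ≤ m)
    (hL : m * L ≤ 1) (_hE : 0 ≤ E) (hdet : ‖det‖ ≤ m * del) (hu : ‖1 + u'‖ ≤ 17 / 16)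
    (h1 : ‖e1'‖ ≤ m * E) (h2 : ‖e2'‖ ≤ m * E) (hA : ‖Ay‖ ≤ L) (hB : ‖By‖ ≤ L) (hdel : 0 ≤ del) :
    ‖det * (1 + u') - (1 + mu * By) * e1' + mu * Ay * e2'‖ ≤ m * (17 / 16 * del + 3 * E) := by
  have a1 : ‖det * (1 + u')‖ ≤ m * del * (17 / 16) := by
    rw [norm_mul]
    exact mul_le_mul hdet hu (norm_nonneg _) (by positivity)
  have a2 : ‖1 + mu * By‖ ≤ 2 := by
    have b1 := norm_add_le (1 : ℂ) (mu * By)
    rw [norm_one, norm_mul, hm] at b1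
    have b2 : m * ‖By‖ ≤ m * L := mul_le_mul_of_nonneg_left hB hm0
    linarith
  have a3 : ‖(1 + mu * By) * e1'‖ ≤ 2 * (m * E) := by
    rw [norm_mul]
    exact mul_le_mul a2 h1 (norm_nonneg _) (by norm_num)
  have a4 : ‖mu * Ay‖ ≤ 1 := by
    rw [norm_mul, hm]
    exact (mul_le_mul_of_nonneg_left hA hm0).trans hL
  have a5 : ‖mu * Ay * e2'‖ ≤ 1 * (m * E) := by
    rw [norm_mul]
    exact mul_le_mul a4 h2 (norm_nonneg _) zero_le_one
  have a6 := norm_add_le (det * (1 + u') - (1 + mu * By) * e1') (mu * Ay * e2')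
  have a7 := norm_sub_le (det * (1 + u')) ((1 + mu * By) * e1')
  linarith

/-- the linear part of the Newton step -/
theorem newton_lin {al mu M L r kap del t0 : ℝ} {u v e1 e2 Ax Ay Bx By : ℂ → ℂ}
    (hM : 1 ≤ M) (hmu : 0 < mu) (hD : Dio al mu M) (hr : 0 < r) (hr1 : r ≤ 1) (hL : 1 ≤ L)
    (hmL : mu * L ≤ 1) (hk : 0 ≤ kap) (hdel : 0 ≤ del)
    (hu : P r u) (hv : P r v) (he1 : P r e1) (he2 : P r e2) (hAy : P r Ay)
    (bu : B r (deriv u) (1 / 16)) (bv : B r (deriv v) (1 / 16))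
    (be1 : B r e1 (mu * kap)) (be2 : B r e2 (mu * kap)) (bAy : B r Ay L) (bBy : B r By L)
    (row1 : ∀ z ∈ S r, (1 + (mu : ℂ) * Ax z) * (1 + deriv u z) + (mu : ℂ) * Ay z * deriv v z
      = 1 + deriv u (z + (al : ℂ)) + deriv e1 z)
    (row2 : ∀ z ∈ S r, (mu : ℂ) * Bx z * (1 + deriv u z) + (1 + (mu : ℂ) * By z) * deriv v z
      = deriv v (z + (al : ℂ)) + deriv e2 z)
    (hdet : ∀ z ∈ S (r / 4), ‖(1 + (mu : ℂ) * Ax z) * (1 + (mu : ℂ) * By z)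
      - (mu : ℂ) * Ay z * ((mu : ℂ) * Bx z) - 1‖ ≤ mu * del)
    (ht0 : 1 / M ≤ |t0|) (hAt : ∀ x : ℝ, ‖Ay (x : ℂ) - (t0 : ℂ)‖ ≤ 1 / (8 * M)) :
    ∃ (d1 d2 : ℂ → ℂ) (dl : ℝ), P (r / 2) d1 ∧ P (r / 2) d2 ∧ |dl| ≤ 2 * (mu * kap) ∧
      B (r / 2) d1 (10 ^ 5 * L ^ 2 * M ^ 3 * kap / r ^ 4) ∧ B (r / 2) d2 (10 ^ 5 * L ^ 2 * M ^ 3 * kap / r ^ 4) ∧
      (∀ z ∈ S (r / 4), ‖e1 z + (mu : ℂ) * Ax z * d1 z + (mu : ℂ) * Ay z * d2 z + d1 z - d1 (z + (al : ℂ))‖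
        ≤ mu * (10 ^ 5 * L ^ 2 * M ^ 3 * kap ^ 2 / r ^ 5)) ∧
      (∀ z ∈ S (r / 4), ‖e2 z + (mu : ℂ) * Bx z * d1 z + (mu : ℂ) * By z * d2 z + d2 z - d2 (z + (al : ℂ))
          - (dl : ℂ)‖
        ≤ mu * (10 ^ 5 * L ^ 2 * M ^ 3 * kap ^ 2 / r ^ 5 + 10 ^ 4 * L * M ^ 2 * del * kap / r ^ 2)) := by
  obtain ⟨w, zz, dl, hw, hzz, hdl, bzz, bw, eqw, eqz⟩ :=
    newton_solve hM hmu hD hr hr1 hL hk hu hv he1 he2 hAy bu bv be1 be2 bAy ht0 hAt
  have hmuC : ‖(mu : ℂ)‖ = mu := by rw [Complex.norm_real, Real.norm_eq_abs, abs_of_pos hmu]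
  have hsub2 : r / 2 ≤ r := by linarith
  have hsub4 : r / 4 ≤ r / 2 := by linarith
  have hM0 : 0 < M := by linarith
  have hL0 : 0 < L := by linarith
  set a : ℝ := L ^ 2 * M ^ 3 * kap / r ^ 4 with ha
  set b : ℝ := L * M ^ 2 * kap / r ^ 2 with hb
  have ha0 : 0 ≤ a := by positivity
  have hb0 : 0 ≤ b := by positivity
  have hba : b ≤ a := by
    have h1 : a = b * (L * M / r ^ 2) := by
      rw [ha, hb]
      field_simp
    have h2 : 1 ≤ L * M / r ^ 2 := by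
      rw [le_div_iff₀ (by positivity)]
      have h3 : r ^ 2 ≤ 1 := pow_le_one₀ hr.le hr1
      nlinarith
    rw [h1]
    exact le_mul_of_one_le_right hb0 h2
  have ewW : 10 ^ 4 * L ^ 2 * M ^ 3 * kap / r ^ 4 = 10 ^ 4 * a := by rw [ha]; ring
  have ewZ : 10 ^ 3 * L * M ^ 2 * kap / r ^ 2 = 10 ^ 3 * b := by rw [hb]; ring
  have ew5 : 10 ^ 5 * L ^ 2 * M ^ 3 * kap / r ^ 4 = 10 ^ 5 * a := by rw [ha]; ring
  have ew6 : 10 ^ 5 * L ^ 2 * M ^ 3 * kap ^ 2 / r ^ 5 = 10 ^ 5 * a * (kap / r) := by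
    rw [ha]; field_simp
  have ew7 : 10 ^ 4 * L * M ^ 2 * del * kap / r ^ 2 = 10 ^ 4 * b * del := by rw [hb]; ring
  rw [ewW] at bw
  rw [ewZ] at bzz
  rw [ew5, ew6, ew7]
  have be1' : B (r / 2) (deriv e1) (mu * (2 * (kap / r))) := by
    have h1 := cauchy he1 be1 (half_pos hr)
    have h2 : r - r / 2 = r / 2 := by ring
    have h3 : mu * kap / (r / 2) = mu * (2 * (kap / r)) := by field_simp
    rwa [h2, h3] at h1
  have be2' : B (r / 2) (deriv e2) (mu * (2 * (kap / r))) := by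
    have h1 := cauchy he2 be2 (half_pos hr)
    have h2 : r - r / 2 = r / 2 := by ring
    have h3 : mu * kap / (r / 2) = mu * (2 * (kap / r)) := by field_simp
    rwa [h2, h3] at h1
  have hkr : 0 ≤ kap / r := by positivity
  have hP1 : P (r / 2) fun z => (1 + deriv u z) * w z := by
    have h1 : P (r / 2) fun z => (1 + deriv u z) := by
      have h2 := (P.const (r / 2) 1).add (hu.deriv.mono hsub2)
      refine h2.congr fun z _ => ?_
      rw [Complex.ofReal_one]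
    exact h1.mul hw
  have hP2 : P (r / 2) fun z => deriv v z * w z + zz z :=
    ((hv.deriv.mono hsub2).mul hw).add hzz
  have hmem : ∀ z ∈ S (r / 4), z ∈ S (r / 2) ∧ z ∈ S r ∧ z + (al : ℂ) ∈ S r := fun z hz => by
    have h1 := S_mono hsub4 hz
    have h2 := S_mono hsub2 h1
    exact ⟨h1, h2, add_real_mem_S h2 al⟩
  have alg : ∀ z ∈ S (r / 4), _ := fun z hz => by
    obtain ⟨hz2, hz1, hzr⟩ := hmem z hz
    have key := newton_alg (N2B_inv (bu _ hzr)).1 (row1 z hz1) (row2 z hz1)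
      (w := w z) (wR := w (z + (al : ℂ))) (zz := zz z) (zzR := zz (z + (al : ℂ))) (e1 := e1 z)
      (e2 := e2 z) (dl := (dl : ℂ)) (eqw z hz2) (eqz z hz2)
    exact key
  refine ⟨fun z => (1 + deriv u z) * w z, fun z => deriv v z * w z + zz z, dl, hP1, hP2, hdl,
    ?_, ?_, ?_, ?_⟩
  · intro z hz
    have h1 := (N2B_inv (bu z (S_mono hsub2 hz))).2.2
    have h2 := bw z hz
    show ‖(1 + deriv u z) * w z‖ ≤ 10 ^ 5 * a
    rw [norm_mul]
    calc ‖1 + deriv u z‖ * ‖w z‖ ≤ 17 / 16 * (10 ^ 4 * a) :=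
          mul_le_mul h1 h2 (norm_nonneg _) (by norm_num)
      _ ≤ 10 ^ 5 * a := by nlinarith
  · intro z hz
    have h1 := bv z (S_mono hsub2 hz)
    have h2 := bw z hz
    have h3 := bzz z hz
    show ‖deriv v z * w z + zz z‖ ≤ 10 ^ 5 * a
    have h4 : ‖deriv v z * w z‖ ≤ 1 / 16 * (10 ^ 4 * a) := by
      rw [norm_mul]
      exact mul_le_mul h1 h2 (norm_nonneg _) (by norm_num)
    have h5 := norm_add_le (deriv v z * w z) (zz z)
    nlinarith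
  · intro z hz
    obtain ⟨hz2, hz1, hzr⟩ := hmem z hz
    have h1 := (alg z hz).1
    have h2 : e1 z + (mu : ℂ) * Ax z * ((1 + deriv u z) * w z) +
        (mu : ℂ) * Ay z * (deriv v z * w z + zz z) + (1 + deriv u z) * w z -
        (1 + deriv u (z + (al : ℂ))) * w (z + (al : ℂ)) = deriv e1 z * w z := h1
    show ‖e1 z + (mu : ℂ) * Ax z * ((1 + deriv u z) * w z) +
        (mu : ℂ) * Ay z * (deriv v z * w z + zz z) + (1 + deriv u z) * w z -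
        (1 + deriv u (z + (al : ℂ))) * w (z + (al : ℂ))‖ ≤ mu * (10 ^ 5 * a * (kap / r))
    rw [h2, norm_mul]
    calc ‖deriv e1 z‖ * ‖w z‖ ≤ mu * (2 * (kap / r)) * (10 ^ 4 * a) :=
          mul_le_mul (be1' z hz2) (bw z hz2) (norm_nonneg _) (by positivity)
      _ = mu * (a * (kap / r)) * (2 * 10 ^ 4) := by ring
      _ ≤ mu * (a * (kap / r)) * 10 ^ 5 :=
          mul_le_mul_of_nonneg_left (by norm_num) (by positivity)
      _ = mu * (10 ^ 5 * a * (kap / r)) := by ring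
  · intro z hz
    obtain ⟨hz2, hz1, hzr⟩ := hmem z hz
    have h1 := (alg z hz).2
    have hi := N2B_inv (bu _ hzr)
    have hU := N2B_ups hmuC hmu.le hmL (by positivity : (0 : ℝ) ≤ 2 * (kap / r)) (hdet z hz)
      (N2B_inv (bu z hz1)).2.2 (be1' z hz2) (be2' z hz2) (bAy z hz1) (bBy z hz1) hdel
    show ‖e2 z + (mu : ℂ) * Bx z * ((1 + deriv u z) * w z) +
        (mu : ℂ) * By z * (deriv v z * w z + zz z) + (deriv v z * w z + zz z) -
        (deriv v (z + (al : ℂ)) * w (z + (al : ℂ)) + zz (z + (al : ℂ))) - (dl : ℂ)‖ ≤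
        mu * (10 ^ 5 * a * (kap / r) + 10 ^ 4 * b * del)
    rw [h1, div_eq_mul_inv]
    refine (norm_add_le _ _).trans ?_
    rw [norm_mul, norm_mul, norm_mul]
    have h3 : ‖deriv e2 z‖ * ‖w z‖ ≤ mu * (2 * (kap / r)) * (10 ^ 4 * a) :=
      mul_le_mul (be2' z hz2) (bw z hz2) (norm_nonneg _) (by positivity)
    have h4 := mul_le_mul (mul_le_mul hU (bzz z hz2) (norm_nonneg _) (by positivity)) hi.2.1
      (norm_nonneg _) (by positivity)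
    refine (add_le_add h3 h4).trans ?_
    have h5 : mu * (2 * (kap / r)) * (10 ^ 4 * a) +
        mu * (17 / 16 * del + 3 * (2 * (kap / r))) * (10 ^ 3 * b) * (16 / 15) =
        mu * (2 * 10 ^ 4 * a * (kap / r) + 6400 * b * (kap / r) + 3400 / 3 * b * del) := by
      ring
    rw [h5]
    refine mul_le_mul_of_nonneg_left ?_ hmu.le
    have h6 : b * (kap / r) ≤ a * (kap / r) := mul_le_mul_of_nonneg_right hba hkr
    have h7 : 0 ≤ a * (kap / r) := by positivity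
    have h8 : 0 ≤ b * del := by positivity
    nlinarith

end BBK
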