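import Pool.Agent.Lib_helper16.BBK.Defs
import Pool.Agent.Lib_helper16.BBK.PA
import Pool.Agent.Lib_helper16.BBK.K1
import Pool.Agent.Lib_helper16.BBK.E1
import Pool.Agent.Lib_helper16.BBK.E2

open Set
open scoped ContDiff

namespace BBK

/-- the point `(z + u z, v z)` lies in the doubled strip -/
theorem in_width {r nu : ℝ} {u v : ℂ → ℂ} (hu : P r u) (hv : P r v) (hnu : nu ≤ 1)
    (bu : B r (deriv u) nu) (bv : B r (deriv v) nu) :
    ∀ z ∈ S r, |(z + u z).im| ≤ 2 * |z.im| ∧ |(v z).im| ≤ |z.im| := by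
  intro z hz
  have h1 := im_le hu bu z hz
  have h2 := im_le hv bv z hz
  have h3 : nu * |z.im| ≤ |z.im| := by
    calc nu * |z.im| ≤ 1 * |z.im| := mul_le_mul_of_nonneg_right hnu (abs_nonneg _)
      _ = |z.im| := one_mul _
  refine ⟨?_, h2.trans h3⟩
  rw [Complex.add_im]
  calc |z.im + (u z).im| ≤ |z.im| + |(u z).im| := abs_add_le _ _
    _ ≤ |z.im| + |z.im| := add_le_add (le_refl _) (h1.trans h3)
    _ = 2 * |z.im| := by ring

theorem N3A_D1_zero {ct : Seq} (h : ∀ k : ℤ × ℤ, k.1 ≠ 0 → ct k = 0) (r : ℝ) (x y : ℂ) :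
    ev (trunc r (D1 ct)) x y = 0 := by
  have h0 : ∀ k : ℤ × ℤ, trunc r (D1 ct) k = 0 := by
    intro k
    unfold trunc D1
    by_cases hk : k.1 = 0
    · rw [hk]; simp
    · rw [h k hk]; simp
  unfold ev
  simp [h0]

/-- derivative of the composition with the curve -/
theorem N3A_comp {r : ℝ} {u v : ℂ → ℂ} (hr : 0 < r) (hu : P r u) (hv : P r v) (c : Seq)
    {z : ℂ} (hz : z ∈ S r) :
    HasDerivAt (fun w => ev (trunc r c) (w + u w) (v w))
      (ev (trunc r (D1 c)) (z + u z) (v z) * (1 + deriv u z) +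
        ev (trunc r (D2 c)) (z + u z) (v z) * deriv v z) z :=
  ev_hasDerivAt hr c ((hasDerivAt_id z).add (hu.hasDerivAt hz)) (hv.hasDerivAt hz)

theorem N3A_rot {r : ℝ} {u : ℂ → ℂ} (hu : P r u) (al : ℝ) {z : ℂ} (hz : z ∈ S r) :
    HasDerivAt (fun w => u (w + (al : ℂ))) (deriv u (z + (al : ℂ))) z := by
  have h := hu.hasDerivAt (add_real_mem_S hz al)
  exact HasDerivAt.comp_add_const z (al : ℂ) h

/-- the residuals are in `P r`, and the derivative of the functional equation -/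
theorem rows {M mu al : ℝ} {ct ca cb : Seq} (hd : Data M mu ct ca cb) {r : ℝ} {u v : ℂ → ℂ} (hr : 0 < r)
    (hu : P r u) (hv : P r v) (lam : ℝ) :
    P r (res1 mu al ct ca r u v) ∧ P r (res2 mu al cb r u v lam) ∧
    (∀ z ∈ S r, (1 + (mu : ℂ) * Axf mu ca r u v z) * (1 + deriv u z)
        + (mu : ℂ) * Ayf mu ct ca r u v z * deriv v z
      = 1 + deriv u (z + (al : ℂ)) + deriv (res1 mu al ct ca r u v) z) ∧
    (∀ z ∈ S r, (mu : ℂ) * Bxf mu cb r u v z * (1 + deriv u z)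
        + (1 + (mu : ℂ) * Byf mu cb r u v z) * deriv v z
      = deriv v (z + (al : ℂ)) + deriv (res2 mu al cb r u v lam) z) := by
  have pt := ev_comp_P (s := r) hr hd.rt hu hv
  have pa := ev_comp_P (s := r) hr hd.ra hu hv
  have pb := ev_comp_P (s := r) hr hd.rb hu hv
  refine ⟨?_, ?_, ?_, ?_⟩
  · exact ((P.const r mu).mul (pt.add ((P.const r mu).mul pa))).sub ((hu.rot al).sub hu)
  · exact (((P.const r mu).mul ((P.const r mu).mul pb)).sub ((hv.rot al).sub hv)).sub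
      (P.const r lam)
  · intro z hz
    have d1 : HasDerivAt (res1 mu al ct ca r u v) _ z :=
      (((N3A_comp hr hu hv ct hz).add ((N3A_comp hr hu hv ca hz).const_mul (mu : ℂ))).const_mul
        (mu : ℂ)).sub ((N3A_rot hu al hz).sub (hu.hasDerivAt hz))
    rw [d1.deriv, N3A_D1_zero hd.supp]
    unfold Axf Ayf
    ring
  · intro z hz
    have d2 : HasDerivAt (res2 mu al cb r u v lam) _ z :=
      ((((N3A_comp hr hu hv cb hz).const_mul (mu : ℂ)).const_mul
        (mu : ℂ)).sub ((N3A_rot hv al hz).sub (hv.hasDerivAt hz))).sub_const (lam : ℂ)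
    rw [d2.deriv]
    unfold Bxf Byf
    ring

end BBK
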