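import Pool.Agent.Lib_helper16.BBK.Defs
import Pool.Agent.Lib_helper16.BBK.PA
import Pool.Agent.Lib_helper16.BBK.K2

open Set

namespace BBK

theorem K4_geom {q : ℝ} (h0 : 0 ≤ q) (h1 : q < 1) :
    HasSum (fun k : ℤ => q ^ k.natAbs) ((1 - q)⁻¹ + q * (1 - q)⁻¹) := by
  have h2 := hasSum_geometric_of_lt_one h0 h1
  apply HasSum.of_nat_of_neg_add_one
  · simpa using h2
  · have h3 := h2.mul_left q
    have h4 : (fun n : ℕ => q ^ (-((n : ℤ) + 1)).natAbs) = fun n : ℕ => q * q ^ n := by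
      funext n
      have h5 : (-((n : ℤ) + 1)).natAbs = n + 1 := by omega
      rw [h5, pow_succ]
      ring
    rw [h4]
    exact h3

theorem K4_bound {r : ℝ} (hr : 0 < r) (hr1 : r ≤ 1) :
    (1 - Real.exp (-(Real.pi * r / 2)))⁻¹ +
      Real.exp (-(Real.pi * r / 2)) * (1 - Real.exp (-(Real.pi * r / 2)))⁻¹ ≤ 3 / r := by
  have hpi := Real.pi_gt_three
  obtain ⟨s, hs⟩ : ∃ s, s = Real.pi * r / 2 := ⟨_, rfl⟩
  rw [← hs]
  have hs0 : 0 < s := by rw [hs]; positivity
  have h1 : Real.exp (-s) ≤ (1 + s)⁻¹ := by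
    rw [Real.exp_neg]
    apply inv_anti₀ (by linarith)
    linarith [Real.add_one_le_exp s]
  have h2 : s / (1 + s) ≤ 1 - Real.exp (-s) := by
    have h3 : s / (1 + s) = 1 - (1 + s)⁻¹ := by field_simp; ring
    rw [h3]; linarith
  have h3 : 0 < s / (1 + s) := by positivity
  have h4 : (1 - Real.exp (-s))⁻¹ ≤ 1 + 1 / s := by
    have h5 := inv_anti₀ h3 h2
    have h6 : (s / (1 + s))⁻¹ = 1 + 1 / s := by field_simp; ring
    rwa [h6] at h5
  have h5 : Real.exp (-s) * (1 - Real.exp (-s))⁻¹ = (1 - Real.exp (-s))⁻¹ - 1 := by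
    have h6 : 1 - Real.exp (-s) ≠ 0 := by linarith
    field_simp
    ring
  have h6 : 1 / s ≤ (2 / 3) / r := by
    rw [div_le_div_iff₀ hs0 hr, hs]
    nlinarith
  have h7 : 1 ≤ 1 / r := by
    rw [le_div_iff₀ hr]; linarith
  have h8 : 3 / r = 1 / r + 2 * ((2 / 3) / r) + (2 / 3) / r := by ring
  have h9 : 0 < (2 / 3) / r := by positivity
  rw [h5, h8]
  linarith

/-- interpolation between the real line and the strip -/
theorem interp {r a A : ℝ} {f : ℂ → ℂ} (hr : 0 < r) (hr1 : r ≤ 1) (hf : P r f) (hA : B r f A)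
    (ha : ∀ x : ℝ, ‖f (x : ℂ)‖ ≤ a) : B (r / 4) f (3 * Real.sqrt (a * A) / r) := by
  intro z hz
  have hpi := Real.pi_pos
  have hzr : |z.im| < r / 4 := hz
  have ha0 : 0 ≤ a := (norm_nonneg _).trans (ha 0)
  have hA0 : 0 ≤ A := hA.nonneg hr
  have hsum := fc_hasSum hf hA z (S_mono (by linarith : r / 4 ≤ r) hz)
  obtain ⟨q, hq⟩ : ∃ q, q = Real.exp (-(Real.pi * r / 2)) := ⟨_, rfl⟩
  have hq0 : 0 ≤ q := by rw [hq]; exact (Real.exp_pos _).le
  have hq1 : q < 1 := by
    rw [hq, Real.exp_lt_one_iff]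
    have : 0 < Real.pi * r / 2 := by positivity
    linarith
  have hg := (K4_geom hq0 hq1).mul_left (Real.sqrt (a * A))
  -- the terms
  have hterm : ∀ k : ℤ, ‖fc f k * Complex.exp (2 * (Real.pi : ℂ) * Complex.I * (k : ℂ) * z)‖ ≤
      Real.sqrt (a * A) * q ^ k.natAbs := by
    intro k
    obtain ⟨n, hn⟩ : ∃ n : ℝ, n = |(k : ℝ)| := ⟨_, rfl⟩
    have hn0 : 0 ≤ n := by rw [hn]; exact abs_nonneg _
    have hnn : (k.natAbs : ℝ) = n := by
      rw [hn, Nat.cast_natAbs, Int.cast_abs]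
    have h1 := fc_norm_real hr hf ha k
    have h2 := fc_norm hr hf hA k
    rw [← hn] at h2
    have h3 : ‖fc f k‖ ≤ Real.sqrt (a * A) * Real.exp (-(Real.pi * n * r)) := by
      have h4 : 0 ≤ Real.sqrt (a * A) * Real.exp (-(Real.pi * n * r)) :=
        mul_nonneg (Real.sqrt_nonneg _) (Real.exp_pos _).le
      apply le_of_sq_le_sq _ h4
      have h5 : (Real.sqrt (a * A) * Real.exp (-(Real.pi * n * r))) ^ 2 =
          a * (A * Real.exp (-(2 * Real.pi * n * r))) := by
        rw [mul_pow, Real.sq_sqrt (mul_nonneg ha0 hA0), ← Real.exp_nat_mul]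
        have h6 : ((2 : ℕ) : ℝ) * -(Real.pi * n * r) = -(2 * Real.pi * n * r) := by
          push_cast; ring
        rw [h6]
        ring
      rw [h5, sq]
      exact mul_le_mul h1 h2 (norm_nonneg _) ha0
    have h4 : ‖Complex.exp (2 * (Real.pi : ℂ) * Complex.I * (k : ℂ) * z)‖ ≤
        Real.exp (Real.pi * n * r / 2) := by
      rw [Complex.norm_exp]
      apply Real.exp_le_exp.2
      have h5 : (2 * (Real.pi : ℂ) * Complex.I * (k : ℂ) * z).re = -(2 * Real.pi * (k * z.im)) := by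
        have h6 : (2 * (Real.pi : ℂ) * Complex.I * (k : ℂ) * z) =
            ((2 * Real.pi * k : ℝ) : ℂ) * (Complex.I * z) := by push_cast; ring
        rw [h6, Complex.re_ofReal_mul]
        simp only [Complex.mul_re, Complex.I_re, Complex.I_im, zero_mul, one_mul, zero_sub]
        ring
      rw [h5]
      have h6 : -(k * z.im) ≤ n * (r / 4) := by
        have h7 := neg_abs_le ((k : ℝ) * z.im)
        rw [abs_mul, ← hn] at h7
        have h8 : n * |z.im| ≤ n * (r / 4) := mul_le_mul_of_nonneg_left hzr.le hn0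
        linarith
      nlinarith
    have h5 : q ^ k.natAbs = Real.exp (-(Real.pi * n * r)) * Real.exp (Real.pi * n * r / 2) := by
      rw [hq, ← Real.exp_nat_mul, ← Real.exp_add, hnn]
      congr 1
      ring
    rw [norm_mul, h5, ← mul_assoc]
    exact mul_le_mul h3 h4 (norm_nonneg _)
      (mul_nonneg (Real.sqrt_nonneg _) (Real.exp_pos _).le)
  have h1 := tsum_of_norm_bounded hg hterm
  rw [hsum.tsum_eq] at h1
  refine h1.trans ?_
  have h2 := K4_bound hr hr1
  rw [← hq] at h2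
  have h3 := mul_le_mul_of_nonneg_left h2 (Real.sqrt_nonneg (a * A))
  refine h3.trans (le_of_eq ?_)
  ring

end BBK
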