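import Pool.Agent.Lib_helper16.BBK.Defs
import Pool.Agent.Lib_helper16.BBK.PA
import Pool.Agent.Lib_helper16.BBK.K1
import Pool.Agent.Lib_helper16.BBK.K4
import Pool.Agent.Lib_helper16.BBK.E1
import Pool.Agent.Lib_helper16.BBK.E2
import Pool.Agent.Lib_helper16.BBK.N3A

open Set
open scoped ContDiff

namespace BBK

/-- pure algebra: the difference of two determinants -/
theorem N3B_det_diff {mu L e : ℝ} (hmu0 : 0 < mu) (hmu1 : mu ≤ 1) (hL : 1 ≤ L) (he : 0 ≤ e)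
    {a1 a1' b2 b2' a2 a2' b1 b1' : ℂ}
    (h1 : ‖a1' - a1‖ ≤ mu * (L * e)) (h2 : ‖b2' - b2‖ ≤ mu * (L * e)) (h3 : ‖a2' - a2‖ ≤ 2 * (L * e))
    (h4 : ‖b1' - b1‖ ≤ mu * (L * e)) (k1 : ‖a1‖ ≤ mu * L) (k2 : ‖b2'‖ ≤ mu * L) (k3 : ‖a2‖ ≤ 2 * L)
    (k4 : ‖b1'‖ ≤ mu * L)
    (hdet : (1 + (mu : ℂ) * a1) * (1 + (mu : ℂ) * b2) - (mu : ℂ) * a2 * ((mu : ℂ) * b1) = 1) :
    ‖(1 + (mu : ℂ) * a1') * (1 + (mu : ℂ) * b2') - (mu : ℂ) * a2' * ((mu : ℂ) * b1') - 1‖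
      ≤ 8 * mu ^ 2 * L ^ 2 * e := by
  have key : (1 + (mu : ℂ) * a1') * (1 + (mu : ℂ) * b2') - (mu : ℂ) * a2' * ((mu : ℂ) * b1') - 1
      = ((mu : ℂ) * (a1' - a1)) * (1 + (mu : ℂ) * b2') + (1 + (mu : ℂ) * a1) * ((mu : ℂ) * (b2' - b2))
        - ((mu : ℂ) ^ 2 * ((a2' - a2) * b1') + (mu : ℂ) ^ 2 * (a2 * (b1' - b1))) := by
    linear_combination hdet
  have nmu : ‖(mu : ℂ)‖ = mu := by rw [Complex.norm_real, Real.norm_of_nonneg hmu0.le]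
  rw [key]
  have hLe : 0 ≤ L * e := by positivity
  have n1 : ‖1 + (mu : ℂ) * b2'‖ ≤ 1 + mu * (mu * L) := by
    refine (norm_add_le _ _).trans ?_
    rw [norm_one, norm_mul, nmu]
    gcongr
  have n2 : ‖1 + (mu : ℂ) * a1‖ ≤ 1 + mu * (mu * L) := by
    refine (norm_add_le _ _).trans ?_
    rw [norm_one, norm_mul, nmu]
    gcongr
  have t1 : ‖((mu : ℂ) * (a1' - a1)) * (1 + (mu : ℂ) * b2')‖ ≤ (mu * (mu * (L * e))) * (1 + mu * (mu * L)) := by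
    rw [norm_mul, norm_mul, nmu]
    gcongr
  have t2 : ‖(1 + (mu : ℂ) * a1) * ((mu : ℂ) * (b2' - b2))‖ ≤ (1 + mu * (mu * L)) * (mu * (mu * (L * e))) := by
    rw [norm_mul, norm_mul, nmu]
    gcongr
  have t3 : ‖(mu : ℂ) ^ 2 * ((a2' - a2) * b1')‖ ≤ mu ^ 2 * ((2 * (L * e)) * (mu * L)) := by
    rw [norm_mul, norm_pow, norm_mul, nmu]
    gcongr
  have t4 : ‖(mu : ℂ) ^ 2 * (a2 * (b1' - b1))‖ ≤ mu ^ 2 * ((2 * L) * (mu * (L * e))) := by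
    rw [norm_mul, norm_pow, norm_mul, nmu]
    gcongr
  have tot : ‖((mu : ℂ) * (a1' - a1)) * (1 + (mu : ℂ) * b2') + (1 + (mu : ℂ) * a1) * ((mu : ℂ) * (b2' - b2))
        - ((mu : ℂ) ^ 2 * ((a2' - a2) * b1') + (mu : ℂ) ^ 2 * (a2 * (b1' - b1)))‖
      ≤ ((mu * (mu * (L * e))) * (1 + mu * (mu * L)) + (1 + mu * (mu * L)) * (mu * (mu * (L * e))))
        + (mu ^ 2 * ((2 * (L * e)) * (mu * L)) + mu ^ 2 * ((2 * L) * (mu * (L * e)))) := by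
    refine (norm_sub_le _ _).trans (add_le_add ?_ ?_)
    · exact (norm_add_le _ _).trans (add_le_add t1 t2)
    · exact (norm_add_le _ _).trans (add_le_add t3 t4)
  refine tot.trans ?_
  have q1 : mu ^ 2 ≤ 1 := pow_le_one₀ hmu0.le hmu1
  have q0 : 0 ≤ mu ^ 2 * e * L := by positivity
  have s1 : mu ^ 2 * e * L * (1 - mu ^ 2) ≥ 0 := mul_nonneg q0 (by linarith)
  have s2 : mu ^ 2 * e * L * (L - 1) ≥ 0 := mul_nonneg q0 (by linarith)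
  have s3 : mu ^ 2 * e * L * L * (1 - mu ^ 2) ≥ 0 := mul_nonneg (by positivity) (by linarith)
  have s4 : mu ^ 2 * e * L * L * (1 - mu) ≥ 0 := mul_nonneg (by positivity) (by linarith)
  nlinarith [s1, s2, s3, s4]

/-- pure algebra: crude bound for det - 1 -/
theorem N3B_det_crude {mu K : ℝ} (hmu0 : 0 < mu) (hmu1 : mu ≤ 1) (hK : 1 ≤ K)
    {a1 b2 a2 b1 : ℂ} (k1 : ‖a1‖ ≤ mu * K) (k2 : ‖b2‖ ≤ mu * K) (k3 : ‖a2‖ ≤ 2 * K) (k4 : ‖b1‖ ≤ mu * K) :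
    ‖(1 + (mu : ℂ) * a1) * (1 + (mu : ℂ) * b2) - (mu : ℂ) * a2 * ((mu : ℂ) * b1) - 1‖
      ≤ 5 * mu ^ 2 * K ^ 2 := by
  have key : (1 + (mu : ℂ) * a1) * (1 + (mu : ℂ) * b2) - (mu : ℂ) * a2 * ((mu : ℂ) * b1) - 1
      = ((mu : ℂ) * a1 + (mu : ℂ) * b2) + ((mu : ℂ) ^ 2 * (a1 * b2) - (mu : ℂ) ^ 2 * (a2 * b1)) := by ring
  have nmu : ‖(mu : ℂ)‖ = mu := by rw [Complex.norm_real, Real.norm_of_nonneg hmu0.le]
  rw [key]
  have t1 : ‖(mu : ℂ) * a1‖ ≤ mu * (mu * K) := by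
    rw [norm_mul, nmu]; gcongr
  have t2 : ‖(mu : ℂ) * b2‖ ≤ mu * (mu * K) := by
    rw [norm_mul, nmu]; gcongr
  have t3 : ‖(mu : ℂ) ^ 2 * (a1 * b2)‖ ≤ mu ^ 2 * ((mu * K) * (mu * K)) := by
    rw [norm_mul, norm_pow, norm_mul, nmu]; gcongr
  have t4 : ‖(mu : ℂ) ^ 2 * (a2 * b1)‖ ≤ mu ^ 2 * ((2 * K) * (mu * K)) := by
    rw [norm_mul, norm_pow, norm_mul, nmu]; gcongr
  have tot : ‖((mu : ℂ) * a1 + (mu : ℂ) * b2) + ((mu : ℂ) ^ 2 * (a1 * b2) - (mu : ℂ) ^ 2 * (a2 * b1))‖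
      ≤ (mu * (mu * K) + mu * (mu * K)) + (mu ^ 2 * ((mu * K) * (mu * K)) + mu ^ 2 * ((2 * K) * (mu * K))) := by
    refine (norm_add_le _ _).trans (add_le_add ?_ ?_)
    · exact (norm_add_le _ _).trans (add_le_add t1 t2)
    · exact (norm_sub_le _ _).trans (add_le_add t3 t4)
  refine tot.trans ?_
  have q1 : mu ^ 2 ≤ 1 := pow_le_one₀ hmu0.le hmu1
  have s2 : mu ^ 2 * K * (K - 1) ≥ 0 := mul_nonneg (by positivity) (by linarith)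
  have s3 : mu ^ 2 * K * K * (1 - mu ^ 2) ≥ 0 := mul_nonneg (by positivity) (by linarith)
  have s4 : mu ^ 2 * K * K * (1 - mu) ≥ 0 := mul_nonneg (by positivity) (by linarith)
  nlinarith [s2, s3, s4]

theorem N3B_C0 : 1 ≤ C0 := by
  unfold C0
  exact Real.one_le_exp (by positivity)

/-- the square root -/
theorem N3B_sqrt {mu L C r : ℝ} (hmu0 : 0 < mu) (hL : 1 ≤ L) (hC : 1 ≤ C) (hr : 0 < r) (hr1 : r ≤ 1) :
    3 * Real.sqrt ((8 * mu ^ 2 * L ^ 2 * r ^ 59) * (5 * mu ^ 2 * (C * L) ^ 2)) / r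
      ≤ 21 * (mu ^ 2 * L ^ 2 * C * r ^ 28) := by
  have h1 : (8 * mu ^ 2 * L ^ 2 * r ^ 59) * (5 * mu ^ 2 * (C * L) ^ 2)
      ≤ (7 * (mu ^ 2 * L ^ 2 * C * r ^ 29)) ^ 2 := by
    have h2 : (7 * (mu ^ 2 * L ^ 2 * C * r ^ 29)) ^ 2 - (8 * mu ^ 2 * L ^ 2 * r ^ 59) * (5 * mu ^ 2 * (C * L) ^ 2)
        = mu ^ 4 * L ^ 4 * C ^ 2 * r ^ 58 * (49 - 40 * r) := by ring
    have h3 : 0 ≤ mu ^ 4 * L ^ 4 * C ^ 2 * r ^ 58 * (49 - 40 * r) :=
      mul_nonneg (by positivity) (by linarith)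
    linarith
  have h4 : Real.sqrt ((8 * mu ^ 2 * L ^ 2 * r ^ 59) * (5 * mu ^ 2 * (C * L) ^ 2))
      ≤ 7 * (mu ^ 2 * L ^ 2 * C * r ^ 29) := Real.sqrt_le_iff.mpr ⟨by positivity, h1⟩
  rw [div_le_iff₀ hr]
  calc 3 * Real.sqrt ((8 * mu ^ 2 * L ^ 2 * r ^ 59) * (5 * mu ^ 2 * (C * L) ^ 2))
      ≤ 3 * (7 * (mu ^ 2 * L ^ 2 * C * r ^ 29)) := by gcongr
    _ = 21 * (mu ^ 2 * L ^ 2 * C * r ^ 28) * r := by ring

/-- real value of a real series at the origin -/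
theorem N3B_real0 {c : Seq} (hc : IsReal c) : (((ev c 0 0).re : ℝ) : ℂ) = ev c 0 0 := by
  have h := ev_conj hc 0 0
  rw [map_zero] at h
  exact Complex.conj_eq_iff_re.mp h.symm

/-- bounds for the derivatives of the map along the curve -/
theorem sizes : ∃ C : ℝ, 1 ≤ C ∧ ∀ (M mu : ℝ) (ct ca cb : Seq), 1 ≤ M → 0 < mu → mu ≤ 1 / (C * M ^ 2) →
    Data M mu ct ca cb → ∀ (r nu : ℝ) (u v : ℂ → ℂ), 0 < r → r ≤ 1 / (C * M ^ 2) → nu ≤ 1 / (C * M ^ 2) →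
    P r u → P r v → B r v nu → B r (deriv u) nu → B r (deriv v) nu →
    P r (Axf mu ca r u v) ∧ P r (Ayf mu ct ca r u v) ∧ P r (Bxf mu cb r u v) ∧ P r (Byf mu cb r u v) ∧
    B r (Ayf mu ct ca r u v) (C * M) ∧ B r (Byf mu cb r u v) (C * M) ∧
    (∀ z ∈ S (r / 4), ‖(1 + (mu : ℂ) * Axf mu ca r u v z) * (1 + (mu : ℂ) * Byf mu cb r u v z)
      - (mu : ℂ) * Ayf mu ct ca r u v z * ((mu : ℂ) * Bxf mu cb r u v z) - 1‖ ≤ mu * (C * M ^ 2 * r ^ 28)) ∧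
    1 / M ≤ |(ev (D2 ct) 0 0).re| ∧
    (∀ x : ℝ, ‖Ayf mu ct ca r u v (x : ℂ) - (((ev (D2 ct) 0 0).re : ℝ) : ℂ)‖ ≤ 1 / (8 * M)) := by
  have hC0 := N3B_C0
  refine ⟨1000 * C0, by linarith, ?_⟩
  intro M mu ct ca cb hM hmu0 hmu hd r nu u v hr hrC hnuC hu hv bv bu' bv'
  have hM0 : 0 < M := by linarith
  have hMM : 1 ≤ M ^ 2 := one_le_pow₀ hM
  have hCM : 1000 ≤ 1000 * C0 * M ^ 2 := by nlinarith
  have hsmall : 1 / (1000 * C0 * M ^ 2) ≤ 1 / 1000 := one_div_le_one_div_of_le (by norm_num) hCM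
  have hsmall2 : 1 / (1000 * C0 * M ^ 2) ≤ 1 / (1000 * M ^ 2) :=
    one_div_le_one_div_of_le (by positivity) (by nlinarith)
  have hmu1 : mu ≤ 1 := by linarith
  have hr1 : r ≤ 1 := by linarith
  have hnu1 : nu ≤ 1 / 1000 := by linarith
  have hnu0 : 0 ≤ nu := B.nonneg bv hr
  have nmu : ‖(mu : ℂ)‖ = mu := by rw [Complex.norm_real, Real.norm_of_nonneg hmu0.le]
  set L : ℝ := 2 * Real.pi * M with hL
  have hpi := Real.pi_gt_three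
  have hpi4 := Real.pi_le_four
  have hpi315 := Real.pi_lt_d2
  have hL1 : 1 ≤ L := by rw [hL]; nlinarith
  have hL0 : 0 < L := by linarith
  -- the derivative sequences
  have b1t : Bd (D1 ct) 59 L := Bd.D1 (m := 59) hd.bt
  have b2t : Bd (D2 ct) 59 L := Bd.D2 (m := 59) hd.bt
  have b1a : Bd (D1 ca) 59 L := Bd.D1 (m := 59) hd.ba
  have b2a : Bd (D2 ca) 59 L := Bd.D2 (m := 59) hd.ba
  have b1b : Bd (D1 cb) 59 L := Bd.D1 (m := 59) hd.bb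
  have b2b : Bd (D2 cb) 59 L := Bd.D2 (m := 59) hd.bb
  -- membership in P
  have PA_ : P r (Axf mu ca r u v) := P.mul (P.const r mu) (ev_comp_P hr hd.ra.D1 hu hv)
  have PAy : P r (Ayf mu ct ca r u v) :=
    P.add (ev_comp_P hr hd.rt.D2 hu hv) (P.mul (P.const r mu) (ev_comp_P hr hd.ra.D2 hu hv))
  have PBx : P r (Bxf mu cb r u v) := P.mul (P.const r mu) (ev_comp_P hr hd.rb.D1 hu hv)
  have PBy : P r (Byf mu cb r u v) := P.mul (P.const r mu) (ev_comp_P hr hd.rb.D2 hu hv)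
  -- bounds on the strip
  have width := in_width hu hv (by linarith : nu ≤ 1) bu' bv'
  have tr : ∀ (c : Seq), Bd c 59 L → ∀ z ∈ S r, ‖ev (trunc r c) (z + u z) (v z)‖ ≤ C0 * L := by
    intro c hc z hz
    obtain ⟨w1, w2⟩ := width z hz
    have hz' : |z.im| < r := hz
    exact ev_trunc_le (hc.mono (Nat.zero_le _) le_rfl) hr (by linarith) (by linarith [abs_nonneg z.im])
  have BA : B r (Axf mu ca r u v) (mu * (C0 * L)) := by
    intro z hz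
    unfold Axf
    rw [norm_mul, nmu]
    exact mul_le_mul_of_nonneg_left (tr _ b1a z hz) hmu0.le
  have BBx : B r (Bxf mu cb r u v) (mu * (C0 * L)) := by
    intro z hz
    unfold Bxf
    rw [norm_mul, nmu]
    exact mul_le_mul_of_nonneg_left (tr _ b1b z hz) hmu0.le
  have BBy : B r (Byf mu cb r u v) (mu * (C0 * L)) := by
    intro z hz
    unfold Byf
    rw [norm_mul, nmu]
    exact mul_le_mul_of_nonneg_left (tr _ b2b z hz) hmu0.le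
  have hCL0 : 0 ≤ C0 * L := by positivity
  have BAy : B r (Ayf mu ct ca r u v) (2 * (C0 * L)) := by
    intro z hz
    unfold Ayf
    refine (norm_add_le _ _).trans ?_
    rw [norm_mul, nmu]
    have h1 := tr _ b2t z hz
    have h2 := tr _ b2a z hz
    have h3 : mu * ‖ev (trunc r (D2 ca)) (z + u z) (v z)‖ ≤ 1 * (C0 * L) := by
      gcongr
    linarith
  -- real points
  have realpt : ∀ x : ℝ, ∃ X Y : ℝ, (x : ℂ) + u (x : ℂ) = (X : ℂ) ∧ v (x : ℂ) = (Y : ℂ) ∧ |Y| ≤ nu := by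
    intro x
    refine ⟨x + (u (x : ℂ)).re, (v (x : ℂ)).re, ?_, ?_, ?_⟩
    · rw [Complex.ofReal_add, P.coe_re hu hr x]
    · rw [P.coe_re hv hr x]
    · exact (Complex.abs_re_le_norm _).trans (bv _ (real_mem_S hr x))
  -- the determinant
  set Dt : ℂ → ℂ := fun z => (1 + (mu : ℂ) * Axf mu ca r u v z) * (1 + (mu : ℂ) * Byf mu cb r u v z)
      - (mu : ℂ) * Ayf mu ct ca r u v z * ((mu : ℂ) * Bxf mu cb r u v z) - 1 with hDt
  have PD : P r Dt := by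
    have c1 := P.const r 1
    have cm := P.const r mu
    have h := ((P.mul (P.add c1 (P.mul cm PA_)) (P.add c1 (P.mul cm PBy))).sub
      (P.mul (P.mul cm PAy) (P.mul cm PBx))).sub c1
    refine h.congr ?_
    intro z _
    simp [hDt]
  have BD : B r Dt (5 * mu ^ 2 * (C0 * L) ^ 2) := by
    intro z hz
    have hCL1 : 1 ≤ C0 * L := by nlinarith
    exact N3B_det_crude hmu0 hmu1 hCL1 (BA z hz) (BBy z hz) (BAy z hz) (BBx z hz)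
  have re59 : 0 ≤ r ^ 59 := by positivity
  have RD : ∀ x : ℝ, ‖Dt (x : ℂ)‖ ≤ 8 * mu ^ 2 * L ^ 2 * r ^ 59 := by
    intro x
    obtain ⟨X, Y, hX, hY, hYn⟩ := realpt x
    have hdet := hd.det X Y (by linarith)
    have e1 := ev_trunc_real b1a hr X Y
    have e2 := ev_trunc_real b2a hr X Y
    have e3 := ev_trunc_real b1b hr X Y
    have e4 := ev_trunc_real b2b hr X Y
    have e5 := ev_trunc_real b2t hr X Y
    have z0 : ∀ (c : Seq), Bd c 59 L → ‖ev c (X : ℂ) (Y : ℂ)‖ ≤ L := fun c hc =>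
      ev_le_real (hc.mono (Nat.zero_le _) le_rfl) X Y
    have z1 : ∀ (c : Seq), Bd c 59 L → ‖ev (trunc r c) (X : ℂ) (Y : ℂ)‖ ≤ L := fun c hc =>
      ev_le_real ((hc.trunc r).mono (Nat.zero_le _) le_rfl) X Y
    have hA : Axf mu ca r u v (x : ℂ) = (mu : ℂ) * ev (trunc r (D1 ca)) (X : ℂ) (Y : ℂ) := by
      unfold Axf; rw [hX, hY]
    have hAy : Ayf mu ct ca r u v (x : ℂ) = ev (trunc r (D2 ct)) (X : ℂ) (Y : ℂ)
        + (mu : ℂ) * ev (trunc r (D2 ca)) (X : ℂ) (Y : ℂ) := by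
      unfold Ayf; rw [hX, hY]
    have hBx : Bxf mu cb r u v (x : ℂ) = (mu : ℂ) * ev (trunc r (D1 cb)) (X : ℂ) (Y : ℂ) := by
      unfold Bxf; rw [hX, hY]
    have hBy : Byf mu cb r u v (x : ℂ) = (mu : ℂ) * ev (trunc r (D2 cb)) (X : ℂ) (Y : ℂ) := by
      unfold Byf; rw [hX, hY]
    rw [hDt]
    simp only
    rw [hA, hAy, hBx, hBy]
    refine N3B_det_diff (a1 := (mu : ℂ) * ev (D1 ca) X Y) (b2 := (mu : ℂ) * ev (D2 cb) X Y)
      (a2 := ev (D2 ct) X Y + (mu : ℂ) * ev (D2 ca) X Y) (b1 := (mu : ℂ) * ev (D1 cb) X Y)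
      hmu0 hmu1 hL1 re59 ?_ ?_ ?_ ?_ ?_ ?_ ?_ ?_ hdet
    · rw [← mul_sub, norm_mul, nmu, norm_sub_rev]; gcongr
    · rw [← mul_sub, norm_mul, nmu, norm_sub_rev]; gcongr
    · have : ev (trunc r (D2 ct)) (X : ℂ) (Y : ℂ) + (mu : ℂ) * ev (trunc r (D2 ca)) (X : ℂ) (Y : ℂ)
          - (ev (D2 ct) (X : ℂ) (Y : ℂ) + (mu : ℂ) * ev (D2 ca) (X : ℂ) (Y : ℂ))
          = -(ev (D2 ct) (X : ℂ) (Y : ℂ) - ev (trunc r (D2 ct)) (X : ℂ) (Y : ℂ))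
            - (mu : ℂ) * (ev (D2 ca) (X : ℂ) (Y : ℂ) - ev (trunc r (D2 ca)) (X : ℂ) (Y : ℂ)) := by ring
      rw [this]
      refine (norm_sub_le _ _).trans ?_
      rw [norm_neg, norm_mul, nmu]
      have h3 : mu * ‖ev (D2 ca) (X : ℂ) (Y : ℂ) - ev (trunc r (D2 ca)) (X : ℂ) (Y : ℂ)‖ ≤ 1 * (L * r ^ 59) := by
        gcongr
      linarith
    · rw [← mul_sub, norm_mul, nmu, norm_sub_rev]; gcongr
    · rw [norm_mul, nmu]; gcongr; exact z0 _ b1a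
    · rw [norm_mul, nmu]; gcongr; exact z1 _ b2b
    · refine (norm_add_le _ _).trans ?_
      rw [norm_mul, nmu]
      have h1 := z0 _ b2t
      have h3 : mu * ‖ev (D2 ca) (X : ℂ) (Y : ℂ)‖ ≤ 1 * L := by
        gcongr; exact z0 _ b2a
      linarith
    · rw [norm_mul, nmu]; gcongr; exact z1 _ b1b
  have ID := interp hr hr1 PD BD RD
  refine ⟨PA_, PAy, PBx, PBy, ?_, ?_, ?_, ?_, ?_⟩
  · refine BAy.mono le_rfl ?_
    rw [hL]
    have : 0 ≤ C0 * M := by positivity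
    nlinarith
  · refine BBy.mono le_rfl ?_
    rw [hL]
    have : 0 ≤ C0 * M := by positivity
    have h2 : mu * (C0 * (2 * Real.pi * M)) ≤ 1 * (C0 * (2 * Real.pi * M)) := by gcongr
    nlinarith
  · intro z hz
    refine (ID z hz).trans ((N3B_sqrt hmu0 hL1 hC0 hr hr1).trans ?_)
    rw [hL]
    have h28 : 0 ≤ C0 * M ^ 2 * r ^ 28 := by positivity
    have hpp : Real.pi ^ 2 ≤ 10 := by nlinarith
    have : 21 * (mu ^ 2 * (2 * Real.pi * M) ^ 2 * C0 * r ^ 28)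
        = mu * ((84 * Real.pi ^ 2) * (C0 * M ^ 2 * r ^ 28) * mu) := by ring
    rw [this]
    have h5 : (84 * Real.pi ^ 2) * (C0 * M ^ 2 * r ^ 28) * mu
        ≤ (84 * 10) * (C0 * M ^ 2 * r ^ 28) * 1 := by gcongr
    have h6 : (84 * 10) * (C0 * M ^ 2 * r ^ 28) * 1 ≤ 1000 * C0 * M ^ 2 * r ^ 28 := by nlinarith
    exact mul_le_mul_of_nonneg_left (h5.trans h6) hmu0.le
  · have h := hd.twist
    rw [← N3B_real0 hd.rt.D2, Complex.norm_real, Real.norm_eq_abs] at h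
    exact h
  · intro x
    obtain ⟨X, Y, hX, hY, hYn⟩ := realpt x
    rw [N3B_real0 hd.rt.D2]
    have hAy : Ayf mu ct ca r u v (x : ℂ) = ev (trunc r (D2 ct)) (X : ℂ) (Y : ℂ)
        + (mu : ℂ) * ev (trunc r (D2 ca)) (X : ℂ) (Y : ℂ) := by
      unfold Ayf; rw [hX, hY]
    rw [hAy]
    have b2t1 : Bd (D2 ct) 1 L := b2t.mono (by norm_num) le_rfl
    have e1 := ev_trunc_real b2t1 hr X Y
    have hsup : ∀ k : ℤ × ℤ, k.1 ≠ 0 → D2 ct k = 0 := by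
      intro k hk
      unfold D2
      rw [hd.supp k hk, mul_zero]
    have e2 := ev_supp hsup (X : ℂ) 0 (Y : ℂ)
    have e3 := ev_lip_real b2t1 0 Y 0 0
    rw [sub_self, abs_zero, sub_zero, max_eq_right (abs_nonneg Y)] at e3
    have e4 : ‖ev (trunc r (D2 ca)) (X : ℂ) (Y : ℂ)‖ ≤ L :=
      ev_le_real ((b2a.trunc r).mono (Nat.zero_le _) le_rfl) X Y
    rw [e2] at e1
    rw [Complex.ofReal_zero] at e3
    have split : ev (trunc r (D2 ct)) (X : ℂ) (Y : ℂ) + (mu : ℂ) * ev (trunc r (D2 ca)) (X : ℂ) (Y : ℂ)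
        - ev (D2 ct) 0 0 = (ev (D2 ct) 0 (Y : ℂ) - ev (D2 ct) 0 0)
          - (ev (D2 ct) 0 (Y : ℂ) - ev (trunc r (D2 ct)) (X : ℂ) (Y : ℂ))
          + (mu : ℂ) * ev (trunc r (D2 ca)) (X : ℂ) (Y : ℂ) := by ring
    rw [split]
    refine (norm_add_le _ _).trans ((add_le_add (norm_sub_le _ _) le_rfl).trans ?_)
    rw [norm_mul, nmu]
    have f1 : 2 * Real.pi * L * |Y| ≤ 2 * Real.pi * L * (1 / (1000 * M ^ 2)) := by
      gcongr; linarith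
    have f2 : L * r ^ 1 ≤ L * (1 / (1000 * M ^ 2)) := by
      rw [pow_one]; gcongr; linarith
    have f3 : mu * ‖ev (trunc r (D2 ca)) (X : ℂ) (Y : ℂ)‖ ≤ (1 / (1000 * M ^ 2)) * L := by
      gcongr; linarith
    have f4 : 2 * Real.pi * L * (1 / (1000 * M ^ 2)) + L * (1 / (1000 * M ^ 2)) + (1 / (1000 * M ^ 2)) * L
        = (4 * Real.pi ^ 2 + 4 * Real.pi) / 1000 * (1 / M) := by
      rw [hL]; field_simp; ring
    have f5 : (4 * Real.pi ^ 2 + 4 * Real.pi) / 1000 ≤ 1 / 8 := by nlinarith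
    have f6 : (4 * Real.pi ^ 2 + 4 * Real.pi) / 1000 * (1 / M) ≤ 1 / 8 * (1 / M) := by gcongr
    have f7 : 1 / 8 * (1 / M) = 1 / (8 * M) := by field_simp
    linarith

end BBK
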