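import Pool.Agent.Lib_helper16.BBK.Defs
import Pool.Agent.Lib_helper16.BBK.PA
import Pool.Agent.Lib_helper16.BBK.K1
import Pool.Agent.Lib_helper16.BBK.E1
import Pool.Agent.Lib_helper16.BBK.E2
import Pool.Agent.Lib_helper16.BBK.N3A

open Set
open scoped ContDiff

namespace BBK

theorem N4A_c {c : Seq} {M r D : ℝ} (h : Bd c 60 M) (hr : 0 < r) {x y d1 d2 : ℂ}
    (hx : |x.im| ≤ 3 / 16 * r) (hy : |y.im| ≤ 3 / 16 * r) (hd1 : ‖d1‖ ≤ D) (hd2 : ‖d2‖ ≤ D)
    (hD : D ≤ r / 100) :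
    ‖ev (trunc (r / 8) c) (x + d1) (y + d2) - ev (trunc r c) x y
      - ev (trunc r (D1 c)) x y * d1 - ev (trunc r (D2 c)) x y * d2‖
      ≤ 40 * C0 * M * D ^ 2 + C0 * M * r ^ 60 := by
  have h2 : Bd c 2 M := h.mono (by norm_num) le_rfl
  have t := ev_trunc_taylor h2 hr (x := x) (y := y) (by linarith) (by linarith) hd1 hd2
    (by linarith)
  have i1 : |d1.im| ≤ r / 100 := (Complex.abs_im_le_norm d1).trans (hd1.trans hD)
  have i2 : |d2.im| ≤ r / 100 := (Complex.abs_im_le_norm d2).trans (hd2.trans hD)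
  have w1 : |(x + d1).im| ≤ 2 * (r / 8) := by
    rw [Complex.add_im]
    refine (abs_add_le _ _).trans ?_
    linarith
  have w2 : |(y + d2).im| ≤ 2 * (r / 8) := by
    rw [Complex.add_im]
    refine (abs_add_le _ _).trans ?_
    linarith
  have s := ev_trunc_trunc h hr w1 w2
  have e : ev (trunc (r / 8) c) (x + d1) (y + d2) - ev (trunc r c) x y
      - ev (trunc r (D1 c)) x y * d1 - ev (trunc r (D2 c)) x y * d2
      = (ev (trunc r c) (x + d1) (y + d2) - ev (trunc r c) x y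
        - ev (trunc r (D1 c)) x y * d1 - ev (trunc r (D2 c)) x y * d2)
      + (ev (trunc (r / 8) c) (x + d1) (y + d2) - ev (trunc r c) (x + d1) (y + d2)) := by ring
  rw [e]
  exact (norm_add_le _ _).trans (add_le_add t s)

theorem N4A_zero {M mu : ℝ} {ct ca cb : Seq} (hd : Data M mu ct ca cb) (r : ℝ) (x y : ℂ) :
    ev (trunc r (BBK.D1 ct)) x y = 0 := by
  have h1 : BBK.D1 ct = fun _ => 0 := by
    funext k
    unfold BBK.D1
    by_cases hk : k.1 = 0
    · rw [hk]; simp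
    · rw [hd.supp k hk, mul_zero]
  have h2 : trunc r (BBK.D1 ct) = fun _ => 0 := by
    funext k
    unfold trunc
    rw [h1]
    simp
  unfold ev
  rw [h2]
  simp

/-- the new residuals: Taylor expansion at `(z + u z, v z)` and change of the truncation -/
theorem new_res {M mu al : ℝ} {ct ca cb : Seq} (hM : 1 ≤ M) (hmu : 0 < mu) (hmu1 : mu ≤ 1)
    (hd : Data M mu ct ca cb) {r nu D lam dl : ℝ} {u v d1 d2 : ℂ → ℂ} (hr : 0 < r) (hr1 : r ≤ 1)
    (hu : P r u) (hv : P r v) (bu : B r (deriv u) nu) (bv : B r (deriv v) nu)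
    (hd1 : P (r / 2) d1) (hd2 : P (r / 2) d2) (b1 : B (r / 2) d1 D) (b2 : B (r / 2) d2 D)
    (hD : D ≤ r / 100) (hnu : nu ≤ 1 / 2) :
    (∀ z ∈ S (r / 8), ‖res1 mu al ct ca (r / 8) (fun z => u z + d1 z) (fun z => v z + d2 z) z
      - (res1 mu al ct ca r u v z + (mu : ℂ) * Axf mu ca r u v z * d1 z
        + (mu : ℂ) * Ayf mu ct ca r u v z * d2 z + d1 z - d1 (z + (al : ℂ)))‖
        ≤ mu * (80 * C0 * M * D ^ 2 + 2 * C0 * M * r ^ 60)) ∧
    (∀ z ∈ S (r / 8), ‖res2 mu al cb (r / 8) (fun z => u z + d1 z) (fun z => v z + d2 z) (lam + dl) z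
      - (res2 mu al cb r u v lam z + (mu : ℂ) * Bxf mu cb r u v z * d1 z
        + (mu : ℂ) * Byf mu cb r u v z * d2 z + d2 z - d2 (z + (al : ℂ)) - (dl : ℂ))‖
        ≤ mu * (80 * C0 * M * D ^ 2 + 2 * C0 * M * r ^ 60)) := by
  have hC0 : 0 < C0 := Real.exp_pos _
  have hM0 : 0 < M := by linarith
  have hmuC : ‖(mu : ℂ)‖ = mu := by rw [Complex.norm_real, Real.norm_of_nonneg hmu.le]
  set K : ℝ := 40 * C0 * M * D ^ 2 + C0 * M * r ^ 60 with hK
  have hK0 : 0 ≤ K := by positivity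
  have hK2 : 80 * C0 * M * D ^ 2 + 2 * C0 * M * r ^ 60 = 2 * K := by rw [hK]; ring
  have width : ∀ z ∈ S (r / 8), |(z + u z).im| ≤ 3 / 16 * r ∧ |(v z).im| ≤ 3 / 16 * r := by
    intro z hz
    have hz' : |z.im| < r / 8 := hz
    have hzr : z ∈ S r := S_mono (by linarith) hz
    have h1 := im_le hu bu z hzr
    have h2 := im_le hv bv z hzr
    have h3 : nu * |z.im| ≤ 1 / 2 * |z.im| := mul_le_mul_of_nonneg_right hnu (abs_nonneg _)
    constructor
    · rw [Complex.add_im]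
      refine (abs_add_le _ _).trans ?_
      linarith
    · linarith [abs_nonneg z.im]
  rw [hK2]
  constructor
  · intro z hz
    obtain ⟨w1, w2⟩ := width z hz
    have hzr : z ∈ S (r / 2) := S_mono (by linarith) hz
    have T := N4A_c hd.bt hr w1 w2 (b1 z hzr) (b2 z hzr) hD
    have A := N4A_c hd.ba hr w1 w2 (b1 z hzr) (b2 z hzr) hD
    rw [N4A_zero hd, zero_mul, sub_zero] at T
    rw [← hK] at T A
    set TT := ev (trunc (r / 8) ct) (z + u z + d1 z) (v z + d2 z) - ev (trunc r ct) (z + u z) (v z)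
      - ev (trunc r (BBK.D2 ct)) (z + u z) (v z) * d2 z with hTT
    set AA := ev (trunc (r / 8) ca) (z + u z + d1 z) (v z + d2 z) - ev (trunc r ca) (z + u z) (v z)
      - ev (trunc r (BBK.D1 ca)) (z + u z) (v z) * d1 z
      - ev (trunc r (BBK.D2 ca)) (z + u z) (v z) * d2 z with hAA
    have e : res1 mu al ct ca (r / 8) (fun z => u z + d1 z) (fun z => v z + d2 z) z
      - (res1 mu al ct ca r u v z + (mu : ℂ) * Axf mu ca r u v z * d1 z
        + (mu : ℂ) * Ayf mu ct ca r u v z * d2 z + d1 z - d1 (z + (al : ℂ)))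
        = (mu : ℂ) * (TT + (mu : ℂ) * AA) := by
      unfold res1 Axf Ayf
      rw [hTT, hAA, ← add_assoc z (u z) (d1 z)]
      ring
    rw [e, norm_mul, hmuC]
    refine mul_le_mul_of_nonneg_left ?_ hmu.le
    refine (norm_add_le _ _).trans ?_
    rw [norm_mul, hmuC]
    have h5 : mu * ‖AA‖ ≤ 1 * K := mul_le_mul hmu1 A (norm_nonneg _) (by norm_num)
    linarith
  · intro z hz
    obtain ⟨w1, w2⟩ := width z hz
    have hzr : z ∈ S (r / 2) := S_mono (by linarith) hz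
    have A := N4A_c hd.bb hr w1 w2 (b1 z hzr) (b2 z hzr) hD
    rw [← hK] at A
    set AA := ev (trunc (r / 8) cb) (z + u z + d1 z) (v z + d2 z) - ev (trunc r cb) (z + u z) (v z)
      - ev (trunc r (BBK.D1 cb)) (z + u z) (v z) * d1 z
      - ev (trunc r (BBK.D2 cb)) (z + u z) (v z) * d2 z with hAA
    have e : res2 mu al cb (r / 8) (fun z => u z + d1 z) (fun z => v z + d2 z) (lam + dl) z
      - (res2 mu al cb r u v lam z + (mu : ℂ) * Bxf mu cb r u v z * d1 z
        + (mu : ℂ) * Byf mu cb r u v z * d2 z + d2 z - d2 (z + (al : ℂ)) - (dl : ℂ))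
        = (mu : ℂ) * ((mu : ℂ) * AA) := by
      unfold res2 Bxf Byf
      rw [hAA, ← add_assoc z (u z) (d1 z)]
      push_cast
      ring
    rw [e, norm_mul, norm_mul, hmuC]
    refine mul_le_mul_of_nonneg_left ?_ hmu.le
    have h5 : mu * ‖AA‖ ≤ 1 * K := mul_le_mul hmu1 A (norm_nonneg _) (by norm_num)
    linarith

end BBK
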