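import Pool.Agent.Lib_helper16.BBK.Defs
import Pool.Agent.Lib_helper16.BBK.PA
import Pool.Agent.Lib_helper16.BBK.K1
import Pool.Agent.Lib_helper16.BBK.N2B
import Pool.Agent.Lib_helper16.BBK.N3A
import Pool.Agent.Lib_helper16.BBK.N3B
import Pool.Agent.Lib_helper16.BBK.N4A

open Set
open scoped ContDiff

namespace BBK

theorem N4B_C0 : 1 ≤ C0 := by
  unfold C0
  exact Real.one_le_exp (by positivity)

/-- numbers: everything needed from the choice of `C` -/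
theorem N4B_num {C1 M mu r kap nu : ℝ} (hC1 : 1 ≤ C1) (hM : 1 ≤ M) (hmu : 0 < mu)
    (hmuC : mu ≤ 1 / (10 ^ 20 * C0 * C1 ^ 4 * M ^ 2)) (hr : 0 < r) (hrC : r ≤ 1 / (10 ^ 20 * C0 * C1 ^ 4 * M ^ 2))
    (hk : 0 ≤ kap) (hkC : 10 ^ 20 * C0 * C1 ^ 4 * M ^ 20 * kap ≤ r ^ 20)
    (hnC : nu ≤ 1 / (10 ^ 20 * C0 * C1 ^ 4 * M ^ 2)) :
    r ≤ 1 ∧ mu ≤ 1 ∧ nu ≤ 1 / 16 ∧ mu * (C1 * M) ≤ 1 ∧ mu ≤ 1 / (C1 * M ^ 2) ∧ r ≤ 1 / (C1 * M ^ 2) ∧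
    nu ≤ 1 / (C1 * M ^ 2) ∧ 10 ^ 5 * (C1 * M) ^ 2 * M ^ 3 * kap / r ^ 4 ≤ r / 100 ∧
    10 ^ 5 * (C1 * M) ^ 2 * M ^ 3 * kap / r ^ 4 ≤ 10 ^ 20 * C0 * C1 ^ 4 * M ^ 20 * kap / r ^ 20 ∧
    10 ^ 5 * (C1 * M) ^ 2 * M ^ 3 * kap / r ^ 4 / (3 * r / 8) ≤ 10 ^ 20 * C0 * C1 ^ 4 * M ^ 20 * kap / r ^ 20 ∧
    80 * C0 * M * (10 ^ 5 * (C1 * M) ^ 2 * M ^ 3 * kap / r ^ 4) ^ 2 + 2 * C0 * M * r ^ 60
      + (10 ^ 5 * (C1 * M) ^ 2 * M ^ 3 * kap ^ 2 / r ^ 5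
        + 10 ^ 4 * (C1 * M) * M ^ 2 * (C1 * M ^ 2 * r ^ 28) * kap / r ^ 2)
      ≤ 10 ^ 20 * C0 * C1 ^ 4 * M ^ 20 * kap ^ 2 / r ^ 20 + 10 ^ 20 * C0 * C1 ^ 4 * M ^ 20 * r ^ 20 * kap
        + 10 ^ 20 * C0 * C1 ^ 4 * M * r ^ 60 := by
  have hC0 := N4B_C0
  have hC14 : 1 ≤ C1 ^ 4 := one_le_pow₀ hC1
  have hC12 : C1 ^ 2 ≤ C1 ^ 4 := pow_le_pow_right₀ hC1 (by norm_num)
  have hC11 : C1 ≤ C1 ^ 4 := by simpa using pow_le_pow_right₀ hC1 (show 1 ≤ 4 by norm_num)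
  have hM2 : 1 ≤ M ^ 2 := one_le_pow₀ hM
  have hM520 : M ^ 5 ≤ M ^ 20 := pow_le_pow_right₀ hM (by norm_num)
  have hM1120 : M ^ 11 ≤ M ^ 20 := pow_le_pow_right₀ hM (by norm_num)
  have hM12 : M ≤ M ^ 2 := by nlinarith
  have hM20 : 1 ≤ M ^ 20 := one_le_pow₀ hM
  have hCC : C1 ^ 4 ≤ C0 * C1 ^ 4 := by nlinarith
  have hCCp : (0 : ℝ) < 10 ^ 20 * C0 * C1 ^ 4 * M ^ 2 := by positivity
  have hCM2 : C1 * M ^ 2 ≤ 10 ^ 20 * C0 * C1 ^ 4 * M ^ 2 := by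
    apply mul_le_mul_of_nonneg_right _ (by positivity)
    nlinarith
  have h16 : (16 : ℝ) ≤ 10 ^ 20 * C0 * C1 ^ 4 * M ^ 2 := by
    have : (1 : ℝ) ≤ C0 * C1 ^ 4 := by nlinarith
    have : (1 : ℝ) ≤ C0 * C1 ^ 4 * M ^ 2 := by nlinarith
    nlinarith
  have hsmall : 1 / (10 ^ 20 * C0 * C1 ^ 4 * M ^ 2) ≤ 1 / 16 := one_div_le_one_div_of_le (by norm_num) h16
  have hsmall2 : 1 / (10 ^ 20 * C0 * C1 ^ 4 * M ^ 2) ≤ 1 / (C1 * M ^ 2) :=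
    one_div_le_one_div_of_le (by positivity) hCM2
  have hr1 : r ≤ 1 := by linarith
  have hmu1 : mu ≤ 1 := by linarith
  have hC1p : 0 < C1 := by linarith
  have hMp : 0 < M := by linarith
  have hC0p : 0 < C0 := by linarith
  -- the main comparison
  have hA : 10 ^ 7 * C1 ^ 2 * M ^ 5 ≤ 10 ^ 20 * C0 * C1 ^ 4 * M ^ 20 := by
    calc 10 ^ 7 * C1 ^ 2 * M ^ 5 ≤ 10 ^ 7 * C1 ^ 4 * M ^ 20 := by gcongr
      _ ≤ 10 ^ 20 * C0 * C1 ^ 4 * M ^ 20 := by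
          have : 10 ^ 7 * C1 ^ 4 ≤ 10 ^ 20 * C0 * C1 ^ 4 := by nlinarith
          gcongr
  have hr20 : r ^ 20 ≤ r ^ 5 := pow_le_pow_of_le_one hr.le hr1 (by norm_num)
  have hr208 : r ^ 20 ≤ r ^ 8 := pow_le_pow_of_le_one hr.le hr1 (by norm_num)
  have hr204 : r ^ 20 ≤ r ^ 4 := pow_le_pow_of_le_one hr.le hr1 (by norm_num)
  have hr2620 : r ^ 26 ≤ r ^ 20 := pow_le_pow_of_le_one hr.le hr1 (by norm_num)
  have hX : 0 ≤ kap ^ 2 / r ^ 20 := by positivity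
  have h5 : kap ^ 2 / r ^ 5 ≤ kap ^ 2 / r ^ 20 := by gcongr
  have h8 : kap ^ 2 / r ^ 8 ≤ kap ^ 2 / r ^ 20 := by gcongr
  refine ⟨hr1, hmu1, by linarith, ?_, by linarith, by linarith, by linarith, ?_, ?_, ?_, ?_⟩
  · calc mu * (C1 * M) ≤ 1 / (C1 * M ^ 2) * (C1 * M ^ 2) := by
          apply mul_le_mul (by linarith) _ (by positivity) (by positivity)
          gcongr
      _ = 1 := by field_simp
  · rw [div_le_div_iff₀ (by positivity) (by norm_num)]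
    calc 10 ^ 5 * (C1 * M) ^ 2 * M ^ 3 * kap * 100 = 10 ^ 7 * C1 ^ 2 * M ^ 5 * kap := by ring
      _ ≤ 10 ^ 20 * C0 * C1 ^ 4 * M ^ 20 * kap := by gcongr
      _ ≤ r ^ 20 := hkC
      _ ≤ r ^ 5 := hr20
      _ = r * r ^ 4 := by ring
  · have hq : 10 ^ 5 * (C1 * M) ^ 2 * M ^ 3 ≤ 10 ^ 7 * C1 ^ 2 * M ^ 5 := by
      nlinarith [show 0 ≤ C1 ^ 2 * M ^ 5 by positivity]
    calc 10 ^ 5 * (C1 * M) ^ 2 * M ^ 3 * kap / r ^ 4 ≤ (10 ^ 7 * C1 ^ 2 * M ^ 5) * kap / r ^ 4 :=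
          div_le_div_of_nonneg_right (mul_le_mul_of_nonneg_right hq hk) (by positivity)
      _ ≤ (10 ^ 20 * C0 * C1 ^ 4 * M ^ 20) * kap / r ^ 4 := by gcongr
      _ ≤ (10 ^ 20 * C0 * C1 ^ 4 * M ^ 20) * kap / r ^ 20 := by gcongr
  · have e : 10 ^ 5 * (C1 * M) ^ 2 * M ^ 3 * kap / r ^ 4 / (3 * r / 8)
        = (8 / 3 * 10 ^ 5 * (C1 ^ 2 * M ^ 5)) * kap / r ^ 5 := by field_simp
    rw [e]
    have hq : 8 / 3 * 10 ^ 5 * (C1 ^ 2 * M ^ 5) ≤ 10 ^ 7 * C1 ^ 2 * M ^ 5 := by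
      nlinarith [show 0 ≤ C1 ^ 2 * M ^ 5 by positivity]
    calc (8 / 3 * 10 ^ 5 * (C1 ^ 2 * M ^ 5)) * kap / r ^ 5 ≤ (10 ^ 7 * C1 ^ 2 * M ^ 5) * kap / r ^ 5 :=
          div_le_div_of_nonneg_right (mul_le_mul_of_nonneg_right hq hk) (by positivity)
      _ ≤ (10 ^ 20 * C0 * C1 ^ 4 * M ^ 20) * kap / r ^ 5 := by gcongr
      _ ≤ (10 ^ 20 * C0 * C1 ^ 4 * M ^ 20) * kap / r ^ 20 := by gcongr
  · have e1 : 80 * C0 * M * (10 ^ 5 * (C1 * M) ^ 2 * M ^ 3 * kap / r ^ 4) ^ 2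
        = (80 * 10 ^ 10) * (C0 * C1 ^ 4) * M ^ 11 * (kap ^ 2 / r ^ 8) := by field_simp
    have e2 : 10 ^ 5 * (C1 * M) ^ 2 * M ^ 3 * kap ^ 2 / r ^ 5 = 10 ^ 5 * C1 ^ 2 * M ^ 5 * (kap ^ 2 / r ^ 5) := by
      ring
    have e3 : 10 ^ 4 * (C1 * M) * M ^ 2 * (C1 * M ^ 2 * r ^ 28) * kap / r ^ 2
        = 10 ^ 4 * C1 ^ 2 * M ^ 5 * r ^ 26 * kap := by field_simp
    have e4 : 10 ^ 20 * C0 * C1 ^ 4 * M ^ 20 * kap ^ 2 / r ^ 20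
        = 10 ^ 20 * (C0 * C1 ^ 4) * M ^ 20 * (kap ^ 2 / r ^ 20) := by ring
    have b1 : (80 * 10 ^ 10) * (C0 * C1 ^ 4) * M ^ 11 * (kap ^ 2 / r ^ 8)
        ≤ (80 * 10 ^ 10) * ((C0 * C1 ^ 4) * M ^ 20 * (kap ^ 2 / r ^ 20)) := by
      calc (80 * 10 ^ 10) * (C0 * C1 ^ 4) * M ^ 11 * (kap ^ 2 / r ^ 8)
          ≤ (80 * 10 ^ 10) * (C0 * C1 ^ 4) * M ^ 20 * (kap ^ 2 / r ^ 20) := by gcongr
        _ = _ := by ring
    have b2 : 10 ^ 5 * C1 ^ 2 * M ^ 5 * (kap ^ 2 / r ^ 5) ≤ 10 ^ 5 * ((C0 * C1 ^ 4) * M ^ 20 * (kap ^ 2 / r ^ 20)) := by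
      calc 10 ^ 5 * C1 ^ 2 * M ^ 5 * (kap ^ 2 / r ^ 5)
          ≤ 10 ^ 5 * (C0 * C1 ^ 4) * M ^ 20 * (kap ^ 2 / r ^ 20) := by
            have : C1 ^ 2 ≤ C0 * C1 ^ 4 := hC12.trans hCC
            gcongr
        _ = _ := by ring
    have b3 : 10 ^ 4 * C1 ^ 2 * M ^ 5 * r ^ 26 * kap ≤ 10 ^ 20 * C0 * C1 ^ 4 * M ^ 20 * r ^ 20 * kap := by
      have : 10 ^ 4 * C1 ^ 2 * M ^ 5 ≤ 10 ^ 20 * C0 * C1 ^ 4 * M ^ 20 := by
        refine le_trans ?_ hA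
        nlinarith [show 0 ≤ C1 ^ 2 * M ^ 5 by positivity]
      gcongr
    have b4 : 2 * C0 * M * r ^ 60 ≤ 10 ^ 20 * C0 * C1 ^ 4 * M * r ^ 60 := by
      have : 2 * C0 ≤ 10 ^ 20 * C0 * C1 ^ 4 := by nlinarith
      gcongr
    have hY : 0 ≤ (C0 * C1 ^ 4) * M ^ 20 * (kap ^ 2 / r ^ 20) := by positivity
    rw [e1, e2, e3, e4]
    nlinarith

/-- the Newton step -/
theorem newton : ∃ C : ℝ, 1 ≤ C ∧ ∀ (M mu al : ℝ) (ct ca cb : Seq), 1 ≤ M → 0 < mu → mu ≤ 1 / (C * M ^ 2) →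
    Dio al mu M → Data M mu ct ca cb → ∀ (r kap nu lam : ℝ) (u v : ℂ → ℂ), 0 < r → r ≤ 1 / (C * M ^ 2) →
    0 ≤ kap → C * M ^ 20 * kap ≤ r ^ 20 → 0 ≤ nu → nu ≤ 1 / (C * M ^ 2) →
    State mu al ct ca cb r kap nu u v lam →
    ∃ (u' v' : ℂ → ℂ) (lam' : ℝ),
      State mu al ct ca cb (r / 8) (C * M ^ 20 * kap ^ 2 / r ^ 20 + C * M ^ 20 * r ^ 20 * kap + C * M * r ^ 60)
        (nu + C * M ^ 20 * kap / r ^ 20) u' v' lam' ∧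
      (∀ x : ℝ, ‖u' (x : ℂ) - u (x : ℂ)‖ ≤ C * M ^ 20 * kap / r ^ 20) ∧
      (∀ x : ℝ, ‖v' (x : ℂ) - v (x : ℂ)‖ ≤ C * M ^ 20 * kap / r ^ 20) ∧
      |lam' - lam| ≤ C * mu * kap := by
  obtain ⟨C1, hC1, hsz⟩ := sizes
  have hC0 := N4B_C0
  have hCC : (1 : ℝ) ≤ C0 * C1 ^ 4 := by
    have : 1 ≤ C1 ^ 4 := one_le_pow₀ hC1
    nlinarith
  refine ⟨10 ^ 20 * C0 * C1 ^ 4, by nlinarith, ?_⟩
  intro M mu al ct ca cb hM hmu hmuC hDio hd r kap nu lam u v hr hrC hk hkC hn hnC hS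
  obtain ⟨hr1, hmu1, hn16, hmL, hmu2, hr2, hn2, hD100, hDK, hDK', hfin⟩ :=
    N4B_num hC1 hM hmu hmuC hr hrC hk hkC hnC
  obtain ⟨pAx, pAy, pBx, pBy, bAy, bBy, hdet, ht0, hAt⟩ :=
    hsz M mu ct ca cb hM hmu hmu2 hd r nu u v hr hr2 hn2 hS.hu hS.hv hS.bv hS.bu' hS.bv'
  obtain ⟨pe1, pe2, row1, row2⟩ := rows (al := al) hd hr hS.hu hS.hv lam
  have hL : 1 ≤ C1 * M := by nlinarith
  have hdel : 0 ≤ C1 * M ^ 2 * r ^ 28 := by positivity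
  obtain ⟨d1, d2, dl, hd1, hd2, hdl, bd1, bd2, hr1', hr2'⟩ :=
    newton_lin hM hmu hDio hr hr1 hL hmL hk hdel hS.hu hS.hv pe1 pe2 pAy
      (hS.bu'.mono le_rfl hn16) (hS.bv'.mono le_rfl hn16) hS.e1 hS.e2 bAy bBy row1 row2 hdet ht0 hAt
  obtain ⟨hn1, hn2'⟩ := new_res (al := al) (lam := lam) (dl := dl) hM hmu hmu1 hd hr hr1 hS.hu hS.hv hS.bu' hS.bv'
    hd1 hd2 bd1 bd2 hD100 (by linarith)
  set D : ℝ := 10 ^ 5 * (C1 * M) ^ 2 * M ^ 3 * kap / r ^ 4 with hDdef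
  set K : ℝ := 10 ^ 20 * C0 * C1 ^ 4 * M ^ 20 * kap / r ^ 20 with hKdef
  have h8 : r / 8 ≤ r := by linarith
  have h82 : r / 8 ≤ r / 2 := by linarith
  have h84 : S (r / 8) ⊆ S (r / 4) := S_mono (by linarith)
  have hde : ∀ d : ℂ → ℂ, P (r / 2) d → B (r / 2) d D → B (r / 8) (deriv d) K := by
    intro d hp hb
    have := cauchy hp hb (show 0 < 3 * r / 8 by linarith)
    refine this.mono (by linarith) ?_
    exact hDK'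
  refine ⟨fun z => u z + d1 z, fun z => v z + d2 z, lam + dl, ⟨(hS.hu.mono h8).add (hd1.mono h82),
    (hS.hv.mono h8).add (hd2.mono h82), ?_, ?_, ?_, ?_, ?_, ?_⟩, ?_, ?_, ?_⟩
  · exact (B.add (hS.bu.mono h8 le_rfl) (bd1.mono h82 le_rfl)).mono le_rfl (by linarith)
  · exact (B.add (hS.bv.mono h8 le_rfl) (bd2.mono h82 le_rfl)).mono le_rfl (by linarith)
  · intro z hz
    have e : deriv (fun z => u z + d1 z) z = deriv u z + deriv d1 z :=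
      deriv_fun_add ((hS.hu.hasDerivAt (S_mono h8 hz)).differentiableAt)
        ((hd1.hasDerivAt (S_mono h82 hz)).differentiableAt)
    rw [e]
    exact (norm_add_le _ _).trans (add_le_add (hS.bu' z (S_mono h8 hz)) (hde d1 hd1 bd1 z hz))
  · intro z hz
    have e : deriv (fun z => v z + d2 z) z = deriv v z + deriv d2 z :=
      deriv_fun_add ((hS.hv.hasDerivAt (S_mono h8 hz)).differentiableAt)
        ((hd2.hasDerivAt (S_mono h82 hz)).differentiableAt)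
    rw [e]
    exact (norm_add_le _ _).trans (add_le_add (hS.bv' z (S_mono h8 hz)) (hde d2 hd2 bd2 z hz))
  · intro z hz
    have a1 := hn1 z hz
    have a2 := hr1' z (h84 hz)
    have a3 := norm_le_norm_sub_add (res1 mu al ct ca (r / 8) (fun z => u z + d1 z) (fun z => v z + d2 z) z)
      (res1 mu al ct ca r u v z + (mu : ℂ) * Axf mu ca r u v z * d1 z
        + (mu : ℂ) * Ayf mu ct ca r u v z * d2 z + d1 z - d1 (z + (al : ℂ)))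
    refine (a3.trans (add_le_add a1 a2)).trans ?_
    rw [← mul_add]
    apply mul_le_mul_of_nonneg_left _ hmu.le
    have : 0 ≤ 10 ^ 4 * (C1 * M) * M ^ 2 * (C1 * M ^ 2 * r ^ 28) * kap / r ^ 2 := by positivity
    linarith
  · intro z hz
    have a1 := hn2' z hz
    have a2 := hr2' z (h84 hz)
    have a3 := norm_le_norm_sub_add (res2 mu al cb (r / 8) (fun z => u z + d1 z) (fun z => v z + d2 z) (lam + dl) z)
      (res2 mu al cb r u v lam z + (mu : ℂ) * Bxf mu cb r u v z * d1 z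
        + (mu : ℂ) * Byf mu cb r u v z * d2 z + d2 z - d2 (z + (al : ℂ)) - (dl : ℂ))
    refine (a3.trans (add_le_add a1 a2)).trans ?_
    rw [← mul_add]
    apply mul_le_mul_of_nonneg_left _ hmu.le
    linarith
  · intro x
    have := bd1 (x : ℂ) (real_mem_S (by linarith) x)
    simp only [add_sub_cancel_left]
    linarith
  · intro x
    have := bd2 (x : ℂ) (real_mem_S (by linarith) x)
    simp only [add_sub_cancel_left]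
    linarith
  · rw [add_sub_cancel_left]
    refine hdl.trans ?_
    have : 0 ≤ mu * kap := by positivity
    nlinarith

end BBK
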