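import Pool.Agent.Lib_helper16.BBK.Defs
import Pool.Agent.Lib_helper16.BBK.PA
import Pool.Agent.Lib_helper16.BBK.N4B

open Set
open scoped ContDiff

namespace BBK

theorem J1A_State_mono {mu al : ℝ} {ct ca cb : Seq} {r kap kap' nu nu' : ℝ} {u v : ℂ → ℂ} {lam : ℝ}
    (h : State mu al ct ca cb r kap nu u v lam) (hmu : 0 ≤ mu) (hk : kap ≤ kap') (hn : nu ≤ nu') :
    State mu al ct ca cb r kap' nu' u v lam :=
  ⟨h.hu, h.hv, h.bu.mono le_rfl hn, h.bv.mono le_rfl hn, h.bu'.mono le_rfl hn, h.bv'.mono le_rfl hn,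
    h.e1.mono le_rfl (mul_le_mul_of_nonneg_left hk hmu),
    h.e2.mono le_rfl (mul_le_mul_of_nonneg_left hk hmu)⟩

/-- one step of the iteration with the choice `kap = r ^ 41`, `nu = r0 - r` -/
theorem step : ∃ C : ℝ, 1 ≤ C ∧ ∀ (M mu al : ℝ) (ct ca cb : Seq), 1 ≤ M → 0 < mu → mu ≤ 1 / (C * M ^ 2) →
    Dio al mu M → Data M mu ct ca cb → ∀ (r0 r lam : ℝ) (u v : ℂ → ℂ), 0 < r → r ≤ r0 → r0 ≤ 1 / (C * M ^ 2) →
    State mu al ct ca cb r (r ^ 41) (r0 - r) u v lam →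
    ∃ (u' v' : ℂ → ℂ) (lam' : ℝ),
      State mu al ct ca cb (r / 8) ((r / 8) ^ 41) (r0 - r / 8) u' v' lam' ∧
      (∀ x : ℝ, ‖u' (x : ℂ) - u (x : ℂ)‖ ≤ r) ∧ (∀ x : ℝ, ‖v' (x : ℂ) - v (x : ℂ)‖ ≤ r) ∧
      |lam' - lam| ≤ r / M := by
  obtain ⟨C1, hC1, hN⟩ := newton
  refine ⟨512 * C1, by linarith, ?_⟩
  intro M mu al ct ca cb hM hmu hmu2 hD hdata r0 r lam u v hr hrr0 hr0 hst
  have hM0 : 0 < M := by linarith
  have hC0 : 0 < C1 := by linarith
  have hM2 : 1 ≤ M ^ 2 := one_le_pow₀ hM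
  -- monotonicity of the threshold
  have hthr : 1 / (512 * C1 * M ^ 2) ≤ 1 / (C1 * M ^ 2) := by
    apply one_div_le_one_div_of_le (by positivity)
    have : 0 < C1 * M ^ 2 := by positivity
    nlinarith
  -- x = C1 * (M * r) ≤ 1 / 512
  have hr512 : r * (512 * C1 * M ^ 2) ≤ 1 := by
    have h := hrr0.trans hr0
    rwa [le_div_iff₀ (by positivity)] at h
  have hx : C1 * (M * r) ≤ 1 / 512 := by
    have h1 : C1 * (M * r) ≤ C1 * (M ^ 2 * r) := by
      apply mul_le_mul_of_nonneg_left _ hC0.le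
      apply mul_le_mul_of_nonneg_right _ hr.le
      nlinarith
    nlinarith
  have hx0 : 0 ≤ C1 * (M * r) := by positivity
  have hMr : M * r ≤ C1 * (M * r) := le_mul_of_one_le_left (by positivity) hC1
  have hr1 : r ≤ 1 / 512 := by
    have : r ≤ M * r := le_mul_of_one_le_left hr.le hM
    linarith
  -- key estimate
  have hkey : C1 * (M * r) ^ 20 ≤ (1 / 512) ^ 20 := by
    have h1 : C1 * (M * r) ^ 20 ≤ C1 ^ 20 * (M * r) ^ 20 := by
      apply mul_le_mul_of_nonneg_right _ (by positivity)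
      calc C1 = C1 ^ 1 := (pow_one _).symm
        _ ≤ C1 ^ 20 := pow_le_pow_right₀ hC1 (by norm_num)
    calc C1 * (M * r) ^ 20 ≤ C1 ^ 20 * (M * r) ^ 20 := h1
      _ = (C1 * (M * r)) ^ 20 := by ring
      _ ≤ (1 / 512) ^ 20 := pow_le_pow_left₀ hx0 hx 20
  have hr20 : r ^ 20 ≠ 0 := by positivity
  have hkap2 : C1 * M ^ 20 * (r ^ 41) ^ 2 / r ^ 20 = C1 * (M * r) ^ 20 * r * r ^ 41 := by
    field_simp
  have hkap1 : C1 * M ^ 20 * r ^ 41 / r ^ 20 = C1 * (M * r) ^ 20 * r := by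
    field_simp
  have hstep1 : C1 * (M * r) ^ 20 * r ≤ (1 / 512) ^ 20 * r :=
    mul_le_mul_of_nonneg_right hkey hr.le
  have hr41 : 0 < r ^ 41 := by positivity
  obtain ⟨u', v', lam', hS, hu, hv, hl⟩ := hN M mu al ct ca cb hM hmu (hmu2.trans hthr) hD hdata
    r (r ^ 41) (r0 - r) lam u v hr ((hrr0.trans hr0).trans hthr) hr41.le
    (by
      calc C1 * M ^ 20 * r ^ 41 = C1 * (M * r) ^ 20 * r * r ^ 20 := by ring
        _ ≤ 1 * r ^ 20 := by
            apply mul_le_mul_of_nonneg_right _ (by positivity)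
            refine hstep1.trans ?_
            norm_num
            nlinarith
        _ = r ^ 20 := one_mul _)
    (by linarith) (by
      have : r0 - r ≤ r0 := by linarith
      exact (this.trans hr0).trans hthr) hst
  have hsmall : C1 * M ^ 20 * r ^ 41 / r ^ 20 ≤ r / 8 := by
    rw [hkap1]
    refine hstep1.trans ?_
    norm_num
    nlinarith
  refine ⟨u', v', lam', J1A_State_mono hS hmu.le ?_ ?_, ?_, ?_, ?_⟩
  · have e1 : C1 * M ^ 20 * (r ^ 41) ^ 2 / r ^ 20 ≤ (1 / 512) ^ 20 * r ^ 41 := by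
      rw [hkap2]
      apply mul_le_mul_of_nonneg_right _ hr41.le
      refine hstep1.trans ?_
      nlinarith [show (0 : ℝ) < (1 / 512) ^ 20 by positivity]
    have e2 : C1 * M ^ 20 * r ^ 20 * r ^ 41 ≤ (1 / 512) ^ 20 * r ^ 41 := by
      apply mul_le_mul_of_nonneg_right _ hr41.le
      calc C1 * M ^ 20 * r ^ 20 = C1 * (M * r) ^ 20 := by ring
        _ ≤ _ := hkey
    have e3 : C1 * M * r ^ 60 ≤ (1 / 512) * (1 / 512) ^ 18 * r ^ 41 := by
      calc C1 * M * r ^ 60 = (C1 * (M * r)) * r ^ 18 * r ^ 41 := by ring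
        _ ≤ _ := by
            apply mul_le_mul_of_nonneg_right _ hr41.le
            apply mul_le_mul hx (pow_le_pow_left₀ hr.le hr1 18) (by positivity) (by norm_num)
    have e4 : (r / 8) ^ 41 = (1 / 8) ^ 41 * r ^ 41 := by ring
    rw [e4]
    calc _ ≤ (1 / 512) ^ 20 * r ^ 41 + (1 / 512) ^ 20 * r ^ 41 + (1 / 512) * (1 / 512) ^ 18 * r ^ 41 :=
          add_le_add (add_le_add e1 e2) e3
      _ = ((1 / 512) ^ 20 + (1 / 512) ^ 20 + (1 / 512) * (1 / 512) ^ 18) * r ^ 41 := by ring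
      _ ≤ (1 / 8) ^ 41 * r ^ 41 := by
          apply mul_le_mul_of_nonneg_right _ hr41.le
          norm_num
  · linarith
  · intro x
    exact (hu x).trans (by linarith)
  · intro x
    exact (hv x).trans (by linarith)
  · refine hl.trans ?_
    have h1 : C1 * mu ≤ 1 / M := by
      have : C1 * mu ≤ C1 * (1 / (C1 * M ^ 2)) :=
        mul_le_mul_of_nonneg_left (hmu2.trans hthr) hC0.le
      refine this.trans ?_
      rw [mul_one_div, div_le_div_iff₀ (by positivity) hM0]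
      nlinarith [mul_pos hC0 hM0]
    have h2 : r ^ 41 ≤ r := by
      calc r ^ 41 ≤ r ^ 1 := pow_le_pow_of_le_one hr.le (by linarith) (by norm_num)
        _ = r := pow_one r
    calc C1 * mu * r ^ 41 ≤ 1 / M * r := by
          apply mul_le_mul h1 h2 hr41.le (by positivity)
      _ = r / M := by ring

end BBK
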