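import Pool.Agent.Lib_helper16.BBK.Defs
import Pool.Agent.Lib_helper16.BBK.PA
import Pool.Agent.Lib_helper16.BBK.E1
import Pool.Agent.Lib_helper16.BBK.E2

open Set
open scoped ContDiff

namespace BBK

theorem J1B_P0 (r : ℝ) : P r (fun _ => 0) := by
  have h := P.const r 0
  simpa using h

theorem J1B_B0 (r : ℝ) : B r (fun _ => 0) 0 := fun z _ => by simp

theorem J1B_ct {M r : ℝ} {ct : Seq} (hb : Bd ct 60 M) (hs : ∀ k : ℤ × ℤ, k.1 ≠ 0 → ct k = 0)
    (hz : ev ct 0 0 = 0) (hr : 0 < r) (z : ℂ) : ‖ev (trunc r ct) z 0‖ ≤ M * r ^ 60 := by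
  have h1 : ∀ k : ℤ × ℤ, k.1 ≠ 0 → trunc r ct k = 0 := by
    intro k hk
    unfold trunc
    split_ifs
    · exact hs k hk
    · rfl
  rw [ev_supp h1 z 0 0]
  have h2 := ev_trunc_real hb hr 0 0
  rw [Complex.ofReal_zero, hz, zero_sub, norm_neg] at h2
  exact h2

theorem J1B_ca {M r : ℝ} {ca : Seq} (hb : Bd ca 60 M) (hr : 0 < r) {z : ℂ} (hz : z ∈ S r) :
    ‖ev (trunc r ca) z 0‖ ≤ C0 * M := by
  have h1 : |z.im| < r := hz
  refine ev_trunc_le (hb.mono (Nat.zero_le 60) le_rfl) hr (by linarith) ?_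
  rw [Complex.zero_im, abs_zero]
  linarith

theorem J1B_C0 : 1 ≤ C0 := Real.one_le_exp (by positivity)

/-- the start -/
theorem start : ∃ C : ℝ, 1 ≤ C ∧ ∀ (M mu al : ℝ) (ct ca cb : Seq) (r0 : ℝ), 1 ≤ M → 0 < mu →
    Data M mu ct ca cb → 0 < r0 → r0 ≤ 1 / (C * M ^ 2) → mu ≤ r0 ^ 41 / (C * M) →
    State mu al ct ca cb r0 (r0 ^ 41) 0 (fun _ => 0) (fun _ => 0) 0 := by
  have hC0 := J1B_C0
  refine ⟨2 * C0, by linarith, ?_⟩
  intro M mu al ct ca cb r0 hM hmu hD hr hr1 hmu1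
  have hM0 : 0 < M := by linarith
  have hCM : 0 < 2 * C0 * M := by positivity
  have h41 : 0 < r0 ^ 41 := by positivity
  have hmM : mu * (C0 * M) ≤ r0 ^ 41 / 2 := by
    rw [le_div_iff₀ hCM] at hmu1
    linarith
  have hr2 : r0 * M ^ 2 ≤ 1 / 2 := by
    have h1 : 0 < 2 * C0 * M ^ 2 := by positivity
    rw [le_div_iff₀ h1] at hr1
    have h2 : r0 * M ^ 2 * 1 ≤ r0 * M ^ 2 * C0 := mul_le_mul_of_nonneg_left hC0 (by positivity)
    linarith
  have hrM : r0 * M ≤ 1 / 2 := by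
    have h1 : r0 * M * 1 ≤ r0 * M * M := mul_le_mul_of_nonneg_left hM (by positivity)
    nlinarith
  have hr3 : r0 ≤ 1 := by
    have h1 : r0 * 1 ≤ r0 * M := mul_le_mul_of_nonneg_left hM hr.le
    linarith
  have hr60 : M * r0 ^ 60 ≤ r0 ^ 41 / 2 := by
    have h1 : r0 ^ 18 ≤ 1 := pow_le_one₀ hr.le hr3
    have h2 : M * r0 ^ 60 = r0 ^ 41 * ((r0 * M) * r0 ^ 18) := by ring
    have h3 : (r0 * M) * r0 ^ 18 ≤ (1 / 2) * 1 :=
      mul_le_mul hrM h1 (by positivity) (by norm_num)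
    rw [h2]
    have h4 := mul_le_mul_of_nonneg_left h3 h41.le
    linarith
  have hder : deriv (fun _ : ℂ => (0 : ℂ)) = fun _ => 0 := by
    funext z
    exact deriv_const z 0
  refine ⟨J1B_P0 r0, J1B_P0 r0, J1B_B0 r0, J1B_B0 r0, ?_, ?_, ?_, ?_⟩
  · rw [hder]; exact J1B_B0 r0
  · rw [hder]; exact J1B_B0 r0
  · intro z hz
    have ha := J1B_ct hD.bt hD.supp hD.zero hr z
    have hb := J1B_ca hD.ba hr hz
    have hmn : ‖(mu : ℂ)‖ = mu := by rw [Complex.norm_real, Real.norm_eq_abs, abs_of_pos hmu]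
    have h1 : res1 mu al ct ca r0 (fun _ => 0) (fun _ => 0) z =
        (mu : ℂ) * (ev (trunc r0 ct) z 0 + (mu : ℂ) * ev (trunc r0 ca) z 0) := by
      unfold res1
      simp only [add_zero, sub_zero]
    rw [h1, norm_mul, hmn]
    refine mul_le_mul_of_nonneg_left ?_ hmu.le
    have h2 : ‖(mu : ℂ) * ev (trunc r0 ca) z 0‖ ≤ mu * (C0 * M) := by
      rw [norm_mul, hmn]
      exact mul_le_mul_of_nonneg_left hb hmu.le
    have h3 := norm_add_le (ev (trunc r0 ct) z 0) ((mu : ℂ) * ev (trunc r0 ca) z 0)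
    linarith
  · intro z hz
    have hb := J1B_ca hD.bb hr hz
    have hmn : ‖(mu : ℂ)‖ = mu := by rw [Complex.norm_real, Real.norm_eq_abs, abs_of_pos hmu]
    have h1 : res2 mu al cb r0 (fun _ => 0) (fun _ => 0) 0 z =
        (mu : ℂ) * ((mu : ℂ) * ev (trunc r0 cb) z 0) := by
      unfold res2
      simp only [add_zero, sub_zero, Complex.ofReal_zero]
    rw [h1, norm_mul, hmn]
    refine mul_le_mul_of_nonneg_left ?_ hmu.le
    rw [norm_mul, hmn]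
    have h2 : mu * ‖ev (trunc r0 cb) z 0‖ ≤ mu * (C0 * M) := mul_le_mul_of_nonneg_left hb hmu.le
    linarith

end BBK
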