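import Pool.Agent.Lib_helper16.BBK.Defs
import Pool.Agent.Lib_helper16.BBK.PA
import Pool.Agent.Lib_helper16.BBK.J1A
import Pool.Agent.Lib_helper16.BBK.J1B

open Set
open scoped ContDiff

namespace BBK

theorem J1C_dep {α : Type} (Q : ℕ → α → Prop) (R : ℕ → α → α → Prop) (a0 : α) (h0 : Q 0 a0)
    (hs : ∀ (j : ℕ) (a : α), Q j a → ∃ b, Q (j + 1) b ∧ R j a b) :
    ∃ f : ℕ → α, f 0 = a0 ∧ ∀ j, Q j (f j) ∧ R j (f j) (f (j + 1)) := by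
  classical
  let F : (j : ℕ) → {a : α // Q j a} := fun j =>
    Nat.rec (motive := fun j => {a : α // Q j a}) ⟨a0, h0⟩
      (fun j a => ⟨(hs j a.1 a.2).choose, (hs j a.1 a.2).choose_spec.1⟩) j
  refine ⟨fun j => (F j).1, rfl, fun j => ⟨(F j).2, ?_⟩⟩
  exact (hs j (F j).1 (F j).2).choose_spec.2

theorem J1C_mono {mu al : ℝ} {ct ca cb : Seq} {r kap nu nu' lam : ℝ} {u v : ℂ → ℂ}
    (h : State mu al ct ca cb r kap nu u v lam) (hn : nu ≤ nu') :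
    State mu al ct ca cb r kap nu' u v lam :=
  ⟨h.hu, h.hv, h.bu.mono le_rfl hn, h.bv.mono le_rfl hn, h.bu'.mono le_rfl hn,
    h.bv'.mono le_rfl hn, h.e1, h.e2⟩

/-- the sequence of approximate curves -/
theorem sequences : ∃ C : ℝ, 200 ≤ C ∧ ∀ (M mu al : ℝ) (ct ca cb : Seq), 1 ≤ M → 0 < mu →
    mu ≤ (1 / (C * M ^ 2)) ^ 41 / (C * M) → Dio al mu M → Data M mu ct ca cb →
    ∃ (u v : ℕ → ℂ → ℂ) (lam : ℕ → ℝ), lam 0 = 0 ∧ ∀ j : ℕ,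
      State mu al ct ca cb (1 / (C * M ^ 2) / 8 ^ j) ((1 / (C * M ^ 2) / 8 ^ j) ^ 41) (1 / (C * M ^ 2))
        (u j) (v j) (lam j) ∧
      (∀ x : ℝ, ‖u (j + 1) (x : ℂ) - u j (x : ℂ)‖ ≤ 1 / (C * M ^ 2) / 8 ^ j) ∧
      (∀ x : ℝ, ‖v (j + 1) (x : ℂ) - v j (x : ℂ)‖ ≤ 1 / (C * M ^ 2) / 8 ^ j) ∧
      |lam (j + 1) - lam j| ≤ 1 / (C * M ^ 2) / 8 ^ j / M := by
  obtain ⟨C1, hC1, hstep⟩ := step
  obtain ⟨C2, hC2, hstart⟩ := start
  refine ⟨max 200 (max C1 C2), le_max_left _ _, ?_⟩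
  intro M mu al ct ca cb hM hmu hmu1 hdio hD
  obtain ⟨C, hCdef⟩ : ∃ C, C = max 200 (max C1 C2) := ⟨_, rfl⟩
  rw [← hCdef] at hmu1 ⊢
  have hCa : 200 ≤ C := by rw [hCdef]; exact le_max_left _ _
  have hCb : C1 ≤ C := by rw [hCdef]; exact (le_max_left _ _).trans (le_max_right _ _)
  have hCc : C2 ≤ C := by rw [hCdef]; exact (le_max_right _ _).trans (le_max_right _ _)
  have hM0 : 0 < M := by linarith
  have hM2 : 1 ≤ M ^ 2 := one_le_pow₀ hM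
  obtain ⟨r0, hr0⟩ : ∃ r0, r0 = 1 / (C * M ^ 2) := ⟨_, rfl⟩
  rw [← hr0] at hmu1 ⊢
  have hCM : 0 < C * M ^ 2 := by positivity
  have hr0pos : 0 < r0 := by rw [hr0]; positivity
  have hr01 : r0 ≤ 1 := by
    rw [hr0, div_le_one hCM]
    nlinarith
  have hrC1 : r0 ≤ 1 / (C1 * M ^ 2) := by
    rw [hr0]
    exact one_div_le_one_div_of_le (by positivity) (mul_le_mul_of_nonneg_right hCb (by positivity))
  have hrC2 : r0 ≤ 1 / (C2 * M ^ 2) := by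
    rw [hr0]
    exact one_div_le_one_div_of_le (by positivity) (mul_le_mul_of_nonneg_right hCc (by positivity))
  have hmu2 : mu ≤ r0 ^ 41 / (C2 * M) := by
    refine hmu1.trans (div_le_div_of_nonneg_left (by positivity) (by positivity) ?_)
    exact mul_le_mul_of_nonneg_right hCc hM0.le
  have hmu3 : mu ≤ 1 / (C1 * M ^ 2) := by
    refine le_trans ?_ hrC1
    refine hmu1.trans ?_
    have h1 : r0 ^ 41 ≤ r0 := by
      calc r0 ^ 41 = r0 * r0 ^ 40 := by ring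
        _ ≤ r0 * 1 := mul_le_mul_of_nonneg_left (pow_le_one₀ hr0pos.le hr01) hr0pos.le
        _ = r0 := mul_one r0
    have h2 : 1 ≤ C * M := by nlinarith
    have h3 : r0 ^ 41 / (C * M) ≤ r0 ^ 41 := div_le_self (by positivity) h2
    exact h3.trans h1
  have hbase := hstart M mu al ct ca cb r0 hM hmu hD hr0pos hrC2 hmu2
  obtain ⟨f, hf0, hf⟩ := J1C_dep (α := (ℂ → ℂ) × (ℂ → ℂ) × ℝ)
    (fun j p => State mu al ct ca cb (r0 / 8 ^ j) ((r0 / 8 ^ j) ^ 41) (r0 - r0 / 8 ^ j)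
      p.1 p.2.1 p.2.2)
    (fun j p q => (∀ x : ℝ, ‖q.1 (x : ℂ) - p.1 (x : ℂ)‖ ≤ r0 / 8 ^ j) ∧
      (∀ x : ℝ, ‖q.2.1 (x : ℂ) - p.2.1 (x : ℂ)‖ ≤ r0 / 8 ^ j) ∧
      |q.2.2 - p.2.2| ≤ r0 / 8 ^ j / M)
    ((fun _ => 0), (fun _ => 0), 0)
    (by
      show State mu al ct ca cb (r0 / 8 ^ 0) ((r0 / 8 ^ 0) ^ 41) (r0 - r0 / 8 ^ 0)
        (fun _ => 0) (fun _ => 0) 0
      rw [pow_zero, div_one, sub_self]
      exact hbase)
    (by
      intro j p hp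
      have h8 : (1 : ℝ) ≤ 8 ^ j := one_le_pow₀ (by norm_num)
      have hrj : 0 < r0 / 8 ^ j := by positivity
      have hrj2 : r0 / 8 ^ j ≤ r0 := div_le_self hr0pos.le h8
      obtain ⟨u', v', lam', hS, h1, h2, h3⟩ := hstep M mu al ct ca cb hM hmu hmu3 hdio hD r0
        (r0 / 8 ^ j) p.2.2 p.1 p.2.1 hrj hrj2 hrC1 hp
      have h4 : r0 / 8 ^ j / 8 = r0 / 8 ^ (j + 1) := by rw [pow_succ, div_div]
      rw [h4] at hS
      exact ⟨(u', v', lam'), hS, h1, h2, h3⟩)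
  refine ⟨fun j => (f j).1, fun j => (f j).2.1, fun j => (f j).2.2, ?_, ?_⟩
  · show (f 0).2.2 = 0
    rw [hf0]
  · intro j
    obtain ⟨hS, h1, h2, h3⟩ := hf j
    refine ⟨J1C_mono hS ?_, h1, h2, h3⟩
    have h5 : 0 < r0 / 8 ^ j := by positivity
    linarith

end BBK
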