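import Pool.Agent.Lib_helper16.BBK.Defs
import Pool.Agent.Lib_helper16.BBK.PA
import Pool.Agent.Lib_helper16.BBK.K1
import Pool.Agent.Lib_helper16.BBK.E1

open Set

namespace BBK

theorem J2_ev {c : Seq} {M : ℝ} (h : Bd c 1 M) (r X Y : ℕ → ℝ) (x y : ℝ) (hr : ∀ j, 0 < r j)
    (h0 : Filter.Tendsto r Filter.atTop (nhds 0)) (hX : Filter.Tendsto X Filter.atTop (nhds x))
    (hY : Filter.Tendsto Y Filter.atTop (nhds y)) :
    Filter.Tendsto (fun j => ev (trunc (r j) c) (X j : ℂ) (Y j : ℂ)) Filter.atTop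
      (nhds (ev c (x : ℂ) (y : ℂ))) := by
  rw [tendsto_iff_norm_sub_tendsto_zero]
  have h1 : Filter.Tendsto (fun j => M * r j ^ 1 + 2 * Real.pi * M * max |X j - x| |Y j - y|)
      Filter.atTop (nhds (M * 0 ^ 1 + 2 * Real.pi * M * max 0 0)) := by
    have hx' : Filter.Tendsto (fun j => |X j - x|) Filter.atTop (nhds 0) := by
      have := (hX.sub_const x).abs
      simpa using this
    have hy' : Filter.Tendsto (fun j => |Y j - y|) Filter.atTop (nhds 0) := by
      have := (hY.sub_const y).abs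
      simpa using this
    exact ((h0.pow 1).const_mul M).add ((hx'.max hy').const_mul _)
  have h2 : M * 0 ^ 1 + 2 * Real.pi * M * max 0 0 = 0 := by simp
  rw [h2] at h1
  refine squeeze_zero (fun j => norm_nonneg _) (fun j => ?_) h1
  have h3 := ev_trunc_real h (hr j) (X j) (Y j)
  have h4 := ev_lip_real h (X j) (Y j) x y
  have h5 : ev (trunc (r j) c) (X j : ℂ) (Y j : ℂ) - ev c (x : ℂ) (y : ℂ)
      = -(ev c (X j : ℂ) (Y j : ℂ) - ev (trunc (r j) c) (X j : ℂ) (Y j : ℂ))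
        + (ev c (X j : ℂ) (Y j : ℂ) - ev c (x : ℂ) (y : ℂ)) := by ring
  rw [h5]
  refine (norm_add_le _ _).trans ?_
  rw [norm_neg]
  linarith

/-- limits of sequences with geometric differences -/
theorem J2_lim {C : ℝ} (f : ℕ → ℝ) (h : ∀ j, |f (j + 1) - f j| ≤ C / 8 ^ j) :
    ∃ l, Filter.Tendsto f Filter.atTop (nhds l) ∧ |f 0 - l| ≤ 8 / 7 * C := by
  have h1 : ∀ n, dist (f n) (f (n + 1)) ≤ C * (1 / 8) ^ n := by
    intro n
    rw [dist_comm, Real.dist_eq]
    refine (h n).trans (le_of_eq ?_)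
    rw [one_div, inv_pow, div_eq_mul_inv]
  have hc : CauchySeq f := cauchySeq_of_le_geometric (1 / 8) C (by norm_num) h1
  obtain ⟨l, hl⟩ := cauchySeq_tendsto_of_complete hc
  refine ⟨l, hl, ?_⟩
  have h2 := dist_le_of_le_geometric_of_tendsto₀ (1 / 8) C (by norm_num) h1 hl
  rw [Real.dist_eq] at h2
  refine h2.trans (le_of_eq ?_)
  ring

/-- the limit curve -/
theorem limit {M mu al r0 : ℝ} {ct ca cb : Seq} (hM : 1 ≤ M) (hmu : 0 < mu) (hmu1 : mu ≤ 1)
    (hd : Data M mu ct ca cb) (h0 : 0 < r0) (h1 : r0 ≤ 1 / 16)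
    (u v : ℕ → ℂ → ℂ) (lam : ℕ → ℝ) (hl : lam 0 = 0)
    (hst : ∀ j : ℕ, State mu al ct ca cb (r0 / 8 ^ j) ((r0 / 8 ^ j) ^ 41) r0 (u j) (v j) (lam j))
    (hu : ∀ (j : ℕ) (x : ℝ), ‖u (j + 1) (x : ℂ) - u j (x : ℂ)‖ ≤ r0 / 8 ^ j)
    (hv : ∀ (j : ℕ) (x : ℝ), ‖v (j + 1) (x : ℂ) - v j (x : ℂ)‖ ≤ r0 / 8 ^ j)
    (hla : ∀ j : ℕ, |lam (j + 1) - lam j| ≤ r0 / 8 ^ j / M) :
    ∃ (U V : ℝ → ℝ) (l : ℝ), Continuous U ∧ Continuous V ∧ (∀ x, U (x + 1) = U x) ∧ (∀ x, V (x + 1) = V x) ∧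
      (∀ x, |U x| ≤ r0) ∧ (∀ x, |V x| ≤ r0) ∧ |l| ≤ 2 * r0 / M ∧
      (∀ x y, |U x - U y| ≤ |x - y| / 2) ∧
      (∀ x : ℝ, (mu : ℂ) * (ev ct ((x + U x : ℝ) : ℂ) ((V x : ℝ) : ℂ)
          + (mu : ℂ) * ev ca ((x + U x : ℝ) : ℂ) ((V x : ℝ) : ℂ)) = ((U (x + al) - U x : ℝ) : ℂ)) ∧
      (∀ x : ℝ, (mu : ℂ) * ((mu : ℂ) * ev cb ((x + U x : ℝ) : ℂ) ((V x : ℝ) : ℂ))
          = ((V (x + al) - V x + l : ℝ) : ℂ)) := by
  have hM0 : 0 < M := by linarith
  set r : ℕ → ℝ := fun j => r0 / 8 ^ j with hr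
  have hrpos : ∀ j, 0 < r j := fun j => by rw [hr]; positivity
  have hr0 : Filter.Tendsto r Filter.atTop (nhds 0) := by
    have h2 := (tendsto_pow_atTop_nhds_zero_of_lt_one (r := (1 / 8 : ℝ)) (by norm_num)
      (by norm_num)).const_mul r0
    rw [mul_zero] at h2
    refine h2.congr fun j => ?_
    show r0 * (1 / 8) ^ j = r0 / 8 ^ j
    rw [one_div, inv_pow, div_eq_mul_inv]
  have hreu : ∀ j (x : ℝ), (((u j (x : ℂ)).re : ℝ) : ℂ) = u j (x : ℂ) := fun j x =>
    (hst j).hu.coe_re (hrpos j) x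
  have hrev : ∀ j (x : ℝ), (((v j (x : ℂ)).re : ℝ) : ℂ) = v j (x : ℂ) := fun j x =>
    (hst j).hv.coe_re (hrpos j) x
  have hdu : ∀ x : ℝ, ∀ j, |(u (j + 1) (x : ℂ)).re - (u j (x : ℂ)).re| ≤ r0 / 8 ^ j := by
    intro x j
    refine le_trans ?_ (hu j x)
    rw [← Complex.sub_re]
    exact Complex.abs_re_le_norm _
  have hdv : ∀ x : ℝ, ∀ j, |(v (j + 1) (x : ℂ)).re - (v j (x : ℂ)).re| ≤ r0 / 8 ^ j := by
    intro x j
    refine le_trans ?_ (hv j x)
    rw [← Complex.sub_re]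
    exact Complex.abs_re_le_norm _
  choose U hU _ using fun x : ℝ => J2_lim (fun j => (u j (x : ℂ)).re) (hdu x)
  choose V hV _ using fun x : ℝ => J2_lim (fun j => (v j (x : ℂ)).re) (hdv x)
  obtain ⟨l, hlam, hlb⟩ := J2_lim (C := r0 / M) lam (fun j => by
    refine (hla j).trans (le_of_eq ?_)
    ring)
  have hlipU : ∀ x y, |U x - U y| ≤ |x - y| / 2 := by
    intro x y
    refine le_of_tendsto ((hU x).sub (hU y)).abs (Filter.Eventually.of_forall fun j => ?_)
    have h2 := real_lip (hrpos j) (hst j).hu (hst j).bu' x y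
    have h3 : |(u j (x : ℂ)).re - (u j (y : ℂ)).re| ≤ r0 * |x - y| := by
      refine le_trans ?_ h2
      rw [← Complex.sub_re]
      exact Complex.abs_re_le_norm _
    refine h3.trans ?_
    have h4 : r0 * |x - y| ≤ 1 / 2 * |x - y| :=
      mul_le_mul_of_nonneg_right (by linarith) (abs_nonneg _)
    linarith
  have hlipV : ∀ x y, |V x - V y| ≤ |x - y| / 2 := by
    intro x y
    refine le_of_tendsto ((hV x).sub (hV y)).abs (Filter.Eventually.of_forall fun j => ?_)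
    have h2 := real_lip (hrpos j) (hst j).hv (hst j).bv' x y
    have h3 : |(v j (x : ℂ)).re - (v j (y : ℂ)).re| ≤ r0 * |x - y| := by
      refine le_trans ?_ h2
      rw [← Complex.sub_re]
      exact Complex.abs_re_le_norm _
    refine h3.trans ?_
    have h4 : r0 * |x - y| ≤ 1 / 2 * |x - y| :=
      mul_le_mul_of_nonneg_right (by linarith) (abs_nonneg _)
    linarith
  have hcont : ∀ W : ℝ → ℝ, (∀ x y, |W x - W y| ≤ |x - y| / 2) → Continuous W := by
    intro W hW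
    have : LipschitzWith 1 W := by
      refine LipschitzWith.of_dist_le_mul fun x y => ?_
      rw [Real.dist_eq, Real.dist_eq]
      refine (hW x y).trans ?_
      have := abs_nonneg (x - y)
      push_cast
      linarith
    exact this.continuous
  have hrtend : Filter.Tendsto (fun j => mu * (r j) ^ 41) Filter.atTop (nhds 0) := by
    have := (hr0.pow 41).const_mul mu
    simpa using this
  refine ⟨U, V, l, hcont U hlipU, hcont V hlipV, ?_, ?_, ?_, ?_, ?_, hlipU, ?_, ?_⟩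
  · intro x
    refine tendsto_nhds_unique (hU (x + 1)) ((hU x).congr fun j => ?_)
    have h2 := (hst j).hu.per (x : ℂ) (real_mem_S (hrpos j) x)
    push_cast
    rw [h2]
  · intro x
    refine tendsto_nhds_unique (hV (x + 1)) ((hV x).congr fun j => ?_)
    have h2 := (hst j).hv.per (x : ℂ) (real_mem_S (hrpos j) x)
    push_cast
    rw [h2]
  · intro x
    refine le_of_tendsto (hU x).abs (Filter.Eventually.of_forall fun j => ?_)
    exact (Complex.abs_re_le_norm _).trans ((hst j).bu (x : ℂ) (real_mem_S (hrpos j) x))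
  · intro x
    refine le_of_tendsto (hV x).abs (Filter.Eventually.of_forall fun j => ?_)
    exact (Complex.abs_re_le_norm _).trans ((hst j).bv (x : ℂ) (real_mem_S (hrpos j) x))
  · rw [hl, zero_sub, abs_neg] at hlb
    refine hlb.trans ?_
    have h2 : 0 ≤ r0 / M := by positivity
    have h3 : 2 * r0 / M = 2 * (r0 / M) := by ring
    rw [h3]
    linarith
  · intro x
    have hX : Filter.Tendsto (fun j => x + (u j (x : ℂ)).re) Filter.atTop (nhds (x + U x)) :=
      (hU x).const_add x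
    have ht := J2_ev (hd.bt.mono (n := 1) (by norm_num) le_rfl) r _ _ _ _ hrpos hr0 hX (hV x)
    have ha := J2_ev (hd.ba.mono (n := 1) (by norm_num) le_rfl) r _ _ _ _ hrpos hr0 hX (hV x)
    have hUal : Filter.Tendsto (fun j => (((u j ((x + al : ℝ) : ℂ)).re - (u j (x : ℂ)).re : ℝ) : ℂ))
        Filter.atTop (nhds ((U (x + al) - U x : ℝ) : ℂ)) :=
      (Complex.continuous_ofReal.tendsto _).comp ((hU (x + al)).sub (hU x))
    have hlim := ((ht.add (ha.const_mul (mu : ℂ))).const_mul (mu : ℂ)).sub hUal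
    have hzero := squeeze_zero_norm (f := fun j => res1 mu al ct ca (r j) (u j) (v j) (x : ℂ))
      (fun j => (hst j).e1 (x : ℂ) (real_mem_S (hrpos j) x)) hrtend
    have heq : ∀ j, res1 mu al ct ca (r j) (u j) (v j) (x : ℂ) =
        (mu : ℂ) * (ev (trunc (r j) ct) ((x + (u j (x : ℂ)).re : ℝ) : ℂ) ((v j (x : ℂ)).re : ℂ)
          + (mu : ℂ) * ev (trunc (r j) ca) ((x + (u j (x : ℂ)).re : ℝ) : ℂ) ((v j (x : ℂ)).re : ℂ))
        - (((u j ((x + al : ℝ) : ℂ)).re - (u j (x : ℂ)).re : ℝ) : ℂ) := by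
      intro j
      unfold res1
      rw [Complex.ofReal_add, Complex.ofReal_sub, hreu j x, hrev j x, hreu j (x + al),
        Complex.ofReal_add]
    have h3 := tendsto_nhds_unique (hzero.congr heq) hlim
    exact (sub_eq_zero.1 h3.symm)
  · intro x
    have hX : Filter.Tendsto (fun j => x + (u j (x : ℂ)).re) Filter.atTop (nhds (x + U x)) :=
      (hU x).const_add x
    have hb := J2_ev (hd.bb.mono (n := 1) (by norm_num) le_rfl) r _ _ _ _ hrpos hr0 hX (hV x)
    have hVal : Filter.Tendsto (fun j => (((v j ((x + al : ℝ) : ℂ)).re - (v j (x : ℂ)).re + lam j : ℝ) : ℂ))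
        Filter.atTop (nhds ((V (x + al) - V x + l : ℝ) : ℂ)) :=
      (Complex.continuous_ofReal.tendsto _).comp (((hV (x + al)).sub (hV x)).add hlam)
    have hlim := ((hb.const_mul (mu : ℂ)).const_mul (mu : ℂ)).sub hVal
    have hzero := squeeze_zero_norm (f := fun j => res2 mu al cb (r j) (u j) (v j) (lam j) (x : ℂ))
      (fun j => (hst j).e2 (x : ℂ) (real_mem_S (hrpos j) x)) hrtend
    have heq : ∀ j, res2 mu al cb (r j) (u j) (v j) (lam j) (x : ℂ) =
        (mu : ℂ) * ((mu : ℂ) *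
          ev (trunc (r j) cb) ((x + (u j (x : ℂ)).re : ℝ) : ℂ) ((v j (x : ℂ)).re : ℂ))
        - (((v j ((x + al : ℝ) : ℂ)).re - (v j (x : ℂ)).re + lam j : ℝ) : ℂ) := by
      intro j
      unfold res2
      rw [Complex.ofReal_add (x : ℝ), Complex.ofReal_add (_ - _), Complex.ofReal_sub, hreu j x, hrev j x,
        hrev j (x + al), Complex.ofReal_add]
      ring
    have h3 := tendsto_nhds_unique (hzero.congr heq) hlim
    exact (sub_eq_zero.1 h3.symm)

end BBK
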