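import Mathlib

open Set
open scoped ContDiff

namespace BBK

theorem Z1_det (L : (ℝ × ℝ) →L[ℝ] (ℝ × ℝ)) :
    L.det = (L (1, 0)).1 * (L (0, 1)).2 - (L (0, 1)).1 * (L (1, 0)).2 := by
  rw [ContinuousLinearMap.det, ← LinearMap.det_toMatrix (Module.Basis.finTwoProd ℝ),
    Matrix.det_fin_two]
  simp [LinearMap.toMatrix_apply]

/-- the determinant of the derivative of `T` -/
theorem det_T {mu al : ℝ} {tau : ℝ → ℝ} {a b : ℝ × ℝ → ℝ} {x y : ℝ}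
    (ht : DifferentiableAt ℝ tau y) (ha : DifferentiableAt ℝ a (x, y)) (hb : DifferentiableAt ℝ b (x, y)) :
    (fderiv ℝ (fun p : ℝ × ℝ => ((p.1 + al + mu * tau p.2 + mu ^ 2 * a p, p.2 + mu ^ 2 * b p) : ℝ × ℝ)) (x, y)).det
      = (1 + mu ^ 2 * deriv (fun t => a (t, y)) x) * (1 + mu ^ 2 * deriv (fun t => b (x, t)) y)
        - (mu * deriv tau y + mu ^ 2 * deriv (fun t => a (x, t)) y) * (mu ^ 2 * deriv (fun t => b (t, y)) x) := by
  have h1 : HasFDerivAt (fun p : ℝ × ℝ => p.1) (ContinuousLinearMap.fst ℝ ℝ ℝ) (x, y) :=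
    hasFDerivAt_fst
  have h2 : HasFDerivAt (fun p : ℝ × ℝ => p.2) (ContinuousLinearMap.snd ℝ ℝ ℝ) (x, y) :=
    hasFDerivAt_snd
  have h3 : HasFDerivAt (fun p : ℝ × ℝ => tau p.2)
      (deriv tau y • ContinuousLinearMap.snd ℝ ℝ ℝ) (x, y) :=
    HasDerivAt.comp_hasFDerivAt (h₂ := tau) (x, y) ht.hasDerivAt h2
  have hA := ha.hasFDerivAt
  have hB := hb.hasFDerivAt
  have hF : HasFDerivAt (fun p : ℝ × ℝ =>
      ((p.1 + al + mu * tau p.2 + mu ^ 2 * a p, p.2 + mu ^ 2 * b p) : ℝ × ℝ)) _ (x, y) :=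
    (((h1.add_const al).add (h3.const_mul mu)).add (hA.const_mul (mu ^ 2))).prodMk
      (h2.add (hB.const_mul (mu ^ 2)))
  have ex : HasDerivAt (fun t : ℝ => (t, y)) ((1, 0) : ℝ × ℝ) x :=
    (hasDerivAt_id x).prodMk (hasDerivAt_const x y)
  have ey : HasDerivAt (fun t : ℝ => (x, t)) ((0, 1) : ℝ × ℝ) y :=
    (hasDerivAt_const y x).prodMk (hasDerivAt_id y)
  have a1 : deriv (fun t => a (t, y)) x = fderiv ℝ a (x, y) (1, 0) :=
    (HasFDerivAt.comp_hasDerivAt (l := a) x hA ex).deriv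
  have a2 : deriv (fun t => a (x, t)) y = fderiv ℝ a (x, y) (0, 1) :=
    (HasFDerivAt.comp_hasDerivAt (l := a) y hA ey).deriv
  have b1 : deriv (fun t => b (t, y)) x = fderiv ℝ b (x, y) (1, 0) :=
    (HasFDerivAt.comp_hasDerivAt (l := b) x hB ex).deriv
  have b2 : deriv (fun t => b (x, t)) y = fderiv ℝ b (x, y) (0, 1) :=
    (HasFDerivAt.comp_hasDerivAt (l := b) y hB ey).deriv
  rw [hF.fderiv, Z1_det, a1, a2, b1, b2]
  simp

/-- derivatives of a function of one variable, seen as a function of two variables -/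
theorem snd_bounds {N : ℕ} {M : ℝ} {tau : ℝ → ℝ} (h : ContDiffOn ℝ ∞ tau (Ioo (-(1 / 4) : ℝ) (1 / 4)))
    (hb : ∀ n : ℕ, n ≤ N → ∀ y ∈ Ioo (-(1 / 4) : ℝ) (1 / 4), |iteratedDeriv n tau y| ≤ M) :
    ContDiffOn ℝ ∞ (fun p : ℝ × ℝ => tau p.2) (univ ×ˢ Ioo (-(1 / 4) : ℝ) (1 / 4)) ∧
    (∀ n : ℕ, n ≤ N → ∀ p ∈ (univ ×ˢ Ioo (-(1 / 4) : ℝ) (1 / 4) : Set (ℝ × ℝ)),
      ‖iteratedFDeriv ℝ n (fun p : ℝ × ℝ => tau p.2) p‖ ≤ M) := by
  have hset : (univ ×ˢ Ioo (-(1 / 4) : ℝ) (1 / 4) : Set (ℝ × ℝ)) =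
      (ContinuousLinearMap.snd ℝ ℝ ℝ) ⁻¹' (Ioo (-(1 / 4) : ℝ) (1 / 4)) := by
    ext p
    simp
  have hopen : IsOpen (univ ×ˢ Ioo (-(1 / 4) : ℝ) (1 / 4) : Set (ℝ × ℝ)) :=
    isOpen_univ.prod isOpen_Ioo
  refine ⟨h.comp contDiff_snd.contDiffOn fun p hp => hp.2, ?_⟩
  intro n hn p hp
  have hp2 : p.2 ∈ Ioo (-(1 / 4) : ℝ) (1 / 4) := hp.2
  have e1 : iteratedFDeriv ℝ n (fun p : ℝ × ℝ => tau p.2) p =
      (iteratedFDeriv ℝ n tau p.2).compContinuousLinearMap fun _ =>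
        ContinuousLinearMap.snd ℝ ℝ ℝ := by
    rw [← iteratedFDerivWithin_of_isOpen n hopen hp, ← iteratedFDerivWithin_of_isOpen n isOpen_Ioo hp2,
      hset]
    exact (ContinuousLinearMap.snd ℝ ℝ ℝ).iteratedFDerivWithin_comp_right (f := tau) h
      isOpen_Ioo.uniqueDiffOn (by rw [← hset]; exact hopen.uniqueDiffOn) hp2
      (by exact_mod_cast le_top)
  rw [e1]
  refine (ContinuousMultilinearMap.norm_compContinuousLinearMap_le _ _).trans ?_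
  rw [norm_iteratedFDeriv_eq_norm_iteratedDeriv, Real.norm_eq_abs]
  have h1 : (∏ _i : Fin n, ‖ContinuousLinearMap.snd ℝ ℝ ℝ‖) ≤ 1 :=
    Finset.prod_le_one (fun _ _ => norm_nonneg _) fun _ _ => ContinuousLinearMap.norm_snd_le ..
  exact (mul_le_of_le_one_right (abs_nonneg _) h1).trans (hb n hn _ hp2)

end BBK
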