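import Pool.Agent.Lib_helper16.BBK.Defs
import Pool.Agent.Lib_helper16.BBK.E1
import Pool.Agent.Lib_helper16.BBK.E2
import Pool.Agent.Lib_helper16.BBK.F4C
import Pool.Agent.Lib_helper16.BBK.Z1

open Set
open scoped ContDiff

namespace BBK

theorem ZA_left {c : Seq} {M : ℝ} {f : ℝ × ℝ → ℝ} (h : Bd c 1 M)
    (he : ∀ x y : ℝ, |y| ≤ 1 / 8 → ev c (x : ℂ) (y : ℂ) = (f (x, y) : ℂ))
    {x y : ℝ} (hy : |y| ≤ 1 / 8) (hf : DifferentiableAt ℝ (fun t => f (t, y)) x) :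
    ev (D1 c) (x : ℂ) (y : ℂ) = ((deriv (fun t => f (t, y)) x : ℝ) : ℂ) := by
  have h1 := ev_real_hasDerivAt_left h x y
  have h2 : HasDerivAt (fun t : ℝ => ((f (t, y) : ℝ) : ℂ)) ((deriv (fun t => f (t, y)) x : ℝ) : ℂ) x :=
    hf.hasDerivAt.ofReal_comp
  have h3 : (fun t : ℝ => ev c (t : ℂ) (y : ℂ)) = (fun t : ℝ => ((f (t, y) : ℝ) : ℂ)) := by
    funext t
    exact he t y hy
  rw [h3] at h1
  exact h1.unique h2

theorem ZA_right {c : Seq} {M : ℝ} {f : ℝ × ℝ → ℝ} (h : Bd c 1 M)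
    (he : ∀ x y : ℝ, |y| ≤ 1 / 8 → ev c (x : ℂ) (y : ℂ) = (f (x, y) : ℂ))
    {x y : ℝ} (hy : |y| < 1 / 8) (hf : DifferentiableAt ℝ (fun t => f (x, t)) y) :
    ev (D2 c) (x : ℂ) (y : ℂ) = ((deriv (fun t => f (x, t)) y : ℝ) : ℂ) := by
  have h1 := ev_real_hasDerivAt_right h x y
  have h2 : HasDerivAt (fun t : ℝ => ((f (x, t) : ℝ) : ℂ)) ((deriv (fun t => f (x, t)) y : ℝ) : ℂ) y :=
    hf.hasDerivAt.ofReal_comp
  have h3 : (fun t : ℝ => ((f (x, t) : ℝ) : ℂ)) =ᶠ[nhds y] (fun t : ℝ => ev c (x : ℂ) (t : ℂ)) := by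
    have h4 : ∀ᶠ t : ℝ in nhds y, |t| < 1 / 8 :=
      (continuous_abs.continuousAt (x := y)).eventually (gt_mem_nhds hy)
    filter_upwards [h4] with t ht
    exact (he x t ht.le).symm
  have h5 := h1.congr_of_eventuallyEq h3
  exact h5.unique h2

theorem ZA_diffAt {f : ℝ × ℝ → ℝ} (h : ContDiffOn ℝ ∞ f (univ ×ˢ Ioo (-(1 / 4) : ℝ) (1 / 4)))
    {x y : ℝ} (hy : |y| < 1 / 8) : DifferentiableAt ℝ f (x, y) := by
  have hmem : (univ ×ˢ Ioo (-(1 / 4) : ℝ) (1 / 4) : Set (ℝ × ℝ)) ∈ nhds ((x, y) : ℝ × ℝ) := by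
    apply (isOpen_univ.prod isOpen_Ioo).mem_nhds
    obtain ⟨h1, h2⟩ := abs_lt.1 hy
    exact ⟨mem_univ _, by constructor <;> (simp only; linarith)⟩
  exact (h.contDiffAt hmem).differentiableAt (by simp)

theorem ZA_diff_fst {f : ℝ × ℝ → ℝ} {x y : ℝ} (h : DifferentiableAt ℝ f (x, y)) :
    DifferentiableAt ℝ (fun t => f (t, y)) x := by
  have h2 : DifferentiableAt ℝ (fun t : ℝ => ((t, y) : ℝ × ℝ)) x :=
    differentiableAt_id.prodMk (differentiableAt_const y)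
  exact DifferentiableAt.comp x (f := fun t : ℝ => ((t, y) : ℝ × ℝ)) h h2

theorem ZA_diff_snd {f : ℝ × ℝ → ℝ} {x y : ℝ} (h : DifferentiableAt ℝ f (x, y)) :
    DifferentiableAt ℝ (fun t => f (x, t)) y := by
  have h2 : DifferentiableAt ℝ (fun t : ℝ => ((x, t) : ℝ × ℝ)) y :=
    (differentiableAt_const x).prodMk differentiableAt_id
  exact DifferentiableAt.comp y (f := fun t : ℝ => ((x, t) : ℝ × ℝ)) h h2

/-- the data built from smooth functions -/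
theorem data_of_smooth : ∃ C : ℝ, 1 ≤ C ∧ ∀ (M mu al : ℝ) (tau : ℝ → ℝ) (a b : ℝ × ℝ → ℝ), 1 ≤ M → 0 < mu →
    ContDiffOn ℝ ∞ tau (Ioo (-(1 / 4) : ℝ) (1 / 4)) →
    ContDiffOn ℝ ∞ a (univ ×ˢ Ioo (-(1 / 4) : ℝ) (1 / 4)) →
    ContDiffOn ℝ ∞ b (univ ×ˢ Ioo (-(1 / 4) : ℝ) (1 / 4)) →
    (∀ n : ℕ, n ≤ 64 → ∀ y ∈ Ioo (-(1 / 4) : ℝ) (1 / 4), |iteratedDeriv n tau y| ≤ M) →
    (∀ n : ℕ, n ≤ 64 → ∀ p ∈ (univ ×ˢ Ioo (-(1 / 4) : ℝ) (1 / 4) : Set (ℝ × ℝ)), ‖iteratedFDeriv ℝ n a p‖ ≤ M) →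
    (∀ n : ℕ, n ≤ 64 → ∀ p ∈ (univ ×ˢ Ioo (-(1 / 4) : ℝ) (1 / 4) : Set (ℝ × ℝ)), ‖iteratedFDeriv ℝ n b p‖ ≤ M) →
    (∀ x y : ℝ, a (x + 1, y) = a (x, y)) → (∀ x y : ℝ, b (x + 1, y) = b (x, y)) →
    tau 0 = 0 → 1 / M ≤ |deriv tau 0| →
    (∀ p ∈ (univ ×ˢ Ioo (-(1 / 4) : ℝ) (1 / 4) : Set (ℝ × ℝ)),
      (fderiv ℝ (fun p : ℝ × ℝ => ((p.1 + al + mu * tau p.2 + mu ^ 2 * a p, p.2 + mu ^ 2 * b p) : ℝ × ℝ)) p).det = 1) →
    ∃ ct ca cb : Seq, Data (C * M) mu ct ca cb ∧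
      (∀ x y : ℝ, |y| ≤ 1 / 8 → ev ct (x : ℂ) (y : ℂ) = (tau y : ℂ)) ∧
      (∀ x y : ℝ, |y| ≤ 1 / 8 → ev ca (x : ℂ) (y : ℂ) = (a (x, y) : ℂ)) ∧
      (∀ x y : ℝ, |y| ≤ 1 / 8 → ev cb (x : ℂ) (y : ℂ) = (b (x, y) : ℂ)) := by
  obtain ⟨C, hC, H⟩ := seq_of_smooth
  refine ⟨C, hC, ?_⟩
  intro M mu al tau a b hM hmu htau ha hb htn han hbn hap hbp ht0 htw hdet
  have hM0 : 0 ≤ M := by linarith
  obtain ⟨hs1, hs2⟩ := snd_bounds (N := 64) (M := M) htau htn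
  obtain ⟨ct, rt, bt, et, st⟩ := H M (fun p : ℝ × ℝ => tau p.2) hM0 hs1 hs2 (fun x y => rfl)
  obtain ⟨ca, ra, ba, ea, -⟩ := H M a hM0 ha han hap
  obtain ⟨cb, rb, bb, eb, -⟩ := H M b hM0 hb hbn hbp
  have bt1 : Bd ct 1 (C * M) := bt.mono (by norm_num) le_rfl
  have ba1 : Bd ca 1 (C * M) := ba.mono (by norm_num) le_rfl
  have bb1 : Bd cb 1 (C * M) := bb.mono (by norm_num) le_rfl
  have e0 := et 0 0 (by norm_num)
  have d0 : DifferentiableAt ℝ (fun p : ℝ × ℝ => tau p.2) (0, 0) := ZA_diffAt hs1 (by norm_num)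
  have e1 := ZA_right (x := 0) (y := 0) bt1 et (by norm_num) (ZA_diff_snd d0)
  refine ⟨ct, ca, cb, ?_, et, ea, eb⟩
  refine ⟨rt, ra, rb, bt, ba, bb, st (fun x y => rfl), ?_, ?_, ?_⟩
  · simp only [Complex.ofReal_zero, ht0] at e0
    exact e0
  · simp only [Complex.ofReal_zero] at e1
    rw [e1, Complex.norm_real, Real.norm_eq_abs]
    refine le_trans ?_ htw
    apply one_div_le_one_div_of_le (by linarith)
    nlinarith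
  · intro x y hy
    have hy8 : |y| < 1 / 8 := by linarith
    have dt : DifferentiableAt ℝ (fun p : ℝ × ℝ => tau p.2) (x, y) := ZA_diffAt hs1 hy8
    have da : DifferentiableAt ℝ a (x, y) := ZA_diffAt ha hy8
    have db : DifferentiableAt ℝ b (x, y) := ZA_diffAt hb hy8
    have k1 := ZA_left ba1 ea hy8.le (ZA_diff_fst da)
    have k2 := ZA_right bb1 eb hy8 (ZA_diff_snd db)
    have k3 := ZA_right bt1 et hy8 (ZA_diff_snd dt)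
    have k4 := ZA_right ba1 ea hy8 (ZA_diff_snd da)
    have k5 := ZA_left bb1 eb hy8.le (ZA_diff_fst db)
    have hmem : ((x, y) : ℝ × ℝ) ∈ (univ ×ˢ Ioo (-(1 / 4) : ℝ) (1 / 4) : Set (ℝ × ℝ)) := by
      obtain ⟨h1, h2⟩ := abs_lt.1 hy8
      exact ⟨mem_univ _, by constructor <;> (simp only; linarith)⟩
    have hd := hdet (x, y) hmem
    have dtau : DifferentiableAt ℝ tau y := ZA_diff_snd dt
    rw [det_T dtau da db] at hd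
    have k3' : ev (D2 ct) (x : ℂ) (y : ℂ) = ((deriv tau y : ℝ) : ℂ) := k3
    rw [k1, k2, k3', k4, k5]
    have hd' := congrArg (fun r : ℝ => (r : ℂ)) hd
    simp only [Complex.ofReal_sub, Complex.ofReal_mul, Complex.ofReal_add, Complex.ofReal_one, Complex.ofReal_pow] at hd'
    refine Eq.trans ?_ hd'
    ring

end BBK
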