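import Pool.Agent.Lib_helper16.BBK.Defs
import Pool.Agent.Lib_helper16.BBK.E1
import Pool.Agent.Lib_helper16.BBK.J1C
import Pool.Agent.Lib_helper16.BBK.J2
import Pool.Agent.Lib_helper16.BBK.ZA

open Set
open scoped ContDiff

namespace BBK

theorem ZB_mu {C1 C2 M mu : ℝ} (h1 : 1 ≤ C1) (h2 : 200 ≤ C2) (hM : 1 ≤ M)
    (h : mu ≤ (C1 * C2 * M) ^ (-(83 : ℝ))) :
    mu ≤ (1 / (C2 * (C1 * M) ^ 2)) ^ 41 / (C2 * (C1 * M)) ∧ mu ≤ 1 := by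
  have hC1 : 0 < C1 := by linarith
  have hC2 : 0 < C2 := by linarith
  have hM0 : 0 < M := by linarith
  have h1M : 1 ≤ C1 * M := by nlinarith
  have e1 : (C1 * C2 * M) ^ (-(83 : ℝ)) = ((C1 * C2 * M) ^ 83)⁻¹ := by
    rw [Real.rpow_neg (by positivity)]
    congr 1
    exact_mod_cast Real.rpow_natCast (C1 * C2 * M) 83
  rw [e1] at h
  have e2 : (1 / (C2 * (C1 * M) ^ 2)) ^ 41 / (C2 * (C1 * M)) = (C2 ^ 42 * (C1 * M) ^ 83)⁻¹ := by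
    rw [div_pow, one_pow, mul_pow, ← pow_mul, div_div, one_div]
    congr 1
    ring
  rw [e2]
  have h3 : C2 ^ 42 ≤ C2 ^ 83 := pow_le_pow_right₀ (by linarith) (by norm_num)
  have e3 : (C1 * C2 * M) ^ 83 = C2 ^ 83 * (C1 * M) ^ 83 := by
    rw [← mul_pow]; congr 1; ring
  have h4 : C2 ^ 42 * (C1 * M) ^ 83 ≤ (C1 * C2 * M) ^ 83 := by
    rw [e3]
    exact mul_le_mul_of_nonneg_right h3 (by positivity)
  have h5 : ((C1 * C2 * M) ^ 83)⁻¹ ≤ (C2 ^ 42 * (C1 * M) ^ 83)⁻¹ :=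
    inv_anti₀ (by positivity) h4
  refine ⟨h.trans h5, h.trans (h5.trans ?_)⟩
  apply inv_le_one_of_one_le₀
  have h6 : 1 ≤ C2 ^ 42 := one_le_pow₀ (by linarith)
  have h7 : 1 ≤ (C1 * M) ^ 83 := one_le_pow₀ h1M
  nlinarith

/-- the KAM theorem (translated curve form) -/
theorem KAM : ∃ (C s : ℝ) (N : ℕ), 1 ≤ C ∧ 1 ≤ s ∧ ∀ (M mu al : ℝ) (tau : ℝ → ℝ) (a b : ℝ × ℝ → ℝ),
    1 ≤ M → 0 < mu → mu ≤ (C * M) ^ (-s) →
    (∀ k m : ℤ, k ≠ 0 → mu / (M * |(k : ℝ)|) ≤ |(k : ℝ) * al - (m : ℝ)|) →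
    ContDiffOn ℝ ∞ tau (Ioo (-(1 / 4) : ℝ) (1 / 4)) →
    ContDiffOn ℝ ∞ a (univ ×ˢ Ioo (-(1 / 4) : ℝ) (1 / 4)) →
    ContDiffOn ℝ ∞ b (univ ×ˢ Ioo (-(1 / 4) : ℝ) (1 / 4)) →
    (∀ n : ℕ, n ≤ N → ∀ y ∈ Ioo (-(1 / 4) : ℝ) (1 / 4), |iteratedDeriv n tau y| ≤ M) →
    (∀ n : ℕ, n ≤ N → ∀ p ∈ (univ ×ˢ Ioo (-(1 / 4) : ℝ) (1 / 4) : Set (ℝ × ℝ)), ‖iteratedFDeriv ℝ n a p‖ ≤ M) →
    (∀ n : ℕ, n ≤ N → ∀ p ∈ (univ ×ˢ Ioo (-(1 / 4) : ℝ) (1 / 4) : Set (ℝ × ℝ)), ‖iteratedFDeriv ℝ n b p‖ ≤ M) →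
    (∀ x y : ℝ, a (x + 1, y) = a (x, y)) → (∀ x y : ℝ, b (x + 1, y) = b (x, y)) →
    tau 0 = 0 → 1 / M ≤ |deriv tau 0| →
    (∀ p ∈ (univ ×ˢ Ioo (-(1 / 4) : ℝ) (1 / 4) : Set (ℝ × ℝ)),
      (fderiv ℝ (fun p : ℝ × ℝ => ((p.1 + al + mu * tau p.2 + mu ^ 2 * a p, p.2 + mu ^ 2 * b p) : ℝ × ℝ)) p).det = 1) →
    ∃ (u v : ℝ → ℝ) (lam : ℝ), Continuous u ∧ Continuous v ∧ (∀ x, u (x + 1) = u x) ∧ (∀ x, v (x + 1) = v x) ∧
      (∀ x, |u x| ≤ 1 / (100 * M)) ∧ (∀ x, |v x| ≤ 1 / (100 * M)) ∧ |lam| ≤ 1 / (100 * M) ∧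
      (∀ x y, |u x - u y| ≤ |x - y| / 2) ∧
      ∀ x, ((x + u x) + al + mu * tau (v x) + mu ^ 2 * a (x + u x, v x), v x + mu ^ 2 * b (x + u x, v x))
        = (x + al + u (x + al), v (x + al) + lam) := by
  obtain ⟨C1, hC1, H1⟩ := data_of_smooth
  obtain ⟨C2, hC2, H2⟩ := sequences
  refine ⟨C1 * C2, 83, 64, by nlinarith, by norm_num, ?_⟩
  intro M mu al tau a b hM hmu hmuC hdio ht ha hb bt ba bb pa pb t0 tw hdet
  obtain ⟨ct, ca, cb, hD, et, ea, eb⟩ := H1 M mu al tau a b hM hmu ht ha hb bt ba bb pa pb t0 tw hdet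
  obtain ⟨hm1, hm2⟩ := ZB_mu hC1 hC2 hM hmuC
  have h1M : 1 ≤ C1 * M := by nlinarith
  have hdio' : Dio al mu (C1 * M) := by
    intro k m hk
    refine le_trans ?_ (hdio k m hk)
    have hk' : 0 < |(k : ℝ)| := abs_pos.2 (by exact_mod_cast hk)
    apply div_le_div_of_nonneg_left hmu.le (by positivity)
    exact mul_le_mul_of_nonneg_right (by nlinarith) hk'.le
  obtain ⟨u, v, lam, hl0, hs⟩ := H2 (C1 * M) mu al ct ca cb h1M hmu hm1 hdio' hD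
  set r0 : ℝ := 1 / (C2 * (C1 * M) ^ 2) with hr0
  have hden : 200 * M ≤ C2 * (C1 * M) ^ 2 := by
    have h3 : M ≤ (C1 * M) ^ 2 := by nlinarith
    nlinarith
  have hMpos : 0 < M := by linarith
  have hr0pos : 0 < r0 := by rw [hr0]; positivity
  have hr1 : r0 ≤ 1 / (200 * M) := by
    rw [hr0]
    exact one_div_le_one_div_of_le (by positivity) hden
  have hr2 : 1 / (200 * M) ≤ 1 / 200 := by
    apply one_div_le_one_div_of_le (by norm_num)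
    linarith
  have h100 : 1 / (100 * M) = 2 * (1 / (200 * M)) := by field_simp; norm_num
  have h200 : 0 < 1 / (200 * M) := by positivity
  obtain ⟨U, V, l, hU, hV, pU, pV, bU, bV, bl, lip, q1, q2⟩ := limit h1M hmu hm2 hD hr0pos
    (by linarith) u v lam hl0 (fun j => (hs j).1) (fun j => (hs j).2.1) (fun j => (hs j).2.2.1)
    (fun j => (hs j).2.2.2)
  refine ⟨U, V, l, hU, hV, pU, pV, fun x => (bU x).trans (by linarith),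
    fun x => (bV x).trans (by linarith), ?_, lip, fun x => ?_⟩
  · have h4 : 2 * r0 / (C1 * M) ≤ 2 * r0 := div_le_self (by linarith) h1M
    linarith
  · have hV8 : |V x| ≤ 1 / 8 := (bV x).trans (by linarith)
    have k1 := q1 x
    have k2 := q2 x
    rw [et _ _ hV8, ea _ _ hV8] at k1
    rw [eb _ _ hV8] at k2
    have k1' : mu * (tau (V x) + mu * a (x + U x, V x)) = U (x + al) - U x := by
      exact_mod_cast k1
    have k2' : mu * (mu * b (x + U x, V x)) = V (x + al) - V x + l := by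
      exact_mod_cast k2
    rw [Prod.mk.injEq]
    constructor
    · linear_combination k1'
    · linear_combination k2'

end BBK
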